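import Pool.Agent.Y450.Horn.Two

/-! Wrappers. -/

set_option autoImplicit false

namespace Pool.Agent.Y450.Horn

open H145R2.SqComb H145R2.TSq Set Filter Topology Complex
open Pool.Agent.TH587 (Spec Sep NoTrap MonoAt sep_noTrap noTrap_mono)

variable {γ : ℝ → ℂ} {δ L : ℝ}

/-- Injectivity on a period, in the form used in the proof. -/
theorem jor_of (hγ : Continuous γ) (hper : ∀ t, γ (t + 1) = γ t) (hinj : InjOn γ (Ico 0 1)) :
    Jor γ := by
  have hfr : ∀ s, γ s = γ (Int.fract s) := by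
    intro s
    have hperz : Function.Periodic γ 1 := hper
    have := hperz.sub_zsmul_eq (x := s) ⌊s⌋
    rw [← this]
    congr 1
    show s - ⌊s⌋ • (1:ℝ) = s - ⌊s⌋
    rw [zsmul_eq_mul, mul_one]
  refine ⟨hγ, hper, ?_⟩
  intro s t hst
  rw [hfr s, hfr t] at hst
  have h := hinj ⟨Int.fract_nonneg s, Int.fract_lt_one s⟩ ⟨Int.fract_nonneg t, Int.fract_lt_one t⟩ hst
  refine ⟨⌊s⌋ - ⌊t⌋, ?_⟩
  have h1 := Int.self_sub_floor s
  have h2 := Int.self_sub_floor t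
  push_cast
  linarith

theorem sep_arc (hγ : Jor γ) (hδ0 : 0 < δ) (hδ2 : δ < 1/2) {e : ℂ} {τ ε : ℝ} (hL : L < 1)
    (hε : 0 < ε) (h1 : Arc γ L (-e) (τ - ε) τ) (h2 : Arc γ L e τ (τ + ε)) : Sep γ δ τ := by
  have L0 : 0 ≤ L := by
    obtain ⟨k1, k2⟩ := h2 τ (τ + ε) le_rfl (by linarith) le_rfl
    by_contra hneg
    push Not at hneg
    have := mul_neg_of_neg_of_pos hneg k1
    have := (abs_nonneg _).trans k2
    linarith
  exact sep_horn L0 hL hγ hδ0 hδ2 (Arc.horn hε h1 h2)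

end Pool.Agent.Y450.Horn
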