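import Pool.Agent.Y450.Horn.Fin

/-! Wild arcs behind a gate. -/

set_option autoImplicit false

namespace Pool.Agent.Y450.Horn

open H145R2.SqComb H145R2.TSq Set Filter Topology Complex
open Pool.Agent.Y450.Stab (Lip)
open Pool.Agent.TH587 (Spec Sep Per Per_open Per_sh Per_closure spec_of_tr tr_lt12 tr_of_ne tr_shn)

variable {γ : ℝ → ℂ} {δ L : ℝ}

/-- A cut on a parameter interval gives a periodic cut. -/
theorem sep_of_int (hγ : Jor γ) (hδ2 : δ < 1/2) {τ s₀ t₀ : ℝ} (hst : t₀ - s₀ < δ) {A : Set E}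
    (hA : IsOpen A) (hτ : ((τ, τ, τ, τ) : E) ∈ A)
    (hAρ : ∀ p ∈ A, (s₀ ≤ p.1 ∧ p.1 ≤ t₀) ∧ s₀ ≤ p.2.2.2 ∧ p.2.2.2 ≤ t₀)
    (hcl : ∀ p ∈ closure A, Tr γ δ p → p ∈ A) : Sep γ δ τ := by
  refine ⟨Per A, Per_open hA, Per_sh A, ⟨0, by rw [shn_zero]; exact hτ⟩, ?_, ?_⟩
  · intro p hp hT
    obtain ⟨n, hn⟩ := Per_closure (τ := (s₀ + t₀) / 2) (fun p hp => by
      obtain ⟨⟨h1, h2⟩, -⟩ := hAρ p hp
      rw [abs_le]; constructor <;> linarith) hp
    exact ⟨n, hcl _ hn ((tr_shn hγ n p).mpr hT)⟩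
  · rintro p ⟨n, hn⟩ _ he
    obtain ⟨⟨h1, h1'⟩, h2, h2'⟩ := hAρ _ hn
    rw [shn_fst] at h1 h1'
    rw [shn_last] at h2 h2'
    linarith

/-- a step along a flat graph and a step into the opposite cone have negative product -/
theorem dot_neg (L0 : 0 ≤ L) {p q u v : ℝ} (hp : 0 < p) (hq : |q| ≤ L * p) (hv : L * |v| < u) :
    p * (-u) + q * v < 0 := by
  have h1 : q * v ≤ L * p * |v| := by
    refine (le_abs_self _).trans ?_
    rw [abs_mul]
    exact mul_le_mul_of_nonneg_right hq (abs_nonneg v)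
  have h2 := mul_lt_mul_of_pos_left hv hp
  nlinarith

theorem sep_gate_aux (hγ : Jor γ) (hδ2 : δ < 1/2) {e : ℂ} (X Y : ℝ → ℝ)
    (hX : ∀ r, X r = ((starRingEnd ℂ) e * γ r).re)
    (hY : (∀ r, Y r = ((starRingEnd ℂ) e * γ r).im) ∨ (∀ r, Y r = -((starRingEnd ℂ) e * γ r).im))
    (L0 : 0 ≤ L) (L1 : L < 1) {s₀ s s₁ t₁ t t₀ τ : ℝ}
    (o1 : s₀ < s) (o2 : s < s₁) (o3 : s₁ ≤ t₁) (o4 : t₁ < t) (o5 : t < t₀) (hst : t₀ - s₀ < δ)
    (hτ1 : s < τ) (hτ2 : τ < t)
    (ha : ∀ r r', s₀ ≤ r → r < r' → r' ≤ s₁ → 0 < X r - X r' ∧ |Y r - Y r'| ≤ L * (X r - X r'))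
    (hb : ∀ r r', t₁ ≤ r → r < r' → r' ≤ t₀ → 0 < X r' - X r ∧ |Y r' - Y r| ≤ L * (X r' - X r))
    (hx : X s₁ = X t₁) (hord : Y t < Y s)
    (hU : ∃ s' ∈ Icc s₀ s₁, X s' = X s + (Y s - Y t) ∧ Y s + (X t - X s) < Y s')
    (hD : ∃ t' ∈ Icc t₁ t₀, X t' = X t + (Y s - Y t) ∧ Y t' < Y t + (X t - X s))
    (hW : ∀ r ∈ Icc s₁ t₁, L * |Y r - Y s| < X s - X r ∧ L * |Y r - Y t| < X t - X r)
    (hfar : ∀ r ∈ Icc s t, ∀ r' ∈ Icc s t,
      ‖γ r - γ r'‖ < ‖γ s₀ - γ r‖ ∧ ‖γ r - γ r'‖ < ‖γ t₀ - γ r‖) : Sep γ δ τ := by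
  have hcX : Continuous X := by
    have := hγ.cont
    have e1 : X = fun r => ((starRingEnd ℂ) e * γ r).re := funext hX
    rw [e1]; fun_prop
  have he : (starRingEnd ℂ) e ≠ 0 := by
    intro h0
    have := (ha s₀ s₁ le_rfl (by linarith) le_rfl).1
    rw [hX, hX, h0, zero_mul, zero_mul, sub_self] at this
    exact lt_irrefl _ this
  -- the guards as graphs
  have sl : ∀ r ∈ Icc s₀ s₁, ∀ r' ∈ Icc s₀ s₁, |Y r - Y r'| ≤ L * |X r - X r'| := by
    intro r hr r' hr'
    rcases lt_trichotomy r r' with h | h | h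
    · obtain ⟨k1, k2⟩ := ha r r' hr.1 h hr'.2
      rw [abs_of_pos k1]; exact k2
    · rw [h]; simp
    · obtain ⟨k1, k2⟩ := ha r' r hr'.1 h hr.2
      rw [abs_sub_comm, abs_sub_comm (X r), abs_of_pos k1]; exact k2
  have sr : ∀ r ∈ Icc t₁ t₀, ∀ r' ∈ Icc t₁ t₀, |Y r - Y r'| ≤ L * |X r - X r'| := by
    intro r hr r' hr'
    rcases lt_trichotomy r r' with h | h | h
    · obtain ⟨k1, k2⟩ := hb r r' hr.1 h hr'.2
      rw [abs_sub_comm, abs_sub_comm (X r), abs_of_pos k1]; exact k2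
    · rw [h]; simp
    · obtain ⟨k1, k2⟩ := hb r' r hr'.1 h hr.2
      rw [abs_of_pos k1]; exact k2
  have hanti : StrictAntiOn X (Icc s₀ s₁) := fun r hr r' hr' h => by
    have := (ha r r' hr.1 h hr'.2).1
    linarith
  have hmono : StrictMonoOn X (Icc t₁ t₀) := fun r hr r' hr' h => by
    have := (hb r r' hr.1 h hr'.2).1
    linarith
  obtain ⟨u, hu, hux⟩ := arm L0 hanti.injOn sl
  obtain ⟨l, hl, hlx⟩ := arm L0 hmono.injOn sr
  have ms : s ∈ Icc s₀ s₁ := ⟨o1.le, o2.le⟩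
  have mt : t ∈ Icc t₁ t₀ := ⟨o4.le, o5.le⟩
  obtain ⟨s', hs', es', us'⟩ := hU
  obtain ⟨t', ht', et', ut'⟩ := hD
  have hh : 0 < Y s - Y t := by linarith
  -- the chord is steep
  have hw1 : X t - X s < L * (Y s - Y t) := by
    have := (abs_le.1 (sl s' hs' s ms)).2
    rw [es', show X s + (Y s - Y t) - X s = Y s - Y t by ring, abs_of_pos hh] at this
    linarith
  have hw2 : -(L * (Y s - Y t)) < X t - X s := by
    have := (abs_le.1 (sr t' ht' t mt)).1
    rw [et', show X t + (Y s - Y t) - X t = Y s - Y t by ring, abs_of_pos hh] at this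
    linarith
  have hLh : L * (Y s - Y t) ≤ Y s - Y t := by
    have := mul_le_mul_of_nonneg_right L1.le hh.le
    linarith
  have hls : l (X s) < u (X s) := by
    rw [hux s ms]
    have k1 := (abs_le.1 (hl (X s) (X t))).2
    rw [hlx t mt] at k1
    have k2 : |X s - X t| ≤ L * (Y s - Y t) := by
      rw [abs_le]; constructor <;> linarith
    have k3 := mul_le_mul_of_nonneg_left k2 L0
    have k4 : L * (L * (Y s - Y t)) ≤ L * (Y s - Y t) := mul_le_mul_of_nonneg_left hLh L0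
    have k5 : L * (Y s - Y t) < 1 * (Y s - Y t) := mul_lt_mul_of_pos_right L1 hh
    linarith
  -- the upper guard is above the lower one
  have hlt : ∀ r, s ≤ r → r < s₁ → l (X r) < u (X r) := by
    intro r h1 h2
    by_contra hcon
    push Not at hcon
    have hrs : X r ≤ X s := by
      rcases h1.eq_or_lt with h | h
      · rw [h]
      · have := (ha s r o1.le h h2.le).1
        linarith
    obtain ⟨z, hz, hze⟩ := intermediate_value_Icc hrs (f := fun z => u z - l z)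
      (by have := hu.cont; have := hl.cont; fun_prop)
      (show (0:ℝ) ∈ Icc _ _ from ⟨by linarith, by linarith⟩)
    simp only at hze
    obtain ⟨r₁, hr₁, er₁⟩ := intermediate_value_Icc' h1 hcX.continuousOn hz
    have hr₁s : X s₁ < X r := by
      have := (ha r s₁ (by linarith) h2 le_rfl).1
      linarith
    have hXt0 : X s ≤ X t₀ := by
      have k : X t' ≤ X t₀ := by
        rcases ht'.2.eq_or_lt with h | h
        · rw [h]
        · have := (hb t' t₀ ht'.1 h le_rfl).1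
          linarith
      linarith
    obtain ⟨r₂, hr₂, er₂⟩ := intermediate_value_Icc (by linarith : t₁ ≤ t₀) hcX.continuousOn
      (show z ∈ Icc (X t₁) (X t₀) from ⟨by linarith [hz.1], by linarith [hz.2]⟩)
    have m1 : r₁ ∈ Icc s₀ s₁ := ⟨by linarith [hr₁.1], by linarith [hr₁.2]⟩
    have e1 : u z = Y r₁ := by rw [← er₁]; exact hux r₁ m1
    have e2 : l z = Y r₂ := by rw [← er₂]; exact hlx r₂ hr₂
    have hXe : X r₁ = X r₂ := by rw [er₁, er₂]
    have hYe : Y r₁ = Y r₂ := by linarith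
    have hγe : (starRingEnd ℂ) e * γ r₁ = (starRingEnd ℂ) e * γ r₂ := by
      rw [hX, hX] at hXe
      apply Complex.ext hXe
      rcases hY with h | h
      · rw [h, h] at hYe; exact hYe
      · rw [h, h] at hYe; linarith
    have := mul_left_cancel₀ he hγe
    have := eq_of_inj hγ this.symm (by linarith [hr₁.2, hr₂.1, m1.2])
      (by linarith [hr₂.2, m1.1])
    have h9 : X r₂ = X s₁ := by
      have h8 : r₂ ≤ s₁ := by linarith [m1.2]
      have h7 : r₂ = t₁ := le_antisymm (by linarith) hr₂.1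
      rw [h7, hx]
    linarith [hz.1]
  have hf1 : f1 u l (X s) (X t) < 0 := by
    unfold f1
    rw [hux s ms, hlx t mt, show X s + Y s - Y t = X s' by rw [es']; ring, hux s' hs']
    linarith
  have hf2 : 0 < f2 u l (X s) (X t) := by
    unfold f2
    rw [hux s ms, hlx t mt, show X t + Y s - Y t = X t' by rw [et']; ring, hlx t' ht']
    linarith
  have hq : 0 < 1 - L ^ 2 := by nlinarith
  have hspec : ∀ p, Tr γ δ p → Spec X Y p.1 p.2.1 p.2.2.1 p.2.2.2 := by
    intro p hp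
    have h := spec_of_tr hγ (by linarith) hp e 0
    simp only [sub_zero] at h
    have e1 : X = fun r => ((starRingEnd ℂ) e * γ r).re := funext hX
    rcases hY with h' | h'
    · have e2 : Y = fun r => ((starRingEnd ℂ) e * γ r).im := funext h'
      rw [e1, e2]; exact h
    · have e2 : Y = fun r => -((starRingEnd ℂ) e * γ r).im := funext h'
      rw [e1, e2]; exact h.neg
  refine sep_of_int hγ hδ2 hst
    (A := {p : E | s₀ < p.1 ∧ p.1 < t₀ ∧ s < p.2.1 ∧ p.2.2.1 < t ∧ s₀ < p.2.2.2 ∧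
      p.2.2.2 < t₀}) ?_ ?_ ?_ ?_
  · have e : {p : E | s₀ < p.1 ∧ p.1 < t₀ ∧ s < p.2.1 ∧ p.2.2.1 < t ∧ s₀ < p.2.2.2 ∧
        p.2.2.2 < t₀} =
        {p : E | s₀ < p.1} ∩ ({p : E | p.1 < t₀} ∩ ({p : E | s < p.2.1} ∩
        ({p : E | p.2.2.1 < t} ∩ ({p : E | s₀ < p.2.2.2} ∩ {p : E | p.2.2.2 < t₀})))) := by
      ext p; rfl
    rw [e]
    exact (isOpen_lt (by fun_prop) (by fun_prop)).inter ((isOpen_lt (by fun_prop)
      (by fun_prop)).inter ((isOpen_lt (by fun_prop) (by fun_prop)).inter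
      ((isOpen_lt (by fun_prop) (by fun_prop)).inter
      ((isOpen_lt (by fun_prop) (by fun_prop)).inter (isOpen_lt (by fun_prop) (by fun_prop))))))
  · exact ⟨by simp only; linarith, by simp only; linarith, by simp only; linarith,
      by simp only; linarith, by simp only; linarith, by simp only; linarith⟩
  · rintro p ⟨h1, h2, h3, h3', h4, h5⟩
    exact ⟨⟨h1.le, h2.le⟩, h4.le, h5.le⟩
  · intro p hp hT
    have hsub : closure {p : E | s₀ < p.1 ∧ p.1 < t₀ ∧ s < p.2.1 ∧ p.2.2.1 < t ∧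
        s₀ < p.2.2.2 ∧ p.2.2.2 < t₀} ⊆ {p : E | s₀ ≤ p.1} ∩ ({p : E | s ≤ p.2.1} ∩
        ({p : E | p.2.2.1 ≤ t} ∩ {p : E | p.2.2.2 ≤ t₀})) := by
      apply closure_minimal
      · rintro p ⟨h1, h2, h3, h3', h4, h5⟩
        exact ⟨h1.le, h3.le, h3'.le, h5.le⟩
      · exact (isClosed_le (by fun_prop) (by fun_prop)).inter ((isClosed_le (by fun_prop)
          (by fun_prop)).inter ((isClosed_le (by fun_prop) (by fun_prop)).inter
          (isClosed_le (by fun_prop) (by fun_prop))))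
    obtain ⟨h1, h2, h2', h3⟩ := hsub hp
    simp only [mem_ofPred_eq] at h1 h2 h2' h3
    have l1 := hT.lt01
    have l2 := tr_lt12 hT
    have l3 := hT.lt23
    have hs := hspec p hT
    have n1 : p.2.1 ≠ s := by
      intro heq
      rw [heq] at hs l1 l2
      obtain ⟨α, σ, q1, q2, q3, q4, q5, q6, q7⟩ := hs
      have m0 : p.1 ∈ Icc s₀ s₁ := ⟨h1, by linarith⟩
      obtain ⟨k1, k2⟩ := ha p.1 s h1 l1 o2.le
      by_cases hc : p.2.2.1 ≤ t₁
      · have hu' : L * |Y p.2.2.1 - Y s| < X s - X p.2.2.1 := by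
          by_cases hc2 : s₁ ≤ p.2.2.1
          · exact (hW _ ⟨hc2, hc⟩).1
          · push Not at hc2
            obtain ⟨k3, k4⟩ := ha s p.2.2.1 o1.le l2 hc2.le
            rw [abs_sub_comm] at k4
            have k5 := mul_le_mul_of_nonneg_left k4 L0
            have k6 : L * (L * (X s - X p.2.2.1)) < X s - X p.2.2.1 := by
              have : L * L < 1 := by nlinarith
              have := mul_lt_mul_of_pos_right this k3
              linarith
            linarith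
        have hd := dot_neg L0 k1 k2 hu'
        have hd2 : (X p.1 - X s) * (X p.2.2.1 - X s) + (Y p.1 - Y s) * (Y p.2.2.1 - Y s) =
            α * ((X p.2.2.1 - X s) ^ 2 + (Y p.2.2.1 - Y s) ^ 2) := by
          rw [q4, q5]; ring
        have hd3 : 0 ≤ α * ((X p.2.2.1 - X s) ^ 2 + (Y p.2.2.1 - Y s) ^ 2) := by positivity
        linarith
      · push Not at hc
        have m2 : p.2.2.1 ∈ Icc t₁ t₀ := ⟨hc.le, by linarith⟩
        have m3 : p.2.2.2 ∈ Icc t₁ t₀ := ⟨by linarith, h3⟩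
        rw [← hux p.1 m0, ← hux s ms, ← hlx p.2.2.1 m2] at q5
        rw [← hux s ms, ← hlx p.2.2.1 m2] at q4 q6 q7
        rw [← hlx p.2.2.2 m3] at q7
        have c := trap_clean hu hl L0 L1 (a := X s) (b := X p.2.2.1) (x1 := X p.1)
          (x4 := X p.2.2.2) q1 q2 hls (by linarith) (hmono m2 m3 l3) q4 q5 q6 q7
        have hle : X p.2.2.1 ≤ X t := hmono.monotoneOn m2 mt h2'
        have := f1_mono hu hl L0 (a := X s) hle
        have h9 := mul_nonneg hq.le (sub_nonneg.2 hle)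
        linarith [c.1]
    have n1' : p.2.2.1 ≠ t := by
      intro heq
      rw [heq] at hs l2 l3
      obtain ⟨α, σ, q1, q2, q3, q4, q5, q6, q7⟩ := hs
      have m3 : p.2.2.2 ∈ Icc t₁ t₀ := ⟨by linarith, h3⟩
      obtain ⟨k1, k2⟩ := hb t p.2.2.2 o4.le l3 h3
      by_cases hc : s₁ ≤ p.2.1
      · have hu' : L * |Y p.2.1 - Y t| < X t - X p.2.1 := by
          by_cases hc2 : p.2.1 ≤ t₁
          · exact (hW _ ⟨hc, hc2⟩).2
          · push Not at hc2
            obtain ⟨k3, k4⟩ := hb p.2.1 t hc2.le l2 o5.le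
            rw [abs_sub_comm] at k4
            have k5 := mul_le_mul_of_nonneg_left k4 L0
            have k6 : L * (L * (X t - X p.2.1)) < X t - X p.2.1 := by
              have : L * L < 1 := by nlinarith
              have := mul_lt_mul_of_pos_right this k3
              linarith
            linarith
        have hd := dot_neg L0 k1 k2 hu'
        have hd2 : (X p.2.2.2 - X t) * (X p.2.1 - X t) + (Y p.2.2.2 - Y t) * (Y p.2.1 - Y t) =
            α * ((X t - X p.2.1) ^ 2 + (Y t - Y p.2.1) ^ 2) := by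
          rw [q6, q7]; ring
        have hd3 : 0 ≤ α * ((X t - X p.2.1) ^ 2 + (Y t - Y p.2.1) ^ 2) := by positivity
        linarith
      · push Not at hc
        have m0 : p.1 ∈ Icc s₀ s₁ := ⟨h1, by linarith⟩
        have m1 : p.2.1 ∈ Icc s₀ s₁ := ⟨by linarith, hc.le⟩
        rw [← hux p.1 m0, ← hux p.2.1 m1, ← hlx t mt] at q5
        rw [← hux p.2.1 m1, ← hlx t mt] at q4 q6 q7
        rw [← hlx p.2.2.2 m3] at q7
        have c := trap_clean hu hl L0 L1 (a := X p.2.1) (b := X t) (x1 := X p.1)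
          (x4 := X p.2.2.2) q1 q2 (hlt _ h2 hc) (hanti m0 m1 l1) (by linarith) q4 q5 q6 q7
        have hle : X p.2.1 ≤ X s := hanti.antitoneOn ms m1 h2
        have := f2_anti hu hl L0 (b := X t) hle
        have h9 := mul_nonneg hq.le (sub_nonneg.2 hle)
        linarith [c.2]
    have n2 : s < p.2.1 := lt_of_le_of_ne h2 (Ne.symm n1)
    have n2' : p.2.2.1 < t := lt_of_le_of_ne h2' n1'
    have r1 : p.2.1 ∈ Icc s t := ⟨h2, by linarith⟩
    have r2 : p.2.2.1 ∈ Icc s t := ⟨by linarith, h2'⟩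
    have hL10 : LL γ 1 p = LL γ 0 p := hT.1.2.2.2.2.1
    have hL20 : LL γ 2 p = LL γ 0 p := hT.1.2.2.2.2.2.1
    have hL21 : LL γ 2 p = LL γ 1 p := hL20.trans hL10.symm
    rw [LL1, LL0] at hL10
    rw [LL1, LL2] at hL21
    have n3 : p.1 ≠ s₀ := by
      intro heq
      have := (hfar _ r1 _ r2).1
      rw [heq] at hL10
      rw [norm_sub_rev (γ p.2.1) (γ p.2.2.1), norm_sub_rev (γ s₀)] at this
      linarith
    have n4 : p.2.2.2 ≠ t₀ := by
      intro heq
      have h9 := (hfar _ r2 _ r1).2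
      rw [heq] at hL21
      linarith
    exact ⟨lt_of_le_of_ne h1 (Ne.symm n3), by linarith, n2, n2', by linarith,
      lt_of_le_of_ne h3 n4⟩

end Pool.Agent.Y450.Horn
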