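import Pool.Agent.Y450.Horn.Gate

/-! Small wild arcs between two long guards which are pieces of one Lipschitz graph. -/

set_option autoImplicit false

namespace Pool.Agent.Y450.Horn

open H145R2.SqComb H145R2.TSq Set Filter Topology Complex
open Pool.Agent.TH587 (Spec Sep spec_of_tr tr_lt12)

variable {γ : ℝ → ℂ} {δ : ℝ}

/-- a special trapezoid in a coarsely monotone and coarsely Lipschitz curve is small -/
theorem coarse_small {x0 x1 x2 x3 y0 y1 y2 α σ h K : ℝ} (h1 : α ^ 2 + σ ^ 2 = 1) (hα : 0 ≤ α)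
    (hα1 : α < 1) (hh : 0 ≤ h) (hK : 0 ≤ K)
    (e1 : x0 - x1 = α * (x2 - x1) - σ * (y2 - y1)) (e2 : y0 - y1 = α * (y2 - y1) + σ * (x2 - x1))
    (e3 : x3 - x2 = -(α * (x2 - x1)) - σ * (y2 - y1))
    (m1 : x0 - 2 * h ≤ x1) (m2 : x1 - 2 * h ≤ x2) (m3 : x2 - 2 * h ≤ x3)
    (l1 : |y0 - y1| ≤ K * |x0 - x1| + (2 * K + 2) * h) :
    (x2 - x1) ^ 2 + (y2 - y1) ^ 2 ≤ (8 * (K + 1) * h) ^ 2 := by
  have a0 : -(2 * h) ≤ α * (x2 - x1) := by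
    have : α * (-(2 * h)) ≤ α * (x2 - x1) := mul_le_mul_of_nonneg_left (by linarith) hα
    have h3 : α * (2 * h) ≤ 1 * (2 * h) := mul_le_mul_of_nonneg_right hα1.le (by linarith)
    linarith
  have a1 : α * (x2 - x1) ≤ 2 * h := by linarith
  have a2 : |x0 - x1| ≤ 6 * h := by
    rw [abs_le]; constructor <;> linarith
  have a3 : |y0 - y1| ≤ (8 * K + 2) * h := by
    have := mul_le_mul_of_nonneg_left a2 hK
    linarith
  have a4 : (x2 - x1) ^ 2 + (y2 - y1) ^ 2 = (x0 - x1) ^ 2 + (y0 - y1) ^ 2 := by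
    rw [e1, e2]
    have : (α * (x2 - x1) - σ * (y2 - y1)) ^ 2 + (α * (y2 - y1) + σ * (x2 - x1)) ^ 2 =
      (α ^ 2 + σ ^ 2) * ((x2 - x1) ^ 2 + (y2 - y1) ^ 2) := by ring
    rw [this, h1, one_mul]
  rw [a4]
  have a5 : (x0 - x1) ^ 2 ≤ (6 * h) ^ 2 := by
    rw [← sq_abs]; exact pow_le_pow_left₀ (abs_nonneg _) a2 2
  have a6 : (y0 - y1) ^ 2 ≤ ((8 * K + 2) * h) ^ 2 := by
    rw [← sq_abs]; exact pow_le_pow_left₀ (abs_nonneg _) a3 2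
  have a7 : (6 * h) ^ 2 + ((8 * K + 2) * h) ^ 2 ≤ (8 * (K + 1) * h) ^ 2 := by
    have : (8 * (K + 1) * h) ^ 2 - ((6 * h) ^ 2 + ((8 * K + 2) * h) ^ 2) =
      (96 * K + 24) * h ^ 2 := by ring
    have h9 : 0 ≤ (96 * K + 24) * h ^ 2 := by positivity
    linarith
  linarith

/-- two guards and a small arc between them -/
theorem coarse_mono {X Y : ℝ → ℝ} {K h s₀ s₁ t₁ t₀ : ℝ} (hh : 0 ≤ h) (hK : 0 ≤ K) (o1 : s₀ < s₁)
    (o2 : s₁ ≤ t₁) (o4 : t₁ < t₀) (hWX : ∀ r ∈ Icc s₁ t₁, |X r| ≤ h)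
    (hWY : ∀ r ∈ Icc s₁ t₁, |Y r| ≤ h)
    (A : ∀ r r', s₀ ≤ r → r < r' → r' ≤ s₁ → 0 < X r' - X r ∧ |Y r' - Y r| ≤ K * (X r' - X r))
    (B : ∀ r r', t₁ ≤ r → r < r' → r' ≤ t₀ → 0 < X r' - X r ∧ |Y r' - Y r| ≤ K * (X r' - X r)) :
    ∀ r r', s₀ ≤ r → r < r' → r' ≤ t₀ → X r - 2 * h ≤ X r' ∧
      |Y r - Y r'| ≤ K * |X r - X r'| + (2 * K + 2) * h := by
  have ms : s₁ ∈ Icc s₁ t₁ := ⟨le_rfl, by linarith⟩
  have mt : t₁ ∈ Icc s₁ t₁ := ⟨by linarith, le_rfl⟩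
  have A1 : ∀ r, s₀ ≤ r → r ≤ s₁ → X r ≤ X s₁ ∧ |Y s₁ - Y r| ≤ K * (X s₁ - X r) := by
    intro r h1 h2
    rcases h2.eq_or_lt with h | h
    · rw [h]; simp
    · obtain ⟨k1, k2⟩ := A r s₁ h1 h le_rfl
      exact ⟨by linarith, k2⟩
  have B1 : ∀ r, t₁ ≤ r → r ≤ t₀ → X t₁ ≤ X r ∧ |Y r - Y t₁| ≤ K * (X r - X t₁) := by
    intro r h1 h2
    rcases h1.eq_or_lt with h | h
    · rw [h]; simp
    · obtain ⟨k1, k2⟩ := B t₁ r le_rfl h h2
      exact ⟨by linarith, k2⟩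
  have cs := abs_le.1 (hWX s₁ ms)
  have ct := abs_le.1 (hWX t₁ mt)
  have ds := abs_le.1 (hWY s₁ ms)
  have dt := abs_le.1 (hWY t₁ mt)
  have Kh : 0 ≤ K * h := mul_nonneg hK hh
  intro r r' h1 h2 h3
  rcases le_total r s₁ with c1 | c1
  · obtain ⟨a1, a2⟩ := A1 r h1 c1
    have a2 := abs_le.1 a2
    rcases le_total r' s₁ with c2 | c2
    · obtain ⟨k1, k2⟩ := A r r' h1 h2 c2
      refine ⟨by linarith, ?_⟩
      rw [abs_sub_comm, abs_sub_comm (X r), abs_of_pos k1]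
      linarith
    · rcases le_total r' t₁ with c3 | c3
      · have w1 := abs_le.1 (hWX r' ⟨c2, c3⟩)
        have w2 := abs_le.1 (hWY r' ⟨c2, c3⟩)
        refine ⟨by linarith, ?_⟩
        have g1 := le_abs_self (X r' - X r)
        have g2 := mul_le_mul_of_nonneg_left g1 hK
        rw [abs_sub_comm (X r)]
        have g3 : K * (X s₁ - X r) ≤ K * (X r' - X r) + 2 * (K * h) := by
          have := mul_le_mul_of_nonneg_left (show X s₁ - X r ≤ (X r' - X r) + 2 * h by linarith)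
            hK
          linarith
        rw [abs_le]; constructor <;> linarith
      · obtain ⟨b1, b2⟩ := B1 r' c3 h3
        have b2 := abs_le.1 b2
        refine ⟨by linarith, ?_⟩
        have g1 := le_abs_self (X r' - X r)
        have g2 := mul_le_mul_of_nonneg_left g1 hK
        rw [abs_sub_comm (X r)]
        have g3 : K * (X s₁ - X r) + K * (X r' - X t₁) ≤ K * (X r' - X r) + 2 * (K * h) := by
          have := mul_le_mul_of_nonneg_left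
            (show (X s₁ - X r) + (X r' - X t₁) ≤ (X r' - X r) + 2 * h by linarith) hK
          linarith
        rw [abs_le]; constructor <;> linarith
  · rcases le_total r t₁ with c2 | c2
    · have w1 := abs_le.1 (hWX r ⟨c1, c2⟩)
      have w2 := abs_le.1 (hWY r ⟨c1, c2⟩)
      rcases le_total r' t₁ with c3 | c3
      · have w3 := abs_le.1 (hWX r' ⟨by linarith, c3⟩)
        have w4 := abs_le.1 (hWY r' ⟨by linarith, c3⟩)
        refine ⟨by linarith, ?_⟩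
        have := mul_nonneg hK (abs_nonneg (X r - X r'))
        rw [abs_le]; constructor <;> linarith
      · obtain ⟨b1, b2⟩ := B1 r' c3 h3
        have b2 := abs_le.1 b2
        refine ⟨by linarith, ?_⟩
        have g1 := le_abs_self (X r' - X r)
        have g2 := mul_le_mul_of_nonneg_left g1 hK
        rw [abs_sub_comm (X r)]
        have g3 : K * (X r' - X t₁) ≤ K * (X r' - X r) + 2 * (K * h) := by
          have := mul_le_mul_of_nonneg_left (show X r' - X t₁ ≤ (X r' - X r) + 2 * h by linarith)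
            hK
          linarith
        rw [abs_le]; constructor <;> linarith
    · obtain ⟨k1, k2⟩ := B r r' c2 h2 h3
      refine ⟨by linarith, ?_⟩
      rw [abs_sub_comm, abs_sub_comm (X r), abs_of_pos k1]
      linarith

/-- four points with close neighbours -/
theorem far4 {a b c d S R : ℝ} (h1 : a ≤ S + b) (h2 : b ≤ S + a) (h3 : b ≤ S + c) (h4 : c ≤ S + b)
    (h5 : c ≤ S + d) (h6 : d ≤ S + c) (h7 : a ≤ S + d) (h8 : d ≤ S + a) (S0 : 0 ≤ S)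
    (hR : max (max a b) (max c d) = R) :
    R - 2 * S ≤ a ∧ R - 2 * S ≤ b ∧ R - 2 * S ≤ c ∧ R - 2 * S ≤ d := by
  have hmax : R = a ∨ R = b ∨ R = c ∨ R = d := by
    rw [← hR]
    rcases max_choice (max a b) (max c d) with hm | hm
    · rw [hm]
      rcases max_choice a b with hm2 | hm2
      · exact Or.inl hm2
      · exact Or.inr (Or.inl hm2)
    · rw [hm]
      rcases max_choice c d with hm2 | hm2
      · exact Or.inr (Or.inr (Or.inl hm2))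
      · exact Or.inr (Or.inr (Or.inr hm2))
  rcases hmax with hm | hm | hm | hm <;> refine ⟨?_, ?_, ?_, ?_⟩ <;> linarith

theorem Arc.scale {L c : ℝ} {e : ℂ} {a b : ℝ} (h : Arc γ L e a b) (hc : 0 < c) :
    Arc γ L ((c : ℂ) * e) a b := by
  intro s t h1 h2 h3
  obtain ⟨k1, k2⟩ := h s t h1 h2 h3
  have e1 : (starRingEnd ℂ) ((c : ℂ) * e) * (γ t - γ s) =
      (c : ℂ) * ((starRingEnd ℂ) e * (γ t - γ s)) := by
    rw [map_mul, Complex.conj_ofReal]; ring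
  rw [e1, Complex.re_ofReal_mul, Complex.im_ofReal_mul, abs_mul, abs_of_pos hc]
  refine ⟨mul_pos hc k1, ?_⟩
  have := mul_le_mul_of_nonneg_left k2 hc.le
  linarith

/-- neighbouring far points are on the same guard -/
theorem nb_guard {c : ℂ} {X Y : ℝ → ℝ} {K h s₀ s₁ t₁ t₀ R S : ℝ} (hK : 0 ≤ K)
    (hnorm : ∀ r r', (X r' - X r) ^ 2 + (Y r' - Y r) ^ 2 = ‖γ r' - γ r‖ ^ 2)
    (A : ∀ r r', s₀ ≤ r → r < r' → r' ≤ s₁ → 0 < X r' - X r ∧ |Y r' - Y r| ≤ K * (X r' - X r))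
    (B : ∀ r r', t₁ ≤ r → r < r' → r' ≤ t₀ → 0 < X r' - X r ∧ |Y r' - Y r| ≤ K * (X r' - X r))
    (o2 : s₁ ≤ t₁) (hXs : X s₁ ≤ h) (hXt : -h ≤ X t₁) (hW : ∀ r ∈ Icc s₁ t₁, ‖γ r - c‖ ≤ h)
    (hRS : (1 + K) * (S + 2 * h) < 2 * (R - 2 * S - h)) (hRSh : h < R - 2 * S) :
    ∀ r r', s₀ ≤ r → r < r' → r' ≤ t₀ → R - 2 * S ≤ ‖γ r - c‖ →
        R - 2 * S ≤ ‖γ r' - c‖ → ‖γ r' - γ r‖ ≤ S → r' < s₁ ∨ t₁ < r := by
  have tri : ∀ a b : ℂ, ‖a - c‖ ≤ ‖b - a‖ + ‖b - c‖ := by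
    intro a b
    have : a - c = -(b - a) + (b - c) := by ring
    rw [this]
    refine (norm_add_le _ _).trans ?_
    rw [norm_neg]
  have side : ∀ r, s₀ ≤ r → r ≤ t₀ → R - 2 * S ≤ ‖γ r - c‖ →
      (r < s₁ ∧ R - 2 * S - h ≤ (1 + K) * (X s₁ - X r)) ∨
      (t₁ < r ∧ R - 2 * S - h ≤ (1 + K) * (X r - X t₁)) := by
    intro r r1 r2 r3
    have est : ∀ x y d : ℝ, 0 ≤ x → |y| ≤ K * x → x ^ 2 + y ^ 2 = d ^ 2 → d ≤ (1 + K) * x := by
      intro x y d hx hy hd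
      refine (abs_le_of_sq_le_sq' ?_ (by positivity)).2
      rw [← hd]
      have h1 : y ^ 2 ≤ (K * x) ^ 2 := by
        rw [← sq_abs y]; exact pow_le_pow_left₀ (abs_nonneg _) hy 2
      have h2 : 0 ≤ 2 * K * x ^ 2 := by positivity
      have h3 : ((1 + K) * x) ^ 2 = x ^ 2 + (K * x) ^ 2 + 2 * K * x ^ 2 := by ring
      linarith
    by_cases c1 : r < s₁
    · left
      refine ⟨c1, ?_⟩
      obtain ⟨k1, k2⟩ := A r s₁ r1 c1 le_rfl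
      have h10 := est _ _ _ k1.le k2 (hnorm r s₁)
      have h12 := tri (γ r) (γ s₁)
      have h13 := hW s₁ ⟨le_rfl, o2⟩
      linarith
    · by_cases c2 : t₁ < r
      · right
        refine ⟨c2, ?_⟩
        obtain ⟨k1, k2⟩ := B t₁ r le_rfl c2 r2
        have h10 := est _ _ _ k1.le k2 (hnorm t₁ r)
        have h12 := tri (γ r) (γ t₁)
        rw [norm_sub_rev (γ t₁) (γ r)] at h12
        have h13 := hW t₁ ⟨o2, le_rfl⟩
        linarith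
      · exfalso
        push Not at c1 c2
        have := hW r ⟨c1, c2⟩
        linarith
  intro r r' r1 r2 r3 r4 r5 r6
  rcases side r r1 (by linarith) r4 with ⟨b1, b2⟩ | ⟨b1, b2⟩
  · rcases side r' (by linarith) r3 r5 with ⟨b3, b4⟩ | ⟨b3, b4⟩
    · exact Or.inl b3
    · exfalso
      have h8 : |X r' - X r| ≤ ‖γ r' - γ r‖ :=
        abs_le_of_sq_le_sq (by have := hnorm r r'; nlinarith [sq_nonneg (Y r' - Y r)])
          (norm_nonneg _)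
      have h9 := (abs_le.1 h8).2
      have h10 : X s₁ - X r + (X r' - X t₁) ≤ S + 2 * h := by linarith
      have h11 := mul_le_mul_of_nonneg_left h10 (by linarith : 0 ≤ 1 + K)
      linarith
  · exact Or.inr b1

/-- no special trapezoid has the radius `R` -/
theorem guard_key {e c : ℂ} {X Y : ℝ → ℝ} {K h s₀ s₁ t₁ t₀ R : ℝ} (hγ : Jor γ) (hδ1 : δ < 1)
    (hX : X = fun r => ((starRingEnd ℂ) e * (γ r - c)).re)
    (hY : Y = fun r => ((starRingEnd ℂ) e * (γ r - c)).im)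
    (hh : 0 ≤ h) (hK : 0 ≤ K)
    (hnorm : ∀ r r', (X r' - X r) ^ 2 + (Y r' - Y r) ^ 2 = ‖γ r' - γ r‖ ^ 2)
    (A : ∀ r r', s₀ ≤ r → r < r' → r' ≤ s₁ → 0 < X r' - X r ∧ |Y r' - Y r| ≤ K * (X r' - X r))
    (B : ∀ r r', t₁ ≤ r → r < r' → r' ≤ t₀ → 0 < X r' - X r ∧ |Y r' - Y r| ≤ K * (X r' - X r))
    (o1 : s₀ < s₁) (o2 : s₁ ≤ t₁) (o4 : t₁ < t₀)
    (hWX : ∀ r ∈ Icc s₁ t₁, |X r| ≤ h) (hWY : ∀ r ∈ Icc s₁ t₁, |Y r| ≤ h)
    (hW : ∀ r ∈ Icc s₁ t₁, ‖γ r - c‖ ≤ h) (R1 : 22 * (1 + K) ^ 2 * h < R)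
    {p : E} (hT : Tr γ δ p) (q1 : s₀ ≤ p.1) (q2 : p.2.2.2 ≤ t₀) :
    max (max ‖γ p.1 - c‖ ‖γ p.2.1 - c‖) (max ‖γ p.2.2.1 - c‖ ‖γ p.2.2.2 - c‖) ≠ R := by
  intro hFR
  have l1 := hT.lt01
  have l2 := tr_lt12 hT
  have l3 := hT.lt23
  have i1 : s₀ ≤ p.2.1 := q1.trans l1.le
  have i2 : s₀ ≤ p.2.2.1 := i1.trans l2.le
  have i3 : p.2.2.1 ≤ t₀ := l3.le.trans q2
  have i4 : p.2.1 ≤ t₀ := l2.le.trans i3
  have hsp := spec_of_tr hγ hδ1 hT e c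
  rw [← hX, ← hY] at hsp
  obtain ⟨S, hS⟩ : ∃ S, S = 8 * (K + 1) * h := ⟨_, rfl⟩
  have S0 : 0 ≤ S := by rw [hS]; positivity
  have hBC : ‖γ p.2.2.1 - γ p.2.1‖ ≤ S := by
    have coarse := coarse_mono hh hK o1 o2 o4 hWX hWY A B
    obtain ⟨α, σ, z1, z2, z3, z4, z5, z6, z7⟩ := hsp
    obtain ⟨c1, c1'⟩ := coarse p.1 p.2.1 q1 l1 i4
    obtain ⟨c2, c2'⟩ := coarse p.2.1 p.2.2.1 i1 l2 i3
    obtain ⟨c3, c3'⟩ := coarse p.2.2.1 p.2.2.2 i2 l3 q2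
    have hsm := coarse_small z1 z2 z3 hh hK z4 z5 z6 c1 c2 c3 c1'
    have h9 : ‖γ p.2.2.1 - γ p.2.1‖ ^ 2 ≤ S ^ 2 := by
      rw [← hnorm, hS]; exact hsm
    exact (abs_le_of_sq_le_sq' h9 S0).2
  have hL10 : ‖γ p.2.2.1 - γ p.2.1‖ = ‖γ p.2.1 - γ p.1‖ := hT.1.2.2.2.2.1
  have hL20 : ‖γ p.2.2.2 - γ p.2.2.1‖ = ‖γ p.2.1 - γ p.1‖ := hT.1.2.2.2.2.2.1
  have hL30 : ‖γ p.1 - γ p.2.2.2‖ ≤ ‖γ p.2.1 - γ p.1‖ := hT.1.2.2.2.2.2.2.1
  have hAB : ‖γ p.2.1 - γ p.1‖ ≤ S := by rw [← hL10]; exact hBC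
  have hCD : ‖γ p.2.2.2 - γ p.2.2.1‖ ≤ S := by rw [hL20]; exact hAB
  have hDA : ‖γ p.1 - γ p.2.2.2‖ ≤ S := hL30.trans hAB
  -- all vertices are far from the centre
  have tri : ∀ a b : ℂ, ‖b - a‖ ≤ S → ‖a - c‖ ≤ S + ‖b - c‖ := by
    intro a b hab
    have : a - c = -(b - a) + (b - c) := by ring
    rw [this]
    refine (norm_add_le _ _).trans ?_
    rw [norm_neg]
    exact add_le_add_left hab _
  have tri' : ∀ a b : ℂ, ‖a - b‖ ≤ S → ‖a - c‖ ≤ S + ‖b - c‖ := by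
    intro a b hab
    have : a - c = (a - b) + (b - c) := by ring
    rw [this]
    exact (norm_add_le _ _).trans (add_le_add_left hab _)
  obtain ⟨far1, far2, far3, far4'⟩ := far4 (tri _ _ hAB) (tri' _ _ hAB) (tri _ _ hBC) (tri' _ _ hBC)
    (tri _ _ hCD) (tri' _ _ hCD) (tri' _ _ hDA) (tri _ _ hDA) S0 hFR
  have hRS : (1 + K) * (S + 2 * h) < 2 * (R - 2 * S - h) := by
    have k1 : (1 + K) * (S + 2 * h) + 4 * S + 2 * h ≤ 2 * (22 * (1 + K) ^ 2 * h) := by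
      have : 2 * (22 * (1 + K) ^ 2 * h) - ((1 + K) * (S + 2 * h) + 4 * S + 2 * h) =
        (36 * K ^ 2 + 38 * K) * h := by rw [hS]; ring
      have h9 : 0 ≤ (36 * K ^ 2 + 38 * K) * h := by positivity
      linarith
    linarith
  have hRSh : h < R - 2 * S := by
    have : 0 ≤ (1 + K) * (S + 2 * h) := by positivity
    linarith
  have nb := nb_guard (c := c) hK hnorm A B o2 (abs_le.1 (hWX s₁ ⟨le_rfl, o2⟩)).2
    (abs_le.1 (hWX t₁ ⟨o2, le_rfl⟩)).1 hW hRS hRSh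
  have n01 := nb p.1 p.2.1 q1 l1 i4 far1 far2 hAB
  have n12 := nb p.2.1 p.2.2.1 i1 l2 i3 far2 far3 hBC
  have n23 := nb p.2.2.1 p.2.2.2 i2 l3 q2 far3 far4' hCD
  rcases n23 with n23 | n23
  · have j3 := n23.le
    have j2 : p.2.2.1 ≤ s₁ := l3.le.trans j3
    have j1 : p.2.1 ≤ s₁ := l2.le.trans j2
    have k1 := (A p.1 p.2.1 q1 l1 j1).1
    have k2 := (A p.2.1 p.2.2.1 i1 l2 j2).1
    have k3 := (A p.2.2.1 p.2.2.2 i2 l3 j3).1
    exact hsp.no_mono (sub_pos.1 k1) (sub_pos.1 k2) (sub_pos.1 k3)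
  · rcases n12 with n12 | n12
    · exact absurd (n23.trans n12) (not_lt.2 o2)
    · rcases n01 with n01 | n01
      · exact absurd (n12.trans n01) (not_lt.2 o2)
      · have k1 := (B p.1 p.2.1 n01.le l1 i4).1
        have k2 := (B p.2.1 p.2.2.1 n12.le l2 i3).1
        have k3 := (B p.2.2.1 p.2.2.2 n23.le l3 q2).1
        exact hsp.no_mono (sub_pos.1 k1) (sub_pos.1 k2) (sub_pos.1 k3)

theorem guard_unit (hγ : Jor γ) (hδ2 : δ < 1/2) {e : ℂ} (he : ‖e‖ = 1) {K h : ℝ}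
    {s₀ s₁ t₁ t₀ τ : ℝ} (o1 : s₀ < s₁) (o2 : s₁ ≤ τ) (o3 : τ ≤ t₁) (o4 : t₁ < t₀)
    (hst : t₀ - s₀ < δ) (ha : Arc γ K e s₀ s₁) (hb : Arc γ K e t₁ t₀)
    (hW : ∀ r ∈ Icc s₁ t₁, ‖γ r - γ τ‖ ≤ h)
    (hs : 22 * (1 + K) ^ 2 * h < ‖γ s₀ - γ τ‖) (ht : 22 * (1 + K) ^ 2 * h < ‖γ t₀ - γ τ‖) :
    Sep γ δ τ := by
  have hh : 0 ≤ h := (norm_nonneg _).trans (hW τ ⟨o2, o3⟩)
  have hK : 0 ≤ K := by
    obtain ⟨k1, k2⟩ := hb t₁ t₀ le_rfl o4 le_rfl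
    by_contra hneg
    push Not at hneg
    have := mul_neg_of_neg_of_pos hneg k1
    have := (abs_nonneg _).trans k2
    linarith
  obtain ⟨X, hX⟩ : ∃ X : ℝ → ℝ, X = fun r => ((starRingEnd ℂ) e * (γ r - γ τ)).re := ⟨_, rfl⟩
  obtain ⟨Y, hY⟩ : ∃ Y : ℝ → ℝ, Y = fun r => ((starRingEnd ℂ) e * (γ r - γ τ)).im := ⟨_, rfl⟩
  have eX : ∀ r r', X r' - X r = ((starRingEnd ℂ) e * (γ r' - γ r)).re := by
    intro r r'
    rw [hX]
    simp only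
    rw [← sub_re]; congr 1; ring
  have eY : ∀ r r', Y r' - Y r = ((starRingEnd ℂ) e * (γ r' - γ r)).im := by
    intro r r'
    rw [hY]
    simp only
    rw [← sub_im]; congr 1; ring
  have hnorm : ∀ r r', (X r' - X r) ^ 2 + (Y r' - Y r) ^ 2 = ‖γ r' - γ r‖ ^ 2 := by
    intro r r'
    rw [eX, eY]
    have : ‖(starRingEnd ℂ) e * (γ r' - γ r)‖ = ‖γ r' - γ r‖ := by
      rw [norm_mul, RCLike.norm_conj, he, one_mul]
    rw [← this, ← Complex.normSq_eq_norm_sq, Complex.normSq_apply]; ring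
  have hXτ : X τ = 0 := by simp [hX]
  have hYτ : Y τ = 0 := by simp [hY]
  have hWX : ∀ r ∈ Icc s₁ t₁, |X r| ≤ h := by
    intro r hr
    have h1 := hnorm τ r
    rw [hXτ, sub_zero] at h1
    have h2 : |X r| ≤ ‖γ r - γ τ‖ :=
      abs_le_of_sq_le_sq (by linarith [sq_nonneg (Y r - Y τ)]) (norm_nonneg _)
    exact h2.trans (hW r hr)
  have hWY : ∀ r ∈ Icc s₁ t₁, |Y r| ≤ h := by
    intro r hr
    have h1 := hnorm τ r
    rw [hYτ, sub_zero] at h1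
    have h2 : |Y r| ≤ ‖γ r - γ τ‖ :=
      abs_le_of_sq_le_sq (by linarith [sq_nonneg (X r - X τ)]) (norm_nonneg _)
    exact h2.trans (hW r hr)
  have A : ∀ r r', s₀ ≤ r → r < r' → r' ≤ s₁ → 0 < X r' - X r ∧
      |Y r' - Y r| ≤ K * (X r' - X r) := by
    intro r r' h1 h2 h3
    rw [eX, eY]
    exact ha r r' h1 h2 h3
  have B : ∀ r r', t₁ ≤ r → r < r' → r' ≤ t₀ → 0 < X r' - X r ∧
      |Y r' - Y r| ≤ K * (X r' - X r) := by
    intro r r' h1 h2 h3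
    rw [eX, eY]
    exact hb r r' h1 h2 h3
  obtain ⟨R, R1, R2, R3⟩ : ∃ R, 22 * (1 + K) ^ 2 * h < R ∧ R < ‖γ s₀ - γ τ‖ ∧
      R < ‖γ t₀ - γ τ‖ := by
    obtain ⟨R, h1, h2⟩ := exists_between (lt_min hs ht)
    exact ⟨R, h1, h2.trans_le (min_le_left _ _), h2.trans_le (min_le_right _ _)⟩
  have R0 : 0 < R := lt_of_le_of_lt (by positivity) R1
  have hc := hγ.cont
  obtain ⟨F, hF⟩ : ∃ F : E → ℝ, F = fun p => max (max ‖γ p.1 - γ τ‖ ‖γ p.2.1 - γ τ‖)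
      (max ‖γ p.2.2.1 - γ τ‖ ‖γ p.2.2.2 - γ τ‖) := ⟨_, rfl⟩
  have hFc : Continuous F := by
    rw [hF]
    fun_prop
  have key : ∀ p, Tr γ δ p → s₀ ≤ p.1 → p.2.2.2 ≤ t₀ → F p ≠ R := by
    intro p hT q1 q2
    rw [hF]
    exact guard_key hγ (by linarith) hX hY hh hK hnorm A B o1 (o2.trans o3) o4 hWX hWY hW R1
      hT q1 q2
  clear hnorm A B eX eY hWX hWY hs ht ha hb
  refine sep_of_int hγ hδ2 hst
    (A := {p : E | s₀ < p.1 ∧ p.1 < t₀ ∧ s₀ < p.2.2.2 ∧ p.2.2.2 < t₀ ∧ F p < R}) ?_ ?_ ?_ ?_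
  · have e : {p : E | s₀ < p.1 ∧ p.1 < t₀ ∧ s₀ < p.2.2.2 ∧ p.2.2.2 < t₀ ∧ F p < R} =
        {p : E | s₀ < p.1} ∩ ({p : E | p.1 < t₀} ∩ ({p : E | s₀ < p.2.2.2} ∩
        ({p : E | p.2.2.2 < t₀} ∩ {p : E | F p < R}))) := by
      ext p; rfl
    rw [e]
    exact (isOpen_lt (by fun_prop) (by fun_prop)).inter ((isOpen_lt (by fun_prop)
      (by fun_prop)).inter ((isOpen_lt (by fun_prop) (by fun_prop)).inter
      ((isOpen_lt (by fun_prop) (by fun_prop)).inter (isOpen_lt hFc continuous_const))))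
  · have j1 : s₀ < τ := o1.trans_le o2
    have j2 : τ < t₀ := o3.trans_lt o4
    refine ⟨j1, j2, j1, j2, ?_⟩
    rw [hF]
    simp only [sub_self, norm_zero, max_self]
    exact R0
  · rintro p ⟨h1, h2, h3, h4, h5⟩
    exact ⟨⟨h1.le, h2.le⟩, h3.le, h4.le⟩
  · intro p hp hT
    have hsub : closure {p : E | s₀ < p.1 ∧ p.1 < t₀ ∧ s₀ < p.2.2.2 ∧ p.2.2.2 < t₀ ∧
        F p < R} ⊆ {p : E | s₀ ≤ p.1} ∩ ({p : E | p.2.2.2 ≤ t₀} ∩ {p : E | F p ≤ R}) := by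
      apply closure_minimal
      · rintro p ⟨h1, h2, h3, h4, h5⟩
        exact ⟨h1.le, h4.le, h5.le⟩
      · exact (isClosed_le (by fun_prop) (by fun_prop)).inter ((isClosed_le (by fun_prop)
          (by fun_prop)).inter (isClosed_le hFc continuous_const))
    obtain ⟨h1, h2, h3⟩ := hsub hp
    simp only [mem_ofPred_eq] at h1 h2 h3
    have l1 := hT.lt01
    have l2 := tr_lt12 hT
    have l3 := hT.lt23
    have h4 := lt_of_le_of_ne h3 (key p hT h1 h2)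
    have h4' := h4
    rw [hF] at h4'
    simp only at h4'
    have h5 : ‖γ p.1 - γ τ‖ < R := ((le_max_left _ _).trans (le_max_left _ _)).trans_lt h4'
    have h6 : ‖γ p.2.2.2 - γ τ‖ < R := ((le_max_right _ _).trans (le_max_right _ _)).trans_lt h4'
    have n1 : p.1 ≠ s₀ := by
      intro heq; rw [heq] at h5; exact absurd h5 (not_lt.2 R2.le)
    have n2 : p.2.2.2 ≠ t₀ := by
      intro heq; rw [heq] at h6; exact absurd h6 (not_lt.2 R3.le)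
    have n1' := lt_of_le_of_ne h1 (Ne.symm n1)
    have n2' := lt_of_le_of_ne h2 n2
    have n3 := l1.trans (l2.trans l3)
    exact ⟨n1', n3.trans n2', n1'.trans n3, n2', h4⟩

/-- Small wild arcs between long guards. -/
theorem sep_guard (hγ : Jor γ) (hδ2 : δ < 1/2) {e : ℂ} {K h : ℝ}
    {s₀ s₁ t₁ t₀ τ : ℝ} (o1 : s₀ < s₁) (o2 : s₁ ≤ τ) (o3 : τ ≤ t₁) (o4 : t₁ < t₀)
    (hst : t₀ - s₀ < δ) (ha : Arc γ K e s₀ s₁) (hb : Arc γ K e t₁ t₀)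
    (hW : ∀ r ∈ Icc s₁ t₁, ‖γ r - γ τ‖ ≤ h)
    (hs : 22 * (1 + K) ^ 2 * h < ‖γ s₀ - γ τ‖) (ht : 22 * (1 + K) ^ 2 * h < ‖γ t₀ - γ τ‖) :
    Sep γ δ τ := by
  have he : e ≠ 0 := by
    rintro rfl
    have := (hb t₁ t₀ le_rfl o4 le_rfl).1
    simp at this
  have hn : 0 < ‖e‖ := norm_pos_iff.2 he
  have hn' : 0 < ‖e‖⁻¹ := inv_pos.2 hn
  refine guard_unit hγ hδ2 (e := ((‖e‖⁻¹ : ℝ) : ℂ) * e) ?_ o1 o2 o3 o4 hst (ha.scale hn')
    (hb.scale hn') hW hs ht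
  rw [norm_mul, Complex.norm_real, Real.norm_eq_abs, abs_of_pos hn']
  field_simp

end Pool.Agent.Y450.Horn
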