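import Pool.Agent.Y450.Horn.Trap
import Pool.Agent.TH587.Horn4

/-! A cut at the tip of a horn between two graphs of Lipschitz constant `< 1`. -/

set_option autoImplicit false

namespace Pool.Agent.Y450.Horn

open H145R2.SqComb H145R2.TSq Set Filter Topology Complex
open Pool.Agent.TH587 (Spec Sep Per sep_of_local spec_of_tr tr_lt12 tr_of_ne)

/-- `γ` has a horn in the direction `e` at `τ`. -/
structure HornAt (L : ℝ) (γ : ℝ → ℂ) (τ : ℝ) (e : ℂ) (ε : ℝ) : Prop where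
  pos : 0 < ε
  anti : StrictAntiOn (fun t => ((starRingEnd ℂ) e * γ t).re) (Icc (τ-ε) τ)
  mono : StrictMonoOn (fun t => ((starRingEnd ℂ) e * γ t).re) (Icc τ (τ+ε))
  left : ∀ s ∈ Icc (τ-ε) τ, ∀ t ∈ Icc (τ-ε) τ, 
    |((starRingEnd ℂ) e * (γ s - γ t)).im| ≤ L * |((starRingEnd ℂ) e * (γ s - γ t)).re|
  right : ∀ s ∈ Icc τ (τ+ε), ∀ t ∈ Icc τ (τ+ε), 
    |((starRingEnd ℂ) e * (γ s - γ t)).im| ≤ L * |((starRingEnd ℂ) e * (γ s - γ t)).re|

variable {γ : ℝ → ℂ} {δ L : ℝ}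

/-- Horns. -/
theorem sep_horn (L0 : 0 ≤ L) (L1 : L < 1) (hγ : Jor γ) (hδ0 : 0 < δ) (hδ2 : δ < 1/2) {τ : ℝ}
    {e : ℂ} {ε : ℝ} (h : HornAt L γ τ e ε) : Sep γ δ τ := by
  obtain ⟨ρ, hρ0, hρ4, hρδ, hρε⟩ : ∃ ρ, 0 < ρ ∧ ρ ≤ 1/4 ∧ 2*ρ < δ ∧ ρ ≤ ε := by
    refine ⟨min (1/4) (min (δ/4) (ε/2)), ?_, min_le_left _ _, ?_, ?_⟩
    · have := h.pos
      positivity
    · have := (min_le_right (1/4) (min (δ/4) (ε/2))).trans (min_le_left _ _)
      linarith
    · have := (min_le_right (1/4) (min (δ/4) (ε/2))).trans (min_le_right _ _)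
      linarith [h.pos]
  have sL : ∀ t ∈ Icc (τ-ρ) τ, t ∈ Icc (τ-ε) τ := fun t ht => ⟨by linarith [ht.1], ht.2⟩
  have sR : ∀ t ∈ Icc τ (τ+ρ), t ∈ Icc τ (τ+ε) := fun t ht => ⟨ht.1, by linarith [ht.2]⟩
  set x : ℝ → ℝ := fun t => ((starRingEnd ℂ) e * (γ t - γ τ)).re with hx
  set y : ℝ → ℝ := fun t => ((starRingEnd ℂ) e * (γ t - γ τ)).im with hy
  have ex : ∀ s t, x s - x t = ((starRingEnd ℂ) e * (γ s - γ t)).re := by
    intro s t
    simp only [hx]
    rw [← sub_re]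
    congr 1; ring
  have ey : ∀ s t, y s - y t = ((starRingEnd ℂ) e * (γ s - γ t)).im := by
    intro s t
    simp only [hy]
    rw [← sub_im]
    congr 1; ring
  have ex2 : ∀ s t, x s - x t = ((starRingEnd ℂ) e * γ s).re - ((starRingEnd ℂ) e * γ t).re := by
    intro s t
    rw [ex, ← sub_re]
    congr 1; ring
  have ha : StrictAntiOn x (Icc (τ-ρ) τ) := by
    intro s hs t ht hst
    have := h.anti (sL s hs) (sL t ht) hst
    have k := ex2 s t
    simp only at this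
    linarith
  have hm : StrictMonoOn x (Icc τ (τ+ρ)) := by
    intro s hs t ht hst
    have := h.mono (sR s hs) (sR t ht) hst
    have k := ex2 s t
    simp only at this
    linarith
  have sl : ∀ s ∈ Icc (τ-ρ) τ, ∀ t ∈ Icc (τ-ρ) τ, |y s - y t| ≤ L * |x s - x t| := by
    intro s hs t ht
    rw [ex, ey]
    exact h.left s (sL s hs) t (sL t ht)
  have sr : ∀ s ∈ Icc τ (τ+ρ), ∀ t ∈ Icc τ (τ+ρ), |y s - y t| ≤ L * |x s - x t| := by
    intro s hs t ht
    rw [ex, ey]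
    exact h.right s (sR s hs) t (sR t ht)
  have hcont : Continuous x := by
    have := hγ.cont
    fun_prop
  have he : (starRingEnd ℂ) e ≠ 0 := by
    intro h0
    have := h.mono (a := τ) ⟨le_rfl, by linarith [h.pos]⟩ (b := τ+ε) ⟨by linarith [h.pos], le_rfl⟩ 
      (by linarith [h.pos])
    simp only [h0, zero_mul] at this
    exact lt_irrefl _ this
  have hne : ∀ s ∈ Ico (τ-ρ) τ, ∀ t ∈ Ioc τ (τ+ρ), x s = x t → y s ≠ y t := by
    intro s hs t ht hxe hye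
    have : γ t = γ s := by
      have k : (starRingEnd ℂ) e * (γ t - γ s) = 0 := by
        apply Complex.ext
        · rw [← ex, hxe, sub_self, zero_re]
        · rw [← ey, hye, sub_self, zero_im]
      rcases mul_eq_zero.mp k with k | k
      · exact absurd k he
      · exact sub_eq_zero.mp k
    have := eq_of_inj hγ this (by linarith [hs.2, ht.1]) (by linarith [hs.1, ht.2])
    linarith [hs.2, ht.1]
  -- special trapezoids near the tip straddle it
  have hspan : ∀ p, Tr γ δ p → τ - ρ ≤ p.1 → p.2.2.2 ≤ τ + ρ → p.2.1 < τ ∧ τ < p.2.2.1 := by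
    intro p hp h1 h2
    have hs := spec_of_tr hγ (by linarith) hp e (γ τ)
    have l1 := hp.lt01
    have l2 := tr_lt12 hp
    have l3 := hp.lt23
    refine ⟨?_, ?_⟩
    · by_contra hcon
      push Not at hcon
      have m1 : p.2.1 ∈ Icc τ (τ+ρ) := ⟨hcon, by linarith⟩
      have m2 : p.2.2.1 ∈ Icc τ (τ+ρ) := ⟨by linarith, by linarith⟩
      have m3 : p.2.2.2 ∈ Icc τ (τ+ρ) := ⟨by linarith, by linarith⟩
      exact no_right L0 L1 hs (hm m1 m2 l2) (hm m2 m3 l3) (sr _ m2 _ m1) (sr _ m3 _ m2)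
    · by_contra hcon
      push Not at hcon
      have m0 : p.1 ∈ Icc (τ-ρ) τ := ⟨by linarith, by linarith⟩
      have m1 : p.2.1 ∈ Icc (τ-ρ) τ := ⟨by linarith, by linarith⟩
      have m2 : p.2.2.1 ∈ Icc (τ-ρ) τ := ⟨by linarith, hcon⟩
      exact no_left L0 L1 hs (ha m0 m1 l1) (ha m1 m2 l2) (sl _ m0 _ m1) (sl _ m1 _ m2)
  -- the trapezoids touching the boundary of the zone
  obtain ⟨m, hm', hmac⟩ : ∃ m < τ, ∀ p, Tr γ δ p → τ - ρ ≤ p.1 → p.2.2.2 ≤ τ + ρ → 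
      (p.1 = τ - ρ ∨ p.2.2.2 = τ + ρ) → p.2.1 ≤ m := by
    set K : Set E := {p | p ∈ XX γ δ ∧ τ - ρ ≤ p.1 ∧ p.2.2.2 ≤ τ + ρ ∧ p.2.1 ≤ τ ∧ τ ≤ p.2.2.1 ∧ 
      (p.1 = τ - ρ ∨ p.2.2.2 = τ + ρ)} with hK
    have hKc : IsCompact K := by
      have hc : IsClosed K := by
        have e : K = XX γ δ ∩ ({p : E | τ - ρ ≤ p.1} ∩ ({p : E | p.2.2.2 ≤ τ + ρ} ∩ 
            ({p : E | p.2.1 ≤ τ} ∩ ({p : E | τ ≤ p.2.2.1} ∩ 
            ({p : E | p.1 = τ - ρ} ∪ {p : E | p.2.2.2 = τ + ρ}))))) := by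
          ext p; rfl
        rw [e]
        exact (XX_closed hγ).inter ((isClosed_le (by fun_prop) (by fun_prop)).inter 
          ((isClosed_le (by fun_prop) (by fun_prop)).inter 
          ((isClosed_le (by fun_prop) (by fun_prop)).inter 
          ((isClosed_le (by fun_prop) (by fun_prop)).inter 
          ((isClosed_eq (by fun_prop) (by fun_prop)).union 
          (isClosed_eq (by fun_prop) (by fun_prop)))))))
      have hk : IsCompact (Icc (τ-ρ) (τ+ρ) ×ˢ (Icc (τ-ρ) (τ+ρ) ×ˢ (Icc (τ-ρ) (τ+ρ) ×ˢ 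
          Icc (τ-ρ) (τ+ρ)))) := 
        isCompact_Icc.prod (isCompact_Icc.prod (isCompact_Icc.prod isCompact_Icc))
      refine hk.of_isClosed_subset hc ?_
      rintro ⟨a, b, c, d⟩ ⟨⟨h1, h2, h3, h4, -⟩, h5, h6, h7, h8, -⟩
      simp only at h1 h2 h3 h4 h5 h6 h7 h8
      refine ⟨⟨by simp only; linarith, by simp only; linarith⟩, 
        ⟨by simp only; linarith, by simp only; linarith⟩, 
        ⟨by simp only; linarith, by simp only; linarith⟩, 
        ⟨by simp only; linarith, by simp only; linarith⟩⟩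
    rcases K.eq_empty_or_nonempty with hKe | hKne
    · refine ⟨τ - 1, by linarith, ?_⟩
      intro p h1 h2 h3 h4
      obtain ⟨k1, k2⟩ := hspan p h1 h2 h3
      have : p ∈ K := ⟨h1.1, h2, h3, k1.le, k2.le, h4⟩
      rw [hKe] at this
      exact absurd this (notMem_empty _)
    · obtain ⟨p₀, hp₀, hmax⟩ := hKc.exists_isMaxOn hKne 
        (show Continuous fun p : E => p.2.1 by fun_prop).continuousOn
      refine ⟨p₀.2.1, ?_, ?_⟩
      · obtain ⟨h1, h2, h3, h4, h5, h6⟩ := hp₀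
        have w0 := h1.1
        have w1 := h1.2.1
        have w2 := h1.2.2.1
        have hT := tr_of_ne hγ (by linarith) h1 (by
          intro heq
          rcases h6 with h6 | h6 <;> linarith)
        exact (hspan _ hT h2 h3).1
      · intro p h1 h2 h3 h4
        obtain ⟨k1, k2⟩ := hspan p h1 h2 h3
        exact hmax ⟨h1.1, h2, h3, k1.le, k2.le, h4⟩
  obtain ⟨s, t, k1, k2, k3, kt1, kt2, k4, k5⟩ := horn_clean L0 L1 hcont hρ0 (by simp [hx])
    (by simp [hy]) ha hm sl sr hne hm'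
  refine sep_of_local hγ hρ4 hρδ 
    (A := {p : E | τ - ρ < p.1 ∧ p.1 < τ + ρ ∧ s < p.2.1 ∧ p.2.2.1 < t ∧ τ - ρ < p.2.2.2 ∧
      p.2.2.2 < τ + ρ}) ?_ ?_ ?_ ?_
  · have e : {p : E | τ - ρ < p.1 ∧ p.1 < τ + ρ ∧ s < p.2.1 ∧ p.2.2.1 < t ∧ τ - ρ < p.2.2.2 ∧
        p.2.2.2 < τ + ρ} = 
        {p : E | τ - ρ < p.1} ∩ ({p : E | p.1 < τ + ρ} ∩ ({p : E | s < p.2.1} ∩ 
        ({p : E | p.2.2.1 < t} ∩ ({p : E | τ - ρ < p.2.2.2} ∩ {p : E | p.2.2.2 < τ + ρ})))) := by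
      ext p; rfl
    rw [e]
    exact (isOpen_lt (by fun_prop) (by fun_prop)).inter ((isOpen_lt (by fun_prop) 
      (by fun_prop)).inter ((isOpen_lt (by fun_prop) (by fun_prop)).inter 
      ((isOpen_lt (by fun_prop) (by fun_prop)).inter
      ((isOpen_lt (by fun_prop) (by fun_prop)).inter (isOpen_lt (by fun_prop) (by fun_prop))))))
  · exact ⟨by simp only; linarith, by simp only; linarith, by simp only; linarith, 
      by simp only; linarith, by simp only; linarith, by simp only; linarith⟩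
  · rintro p ⟨h1, h2, h3, h3', h4, h5⟩
    rw [abs_le, abs_le]
    refine ⟨⟨by linarith, by linarith⟩, ⟨by linarith, by linarith⟩⟩
  · intro p hp hT
    have hsub : closure {p : E | τ - ρ < p.1 ∧ p.1 < τ + ρ ∧ s < p.2.1 ∧ p.2.2.1 < t ∧
        τ - ρ < p.2.2.2 ∧ p.2.2.2 < τ + ρ} ⊆ {p : E | τ - ρ ≤ p.1} ∩ ({p : E | s ≤ p.2.1} ∩ 
        ({p : E | p.2.2.1 ≤ t} ∩ {p : E | p.2.2.2 ≤ τ + ρ})) := by
      apply closure_minimal
      · rintro p ⟨h1, h2, h3, h3', h4, h5⟩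
        exact ⟨h1.le, h3.le, h3'.le, h5.le⟩
      · exact (isClosed_le (by fun_prop) (by fun_prop)).inter ((isClosed_le (by fun_prop) 
          (by fun_prop)).inter ((isClosed_le (by fun_prop) (by fun_prop)).inter
          (isClosed_le (by fun_prop) (by fun_prop))))
    obtain ⟨h1, h2, h2', h3⟩ := hsub hp
    simp only [mem_ofPred_eq] at h1 h2 h2' h3
    obtain ⟨q1, q2⟩ := hspan p hT h1 h3
    have l1 := hT.lt01
    have l3 := hT.lt23
    have hs := spec_of_tr hγ (by linarith) hT e (γ τ)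
    -- the second parameter is not `s`
    have n1 : p.2.1 ≠ s := by
      intro heq
      rw [heq] at hs l1
      exact k4 p.1 p.2.2.1 p.2.2.2 h1 l1 q2 h2' l3 h3 hs
    -- the third parameter is not `t`
    have n1' : p.2.2.1 ≠ t := by
      intro heq
      rw [heq] at hs l3
      exact k5 p.1 p.2.1 p.2.2.2 h1 l1 h2 q1 l3 h3 hs
    have n2 : s < p.2.1 := lt_of_le_of_ne h2 (Ne.symm n1)
    have n2' : p.2.2.1 < t := lt_of_le_of_ne h2' n1'
    have n3 : ¬ (p.1 = τ - ρ ∨ p.2.2.2 = τ + ρ) := by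
      intro hor
      have := hmac p hT h1 h3 hor
      linarith
    push Not at n3
    exact ⟨lt_of_le_of_ne h1 (Ne.symm n3.1), by linarith, n2, n2', by linarith, 
      lt_of_le_of_ne h3 n3.2⟩

end Pool.Agent.Y450.Horn
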