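import Pool.Agent.Y450.Horn.Up

/-! Near the tip of a horn between two graphs there are chords whose square is inside the horn. -/

set_option autoImplicit false
open Set

namespace Pool.Agent.Y450.Horn

open Pool.Agent.Y450.Stab

/-- height of the upper right vertex of the square on the chord over the upper graph -/
def f1 (u l : ℝ → ℝ) (a b : ℝ) : ℝ := u a + b - a - u (a + u a - l b)

/-- height of the lower right vertex of the square on the chord over the lower graph -/
def f2 (u l : ℝ → ℝ) (a b : ℝ) : ℝ := l b + b - a - l (b + u a - l b)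

variable {T B : ℝ → ℝ} {L : ℝ}

theorem f1_mono (hT : Lip L T) (hB : Lip L B) (L0 : 0 ≤ L) {a b b' : ℝ} (h : b ≤ b') :
    (1 - L ^ 2) * (b' - b) ≤ f1 T B a b' - f1 T B a b := by
  unfold f1
  have k1 := hB b' b
  have k2 := hT (a + T a - B b') (a + T a - B b)
  rw [show a + T a - B b' - (a + T a - B b) = -(B b' - B b) by ring, abs_neg] at k2
  rw [abs_of_nonneg (by linarith : (0:ℝ) ≤ b' - b)] at k1
  have k3 := mul_le_mul_of_nonneg_left k1 L0
  have k4 := (abs_le.1 (k2.trans k3)).2
  nlinarith

theorem f2_anti (hT : Lip L T) (hB : Lip L B) (L0 : 0 ≤ L) {a a' b : ℝ} (h : a ≤ a') :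
    f2 T B a' b - f2 T B a b ≤ -((1 - L ^ 2) * (a' - a)) := by
  unfold f2
  have k1 := hT a' a
  have k2 := hB (b + T a' - B b) (b + T a - B b)
  rw [show b + T a' - B b - (b + T a - B b) = T a' - T a by ring] at k2
  rw [abs_of_nonneg (by linarith : (0:ℝ) ≤ a' - a)] at k1
  have k3 := mul_le_mul_of_nonneg_left k1 L0
  have k4 := (abs_le.1 (k2.trans k3)).1
  nlinarith

theorem f2_lip (hB : Lip L B) (L1 : L < 1) {a b b' : ℝ} (h : b' ≤ b) :
    f2 T B a b - 4 * (b - b') ≤ f2 T B a b' := by
  unfold f2
  have k1 := hB b b'
  rw [abs_of_nonneg (by linarith : (0:ℝ) ≤ b - b')] at k1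
  have k1' : |B b - B b'| ≤ b - b' := by
    have := mul_le_mul_of_nonneg_right L1.le (by linarith : 0 ≤ b - b')
    linarith
  have k2 := hB (b + T a - B b) (b' + T a - B b')
  have k3 : |b + T a - B b - (b' + T a - B b')| ≤ 2 * (b - b') := by
    rw [show b + T a - B b - (b' + T a - B b') = (b - b') - (B b - B b') by ring]
    have := abs_le.1 k1'
    rw [abs_le]; constructor <;> linarith [this.1, this.2]
  have k4 : |B (b + T a - B b) - B (b' + T a - B b')| ≤ 2 * (b - b') := by
    refine k2.trans ?_
    have := mul_le_mul_of_nonneg_right L1.le (abs_nonneg (b + T a - B b - (b' + T a - B b')))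
    linarith
  have := abs_le.1 k1'
  have := abs_le.1 k4
  linarith [(abs_le.1 k1').1, (abs_le.1 k1').2, (abs_le.1 k4).1, (abs_le.1 k4).2]

theorem clamp_sum {x0 : ℝ} (h0 : 0 ≤ x0) (x y : ℝ) :
    |max 0 (min x x0) - max 0 (min y x0)| + |max 0 (x - x0) - max 0 (y - x0)| ≤ |x - y| := by
  have key : ∀ x y : ℝ, x ≤ y → |max 0 (min x x0) - max 0 (min y x0)| +
      |max 0 (x - x0) - max 0 (y - x0)| ≤ |x - y| := by
    intro x y h
    have m1 : max 0 (min x x0) ≤ max 0 (min y x0) := max_le_max le_rfl (min_le_min h le_rfl)
    have m2 : max 0 (x - x0) ≤ max 0 (y - x0) := max_le_max le_rfl (by linarith)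
    have e : ∀ z : ℝ, max 0 (min z x0) + max 0 (z - x0) = max 0 z := by
      intro z
      rcases le_total z x0 with hz | hz
      · rw [min_eq_left hz, max_eq_left (a := (0:ℝ)) (b := z - x0) (by linarith), add_zero]
      · rw [min_eq_right hz, max_eq_right h0, max_eq_right (by linarith : (0:ℝ) ≤ z - x0),
          max_eq_right (h0.trans hz)]
        ring
    have m3 : max 0 y ≤ max 0 x + (y - x) := by
      refine max_le ?_ ?_
      · have := le_max_left 0 x
        linarith
      · have := le_max_right 0 x
        linarith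
    rw [abs_of_nonpos (by linarith), abs_of_nonpos (by linarith), abs_of_nonpos (by linarith)]
    linarith [e x, e y]
  rcases le_total x y with h | h
  · exact key x y h
  · have := key y x h
    rw [abs_sub_comm, abs_sub_comm (max 0 (x - x0)), abs_sub_comm x y]
    exact this

/-- **The tip lemma**, for all Lipschitz constants less than `1`. -/
theorem tip (hT : Lip L T) (hB : Lip L B) (L0 : 0 ≤ L) (L1 : L < 1) (T0 : T 0 = 0) (B0 : B 0 = 0)
    {η : ℝ} (hη : 0 < η) (hX : ∀ x, 0 < x → x < η → B x < T x) :
    ∃ a b, 0 < a ∧ a < η ∧ 0 < b ∧ b < η ∧ f1 T B a b < 0 ∧ 0 < f2 T B a b := by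
  by_contra hcon
  have hq : 0 < 1 - L ^ 2 := by nlinarith
  have hc : ∀ a b, 0 < a → a < η → 0 < b → b < η → f1 T B a b ≤ 0 → f2 T B a b ≤ 0 := by
    intro a b a0 a1 b0 b1 h1
    by_contra h2
    push Not at h2
    obtain ⟨δ, hδ, hδ1, hδ2⟩ : ∃ δ > 0, δ < b ∧ 4 * δ < f2 T B a b :=
      ⟨min (b / 2) (f2 T B a b / 8), lt_min (by linarith) (by linarith),
        (min_le_left _ _).trans_lt (by linarith), by
          have := min_le_right (b / 2) (f2 T B a b / 8)
          linarith⟩
    refine hcon ⟨a, b - δ, a0, a1, by linarith, by linarith, ?_, ?_⟩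
    · have := f1_mono hT hB L0 (a := a) (b := b - δ) (b' := b) (by linarith)
      have h3 : 0 < (1 - L ^ 2) * (b - (b - δ)) := mul_pos hq (by linarith)
      linarith
    · have := f2_lip (T := T) hB L1 (a := a) (b := b) (b' := b - δ) (by linarith)
      linarith
  obtain ⟨L', hL'⟩ : ∃ L', L' = (1 + L) / 2 := ⟨_, rfl⟩
  have LL' : L ≤ L' := by linarith
  have L0' : 0 < L' := by linarith
  have L1' : L' < 1 := by linarith
  obtain ⟨x0, hx0⟩ : ∃ x0, x0 = η / 2 := ⟨_, rfl⟩
  have x0p : 0 < x0 := by linarith
  have x0η : x0 < η := by linarith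
  set Tt : ℝ → ℝ := fun x => T (max 0 (min x x0)) - L' * max 0 (x - x0) with hTt
  set Bt : ℝ → ℝ := fun x => B (max 0 (min x x0)) + L' * max 0 (x - x0) with hBt
  have lip1 : ∀ {f : ℝ → ℝ}, Lip L f → ∀ s : ℝ, |s| = L' →
      Lip L' (fun x => f (max 0 (min x x0)) + s * max 0 (x - x0)) := by
    intro f hf s hs x y
    have h1 := hf (max 0 (min x x0)) (max 0 (min y x0))
    have h2 := clamp_sum x0p.le x y
    have h3 := mul_le_mul_of_nonneg_right LL' (abs_nonneg (max 0 (min x x0) - max 0 (min y x0)))
    have h4 := mul_le_mul_of_nonneg_left h2 L0'.le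
    show |f (max 0 (min x x0)) + s * max 0 (x - x0) -
      (f (max 0 (min y x0)) + s * max 0 (y - x0))| ≤ _
    rw [show f (max 0 (min x x0)) + s * max 0 (x - x0) -
      (f (max 0 (min y x0)) + s * max 0 (y - x0)) = (f (max 0 (min x x0)) - f (max 0 (min y x0))) +
        s * (max 0 (x - x0) - max 0 (y - x0)) by ring]
    refine (abs_add_le _ _).trans ?_
    rw [abs_mul, hs]
    linarith
  have lT : Lip L' Tt := by
    have := lip1 hT (-L') (by rw [abs_neg, abs_of_pos L0'])
    intro x y
    have h := this x y
    simp only [neg_mul] at h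
    simp only [hTt]
    exact h
  have lB : Lip L' Bt := lip1 hB L' (abs_of_pos L0')
  have hT' : Lip L' T := hT.mono LL'
  have hB' : Lip L' B := hB.mono LL'
  have tin : ∀ x, 0 ≤ x → x ≤ x0 → Tt x = T x := by
    intro x h h'
    simp only [hTt]
    rw [min_eq_left h', max_eq_right h, max_eq_left (by linarith : x - x0 ≤ 0)]
    ring
  have bin : ∀ x, 0 ≤ x → x ≤ x0 → Bt x = B x := by
    intro x h h'
    simp only [hBt]
    rw [min_eq_left h', max_eq_right h, max_eq_left (by linarith : x - x0 ≤ 0)]
    ring
  have tout : ∀ x, x0 ≤ x → Tt x = T x0 - L' * (x - x0) := by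
    intro x h
    simp only [hTt]
    rw [min_eq_right h, max_eq_right x0p.le, max_eq_right (by linarith : 0 ≤ x - x0)]
  have bout : ∀ x, x0 ≤ x → Bt x = B x0 + L' * (x - x0) := by
    intro x h
    simp only [hBt]
    rw [min_eq_right h, max_eq_right x0p.le, max_eq_right (by linarith : 0 ≤ x - x0)]
  have bneg : ∀ x, x ≤ 0 → Bt x = 0 := by
    intro x h
    simp only [hBt]
    rw [max_eq_left ((min_le_left _ _).trans h), max_eq_left (by linarith : x - x0 ≤ 0), B0]
    ring
  have tle : ∀ x, 0 ≤ x → Tt x ≤ T x := by
    intro x h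
    rcases le_total x x0 with h' | h'
    · exact (tin x h h').le
    · rw [tout x h']
      have := (abs_le.1 (hT' x x0)).1
      rw [abs_of_nonneg (by linarith : 0 ≤ x - x0)] at this
      linarith
  have bge : ∀ x, 0 ≤ x → B x ≤ Bt x := by
    intro x h
    rcases le_total x x0 with h' | h'
    · exact (bin x h h').ge
    · rw [bout x h']
      have := (abs_le.1 (hB' x x0)).2
      rw [abs_of_nonneg (by linarith : 0 ≤ x - x0)] at this
      linarith
  obtain ⟨g, hg⟩ : ∃ g, g = T x0 - B x0 := ⟨_, rfl⟩
  have gp : 0 < g := by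
    have := hX x0 x0p x0η
    linarith
  obtain ⟨xe, hxe⟩ : ∃ xe, xe = x0 + g / (2 * L') := ⟨_, rfl⟩
  have exe : 2 * L' * (xe - x0) = g := by rw [hxe]; field_simp; ring
  have xep : x0 < xe := by
    rw [hxe]
    have : 0 < g / (2 * L') := by positivity
    linarith
  -- right of `xe` the lower function is the larger one
  have hright : ∀ x, xe ≤ x → Tt x ≤ Bt x := by
    intro x h
    rw [tout x (by linarith), bout x (by linarith)]
    have := mul_le_mul_of_nonneg_left h L0'.le
    linarith
  have hmid : ∀ x, 0 ≤ x → x ≤ xe → Bt x ≤ Tt x := by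
    intro x h h'
    rcases le_total x x0 with h'' | h''
    · rw [tin x h h'', bin x h h'']
      rcases h.eq_or_lt with h3 | h3
      · rw [← h3, T0, B0]
      · exact (hX x h3 (by linarith)).le
    · rw [tout x h'', bout x h'']
      have := mul_le_mul_of_nonneg_left h' L0'.le
      linarith
  refine area_up (T := fun x => max (Tt x) (Bt x)) (B := Bt) (a := 0) (b := xe) (x0 := x0)
    (L := L') (fun x y => (abs_max_sub_max_le_max _ _ _ _).trans (max_le (lT x y) (lB x y))) lB
    L0'.le L1' (by linarith) ?_ ?_ (fun x => le_max_right _ _) ⟨x0p.le, xep.le⟩ ?_ ?_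
  · show max (Tt 0) (Bt 0) = Bt 0
    rw [tin 0 le_rfl x0p.le, bin 0 le_rfl x0p.le, T0, B0, max_self]
  · exact max_eq_right (hright xe le_rfl)
  · show Bt x0 < max (Tt x0) (Bt x0)
    rw [bin x0 x0p.le le_rfl]
    refine lt_max_of_lt_left ?_
    rw [tin x0 x0p.le le_rfl]
    exact hX x0 x0p x0η
  · intro x hx d l S
    have hd := S.d_le (L := L')
      (fun x y => (abs_max_sub_max_le_max _ _ _ _).trans (max_le (lT x y) (lB x y)))
    have l0 := S.l0
    have h3 : max (Tt (x + l)) (Bt (x + l)) = max (Tt x) (Bt x) + d := S.h3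
    have h2 : Bt (x + d) = max (Tt x) (Bt x) - l := S.h2
    show max (Tt x) (Bt x) + d - l ≤ Bt (x + d + l)
    have hTx : max (Tt x) (Bt x) = Tt x := max_eq_left (hmid x hx.1 hx.2)
    rw [hTx] at h3 h2 ⊢
    have hd' := abs_le.1 hd
    have hLl : L' * l ≤ l := by
      have := mul_le_mul_of_nonneg_right L1'.le l0
      linarith
    have hll := lB (x + d + l) (x + d)
    rw [show x + d + l - (x + d) = l by ring, abs_of_nonneg l0] at hll
    have hll := abs_le.1 hll
    rcases le_total (Tt (x + l)) (Bt (x + l)) with hc1 | hc1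
    · rw [max_eq_right hc1] at h3
      have k := (abs_le.1 (lB (x + d + l) (x + l))).1
      rw [show x + d + l - (x + l) = d by ring] at k
      have k2 := mul_le_mul_of_nonneg_left hd L0'.le
      have k3 := mul_le_mul_of_nonneg_left hLl L0'.le
      linarith
    · rw [max_eq_left hc1] at h3
      rcases le_total xe (x + l) with hc2 | hc2
      · have e := le_antisymm (hright _ hc2) hc1
        rw [e] at h3
        have k := (abs_le.1 (lB (x + d + l) (x + l))).1
        rw [show x + d + l - (x + l) = d by ring] at k
        have k2 := mul_le_mul_of_nonneg_left hd L0'.le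
        have k3 := mul_le_mul_of_nonneg_left hLl L0'.le
        linarith
      · rcases le_total x0 x with hc3 | hc3
        · rw [tout x hc3, tout (x + l) (by linarith)] at h3
          have ed : d = -(L' * l) := by linarith
          linarith
        · rcases hx.1.eq_or_lt with hc4 | hc4
          · have e : Tt x = Bt x := by
              rw [← hc4, tin 0 le_rfl x0p.le, bin 0 le_rfl x0p.le, T0, B0]
            have hh := (abs_le.1 (lB (x + d) x)).1
            rw [show x + d - x = d by ring] at hh
            have k2 := mul_le_mul_of_nonneg_left hd L0'.le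
            have k3 := mul_le_mul_of_nonneg_right L1'.le (mul_nonneg L0'.le l0)
            have k4 : l ≤ L' * (L' * l) := by linarith
            have k5 : L' * (L' * l) ≤ L' * l := by nlinarith
            have k6 : 0 ≤ (1 - L') * l := mul_nonneg (by linarith) l0
            have k7 : (1 - L') * l ≤ 0 := by linarith
            have k8 : l = 0 := by
              by_contra hne
              have : 0 < l := lt_of_le_of_ne l0 (Ne.symm hne)
              have : 0 < (1 - L') * l := mul_pos (by linarith) this
              linarith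
            rw [k8] at hd h2 ⊢
            rw [mul_zero] at hd
            have k9 : d = 0 := abs_eq_zero.1 (le_antisymm hd (abs_nonneg _))
            rw [k9] at h2 ⊢
            simp only [add_zero, sub_zero]
            linarith
          · rw [tin x hc4.le hc3] at h3 h2 ⊢
            have hTxL : T x ≤ L * x := by
              have := (abs_le.1 (hT x 0)).2
              rw [T0, sub_zero, sub_zero, abs_of_pos hc4] at this
              exact this
            have hpos : 0 < x + d := by
              by_contra hneg
              push Not at hneg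
              rw [bneg _ hneg] at h2
              have e1 : l ≤ L * x := by linarith
              have e2 : L' * l ≤ L' * (L * x) := mul_le_mul_of_nonneg_left e1 L0'.le
              have e3 : L' * (L * x) ≤ 1 * (L * x) :=
                mul_le_mul_of_nonneg_right L1'.le (mul_nonneg L0 hc4.le)
              have e4 : L * x < 1 * x := mul_lt_mul_of_pos_right L1 hc4
              linarith
            rcases le_total x0 (x + d) with hc5 | hc5
            · rw [bout _ hc5] at h2
              rw [bout (x + d + l) (by linarith)]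
              linarith
            · rw [bin _ hpos.le hc5] at h2
              have k1 : f1 T B x (x + d) ≤ 0 := by
                unfold f1
                rw [show x + T x - B (x + d) = x + l by linarith]
                have := tle (x + l) (by linarith)
                linarith
              have k2 := hc x (x + d) hc4 (by linarith) hpos (by linarith) k1
              unfold f2 at k2
              rw [show x + d + T x - B (x + d) = x + d + l by linarith] at k2
              have k3 := bge (x + d + l) (by linarith)
              linarith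

end Pool.Agent.Y450.Horn
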