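import Pool.Agent.Y450.Horn.Tip
import Pool.Agent.Y450.Lens.Area

/-! A horn which is wide compared with the size of its tip has a gate. -/

set_option autoImplicit false
open Set

namespace Pool.Agent.Y450.Horn

open Pool.Agent.Y450.Stab

variable {T B : ℝ → ℝ} {L : ℝ}

/-- **The quantitative tip lemma**, for all Lipschitz constants less than `1`. -/
theorem tip_wild (hT : Lip L T) (hB : Lip L B) (L0 : 0 ≤ L) (L1 : L < 1) {H x0 : ℝ} (hH : 0 ≤ H)
    (x0p : 0 < x0) (h0 : T 0 - B 0 ≤ H) (hX : ∀ x, 0 ≤ x → x ≤ x0 → B x ≤ T x)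
    (hM : 0 < T x0 - B x0) (hMH : 2000 * H ≤ (1 - L) ^ 4 * (T x0 - B x0)) :
    ∃ a b, H < (1 - L) * a ∧ a ≤ x0 ∧ H < (1 - L) * b ∧ b ≤ x0 ∧ f1 T B a b < 0 ∧
      0 < f2 T B a b := by
  by_contra hcon
  have hq : 0 < 1 - L ^ 2 := by nlinarith
  have q0 : 0 < 1 - L := by linarith
  have hc : ∀ a b, H < (1 - L) * a → a ≤ x0 → H < (1 - L) * b → b ≤ x0 → f1 T B a b ≤ 0 →
      f2 T B a b ≤ 0 := by
    intro a b a0 a1 b0 b1 h1
    by_contra h2
    push Not at h2
    obtain ⟨δ, hδ, hδ1, hδ2⟩ : ∃ δ > 0, H < (1 - L) * (b - δ) ∧ 4 * δ < f2 T B a b := by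
      refine ⟨min (((1 - L) * b - H) / 2) (f2 T B a b / 8), lt_min (by linarith) (by linarith),
        ?_, ?_⟩
      · have h3 := min_le_left (((1 - L) * b - H) / 2) (f2 T B a b / 8)
        have h4 : 0 < min (((1 - L) * b - H) / 2) (f2 T B a b / 8) :=
          lt_min (by linarith) (by linarith)
        set δ := min (((1 - L) * b - H) / 2) (f2 T B a b / 8) with hδd
        have h5 := mul_nonneg L0 h4.le
        linarith
      · have := min_le_right (((1 - L) * b - H) / 2) (f2 T B a b / 8)
        linarith
    refine hcon ⟨a, b - δ, a0, a1, hδ1, by linarith, ?_, ?_⟩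
    · have := f1_mono hT hB L0 (a := a) (b := b - δ) (b' := b) (by linarith)
      have h3 : 0 < (1 - L ^ 2) * (b - (b - δ)) := mul_pos hq (by linarith)
      linarith
    · have := f2_lip (T := T) hB L1 (a := a) (b := b) (b' := b - δ) (by linarith)
      linarith
  obtain ⟨M, hMd⟩ : ∃ M, M = T x0 - B x0 := ⟨_, rfl⟩
  rw [← hMd] at hM hMH
  obtain ⟨L', hL'⟩ : ∃ L', L' = (1 + L) / 2 := ⟨_, rfl⟩
  have LL' : L ≤ L' := by linarith
  have L0' : 0 < L' := by linarith
  have L1' : L' < 1 := by linarith
  -- the place where we start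
  obtain ⟨x1, hx1⟩ : ∃ x1, x1 = (1 - L) ^ 2 * M / 600 := ⟨_, rfl⟩
  have x1p : 0 < x1 := by rw [hx1]; positivity
  have q1 : 1 - L ≤ 1 := by linarith
  have q2 : (1 - L) ^ 2 ≤ 1 := by nlinarith
  have q4 : (1 - L) ^ 4 ≤ 1 := by
    have : (1 - L) ^ 4 = (1 - L) ^ 2 * (1 - L) ^ 2 := by ring
    nlinarith [sq_nonneg (1 - L)]
  have q42 : (1 - L) ^ 4 ≤ (1 - L) ^ 2 := by
    have : (1 - L) ^ 4 = (1 - L) ^ 2 * (1 - L) ^ 2 := by ring
    nlinarith [sq_nonneg (1 - L)]
  have e1 : 600 * x1 = (1 - L) ^ 2 * M := by rw [hx1]; ring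
  have e2 : 600 * ((1 - L) ^ 2 * x1) = (1 - L) ^ 4 * M := by rw [hx1]; ring
  have e3 : (10:ℝ) / 3 * H ≤ (1 - L) ^ 2 * x1 := by linarith
  have e4 : 0 < (1 - L) ^ 2 * x1 := by positivity
  have e5 : (1 - L) ^ 2 * x1 ≤ (1 - L) * x1 := by
    have : (1 - L) ^ 2 * x1 = (1 - L) * ((1 - L) * x1) := by ring
    rw [this]
    have h3 : 0 ≤ (1 - L) * x1 := by positivity
    have := mul_le_mul_of_nonneg_right q1 h3
    linarith
  have e6 : 3 * H < (1 - L) ^ 2 * x1 := by
    rcases hH.eq_or_lt with h | h
    · rw [← h]; linarith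
    · linarith
  have e7 : 2000 * H ≤ (1 - L) ^ 2 * M := hMH.trans (mul_le_mul_of_nonneg_right q42 hM.le)
  have e8 : 2000 * H ≤ M := by
    have := mul_le_mul_of_nonneg_right q4 hM.le
    linarith
  -- growth of the gap
  have hgap : ∀ x, 0 ≤ x → T x - B x ≤ H + 2 * x := by
    intro x hx
    have h1 := (abs_le.1 (hT x 0)).2
    have h2 := (abs_le.1 (hB x 0)).1
    rw [sub_zero, abs_of_nonneg hx] at h1 h2
    have h3 := mul_le_mul_of_nonneg_right L1.le hx
    linarith
  have x10 : x1 ≤ x0 := by
    have := hgap x0 x0p.le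
    have h3 := mul_le_mul_of_nonneg_right q2 hM.le
    linarith
  set Tt : ℝ → ℝ := fun x => T (max 0 (min x x0)) - L' * max 0 (x - x0) with hTt
  set Bt : ℝ → ℝ := fun x => B (max 0 (min x x0)) + L' * max 0 (x - x0) with hBt
  have lip1 : ∀ {f : ℝ → ℝ}, Lip L f → ∀ s : ℝ, |s| = L' →
      Lip L' (fun x => f (max 0 (min x x0)) + s * max 0 (x - x0)) := by
    intro f hf s hs x y
    have h1 := hf (max 0 (min x x0)) (max 0 (min y x0))
    have h2 := clamp_sum x0p.le x y
    have h3 := mul_le_mul_of_nonneg_right LL' (abs_nonneg (max 0 (min x x0) - max 0 (min y x0)))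
    have h4 := mul_le_mul_of_nonneg_left h2 L0'.le
    show |f (max 0 (min x x0)) + s * max 0 (x - x0) -
      (f (max 0 (min y x0)) + s * max 0 (y - x0))| ≤ _
    rw [show f (max 0 (min x x0)) + s * max 0 (x - x0) -
      (f (max 0 (min y x0)) + s * max 0 (y - x0)) = (f (max 0 (min x x0)) - f (max 0 (min y x0))) +
        s * (max 0 (x - x0) - max 0 (y - x0)) by ring]
    refine (abs_add_le _ _).trans ?_
    rw [abs_mul, hs]
    linarith
  have lT : Lip L' Tt := by
    have := lip1 hT (-L') (by rw [abs_neg, abs_of_pos L0'])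
    intro x y
    have h := this x y
    simp only [neg_mul] at h
    simp only [hTt]
    exact h
  have lB : Lip L' Bt := lip1 hB L' (abs_of_pos L0')
  have hT' : Lip L' T := hT.mono LL'
  have hB' : Lip L' B := hB.mono LL'
  have tin : ∀ x, 0 ≤ x → x ≤ x0 → Tt x = T x := by
    intro x h h'
    simp only [hTt]
    rw [min_eq_left h', max_eq_right h, max_eq_left (by linarith : x - x0 ≤ 0)]
    ring
  have bin : ∀ x, 0 ≤ x → x ≤ x0 → Bt x = B x := by
    intro x h h'
    simp only [hBt]
    rw [min_eq_left h', max_eq_right h, max_eq_left (by linarith : x - x0 ≤ 0)]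
    ring
  have tout : ∀ x, x0 ≤ x → Tt x = T x0 - L' * (x - x0) := by
    intro x h
    simp only [hTt]
    rw [min_eq_right h, max_eq_right x0p.le, max_eq_right (by linarith : 0 ≤ x - x0)]
  have bout : ∀ x, x0 ≤ x → Bt x = B x0 + L' * (x - x0) := by
    intro x h
    simp only [hBt]
    rw [min_eq_right h, max_eq_right x0p.le, max_eq_right (by linarith : 0 ≤ x - x0)]
  have bneg : ∀ x, x ≤ 0 → Bt x = B 0 := by
    intro x h
    simp only [hBt]
    rw [max_eq_left ((min_le_left _ _).trans h), max_eq_left (by linarith : x - x0 ≤ 0)]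
    ring
  have tle : ∀ x, 0 ≤ x → Tt x ≤ T x := by
    intro x h
    rcases le_total x x0 with h' | h'
    · exact (tin x h h').le
    · rw [tout x h']
      have := (abs_le.1 (hT' x x0)).1
      rw [abs_of_nonneg (by linarith : 0 ≤ x - x0)] at this
      linarith
  have bge : ∀ x, 0 ≤ x → B x ≤ Bt x := by
    intro x h
    rcases le_total x x0 with h' | h'
    · exact (bin x h h').ge
    · rw [bout x h']
      have := (abs_le.1 (hB' x x0)).2
      rw [abs_of_nonneg (by linarith : 0 ≤ x - x0)] at this
      linarith
  obtain ⟨xe, hxe⟩ : ∃ xe, xe = x0 + M / (2 * L') := ⟨_, rfl⟩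
  have exe : 2 * L' * (xe - x0) = M := by rw [hxe]; field_simp; ring
  have xep : x0 < xe := by
    rw [hxe]
    have : 0 < M / (2 * L') := by positivity
    linarith
  -- right of `xe` the lower function is the larger one
  have hright : ∀ x, xe ≤ x → Tt x ≤ Bt x := by
    intro x h
    rw [tout x (by linarith), bout x (by linarith)]
    have := mul_le_mul_of_nonneg_left h L0'.le
    linarith
  have hmid : ∀ x, 0 ≤ x → x ≤ xe → Bt x ≤ Tt x := by
    intro x h h'
    rcases le_total x x0 with h'' | h''
    · rw [tin x h h'', bin x h h'']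
      exact hX x h h''
    · rw [tout x h'', bout x h'']
      have := mul_le_mul_of_nonneg_left h' L0'.le
      linarith
  have lU : Lip L' (fun x => max (Tt x) (Bt x)) :=
    fun x y => (abs_max_sub_max_le_max _ _ _ _).trans (max_le (lT x y) (lB x y))
  choose dd ll hS using fun x => ESq.ex lU lB L0'.le L1' (le_max_right (Tt x) (Bt x))
  have q0' : 0 < 1 - L' := by linarith
  have eL' : 1 - L' = (1 - L) / 2 := by rw [hL']; ring
  have q2' : 1 - L' ≤ 1 - L' ^ 2 := by nlinarith
  -- the two ends
  have hl1 : 60 * ll x1 ≤ (1 - L') * M := by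
    have h1 := (hS x1).l_le lU lB L0'.le
    have h2 : max (Tt x1) (Bt x1) = T x1 := by
      rw [max_eq_left (hmid x1 x1p.le (by linarith)), tin x1 x1p.le x10]
    rw [h2, bin x1 x1p.le x10] at h1
    have h3 := hgap x1 x1p.le
    have h4 := mul_le_mul_of_nonneg_right q2' (hS x1).l0
    have h5 : (1 - L') * ll x1 ≤ H + 2 * x1 := by linarith
    have h6 : 240 * (H + 2 * x1) ≤ (1 - L) ^ 2 * M := by linarith
    have h7 : (1 - L') * (60 * ll x1) ≤ (1 - L') * ((1 - L') * M) := by
      have : (1 - L') * ((1 - L') * M) = (1 - L) ^ 2 * M / 4 := by rw [eL']; ring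
      rw [this]
      linarith
    exact le_of_mul_le_mul_left h7 q0'
  have hl2 : 60 * ll xe ≤ (1 - L') * M := by
    have h1 := (hS xe).degen lU lB L0'.le L1' (max_eq_right (hright xe le_rfl))
    rw [h1.2, mul_zero]
    positivity
  obtain ⟨W, hW⟩ : ∃ W, W = (xe - x1) + M := ⟨_, rfl⟩
  have W0 : 0 < W := by linarith
  refine Lens.area_sign (σ := -1) (T := fun x => max (Tt x) (Bt x)) (B := Bt) (L := L')
    (x1 := x1) (x2 := xe) (x0 := x0) (M := M) (η := (1 - L') * M ^ 2 / (300 * W)) (W := W)
    (dd := dd) (ll := ll) (Or.inr rfl) lU lB L0'.le L1' hS x10 xep.le (by linarith) hM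
    (by linarith) ?_ hl1 hl2 (by positivity) ?_ ?_
  · show M ≤ max (Tt x0) (Bt x0) - Bt x0
    have := le_max_left (Tt x0) (Bt x0)
    rw [tin x0 x0p.le le_rfl, bin x0 x0p.le le_rfl] at *
    linarith
  · have : 300 * ((1 - L') * M ^ 2 / (300 * W)) * W = (1 - L') * M ^ 2 := by
      field_simp
    rw [this]
  · intro x hx
    have hη : 0 < (1 - L') * M ^ 2 / (300 * W) := by positivity
    have S := hS x
    set d := dd x with hdd
    set l := ll x with hll
    have hxp : 0 < x := x1p.trans_le hx.1
    have hd := S.d_le lU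
    have l0 := S.l0
    have h3 : max (Tt (x + l)) (Bt (x + l)) = max (Tt x) (Bt x) + d := S.h3
    have h2 : Bt (x + d) = max (Tt x) (Bt x) - l := S.h2
    suffices hh : max (Tt x) (Bt x) + d - l ≤ Bt (x + d + l) by
      show -((1 - L') * M ^ 2 / (300 * W)) ≤ -1 * (max (Tt x) (Bt x) + d - l - Bt (x + d + l))
      linarith
    have hTx : max (Tt x) (Bt x) = Tt x := max_eq_left (hmid x hxp.le hx.2)
    rw [hTx] at h3 h2 ⊢
    have hd' := abs_le.1 hd
    have hLl : L' * l ≤ l := by
      have := mul_le_mul_of_nonneg_right L1'.le l0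
      linarith
    have hll' := lB (x + d + l) (x + d)
    rw [show x + d + l - (x + d) = l by ring, abs_of_nonneg l0] at hll'
    have hll' := abs_le.1 hll'
    rcases le_total (Tt (x + l)) (Bt (x + l)) with hc1 | hc1
    · rw [max_eq_right hc1] at h3
      have k := (abs_le.1 (lB (x + d + l) (x + l))).1
      rw [show x + d + l - (x + l) = d by ring] at k
      have k2 := mul_le_mul_of_nonneg_left hd L0'.le
      have k3 := mul_le_mul_of_nonneg_left hLl L0'.le
      linarith
    · rw [max_eq_left hc1] at h3
      rcases le_total xe (x + l) with hc2 | hc2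
      · have e := le_antisymm (hright _ hc2) hc1
        rw [e] at h3
        have k := (abs_le.1 (lB (x + d + l) (x + l))).1
        rw [show x + d + l - (x + l) = d by ring] at k
        have k2 := mul_le_mul_of_nonneg_left hd L0'.le
        have k3 := mul_le_mul_of_nonneg_left hLl L0'.le
        linarith
      · rcases le_total x0 x with hc3 | hc3
        · rw [tout x hc3, tout (x + l) (by linarith)] at h3
          have ed : d = -(L' * l) := by linarith
          linarith
        · rw [tin x hxp.le hc3] at h3 h2 ⊢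
          have hTxL : T x ≤ T 0 + L * x := by
            have := (abs_le.1 (hT x 0)).2
            rw [sub_zero, abs_of_pos hxp] at this
            linarith
          have hxx := mul_le_mul_of_nonneg_left hx.1 (sq_nonneg (1 - L))
          have hpos : H < (1 - L) * (x + d) := by
            by_contra hneg
            push Not at hneg
            obtain ⟨p, hp⟩ : ∃ p, p = max 0 (x + d) := ⟨_, rfl⟩
            have p0 : 0 ≤ p := by rw [hp]; exact le_max_left _ _
            have p1 : x + d ≤ p := by rw [hp]; exact le_max_right _ _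
            have p2 : (1 - L) * p ≤ H := by
              rcases le_total 0 (x + d) with h | h
              · rw [hp, max_eq_right h]; exact hneg
              · rw [hp, max_eq_left h, mul_zero]; exact hH
            have p3 : B 0 - L * p ≤ Bt (x + d) := by
              rcases le_total (x + d) 0 with h | h
              · rw [bneg _ h]
                have := mul_nonneg L0 p0
                linarith
              · have h5 := bge _ h
                have h6 := (abs_le.1 (hB (x + d) 0)).1
                rw [sub_zero, abs_of_nonneg h] at h6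
                have h7 : p = x + d := by rw [hp, max_eq_right h]
                rw [h7]
                linarith
            have p4 : l ≤ H + L * x + L * p := by linarith
            have p5 : x ≤ p + l := by linarith
            have p6 : L * p ≤ p := by
              have := mul_le_mul_of_nonneg_right L1.le p0
              linarith
            have p7 : (1 - L) * x ≤ 2 * p + H := by linarith
            have p8 := mul_le_mul_of_nonneg_left p7 q0.le
            have p9 : (1 - L) * H ≤ H := by
              have := mul_nonneg L0 hH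
              linarith
            have p10 : (1 - L) ^ 2 * x = (1 - L) * ((1 - L) * x) := by ring
            linarith
          have hpx : H < (1 - L) * x := by
            have := mul_le_mul_of_nonneg_left hx.1 q0.le
            linarith
          have hpos' : 0 < x + d := by
            by_contra hneg
            push Not at hneg
            have := mul_nonpos_of_nonneg_of_nonpos q0.le hneg
            linarith
          rcases le_total x0 (x + d) with hc5 | hc5
          · rw [bout _ hc5] at h2
            rw [bout (x + d + l) (by linarith)]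
            linarith
          · rw [bin _ hpos'.le hc5] at h2
            have k1 : f1 T B x (x + d) ≤ 0 := by
              unfold f1
              rw [show x + T x - B (x + d) = x + l by linarith]
              have := tle (x + l) (by linarith)
              linarith
            have k2 := hc x (x + d) hpx hc3 hpos hc5 k1
            unfold f2 at k2
            rw [show x + d + T x - B (x + d) = x + d + l by linarith] at k2
            have k3 := bge (x + d + l) (by linarith)
            linarith

end Pool.Agent.Y450.Horn
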