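import Pool.Agent.Y450.Horn.Tip
import Pool.Agent.TH587.Horn2

/-! Special trapezoids near the tip of a horn between two graphs of Lipschitz constant `< 1`. -/

set_option autoImplicit false
open Set

namespace Pool.Agent.Y450.Horn

open Pool.Agent.Y450.Stab
open Pool.Agent.TH587 (Spec)

variable {T B : ℝ → ℝ} {L : ℝ}

/-- Products of two steps in a cone. -/
theorem cone_prod (L0 : 0 ≤ L) (L1 : L < 1) {a b c d : ℝ} (ha : 0 < a) (hb : |b| ≤ L * a)
    (hc : 0 < c) (hd : |d| ≤ L * c) : 0 < a * c + b * d := by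
  have h1 : |b * d| ≤ (L * a) * (L * c) := by
    rw [abs_mul]
    exact mul_le_mul hb hd (abs_nonneg _) (by positivity)
  have h2 := neg_abs_le (b * d)
  have h3 : 0 < a * c := by positivity
  have h4 : L ^ 2 < 1 := by nlinarith
  have h5 := mul_lt_mul_of_pos_right h4 h3
  nlinarith

theorem no_right (L0 : 0 ≤ L) (L1 : L < 1) {x y : ℝ → ℝ} {t0 t1 t2 t3 : ℝ}
    (h : Spec x y t0 t1 t2 t3) (h12 : x t1 < x t2) (h23 : x t2 < x t3)
    (k12 : |y t2 - y t1| ≤ L * |x t2 - x t1|) (k23 : |y t3 - y t2| ≤ L * |x t3 - x t2|) :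
    False := by
  obtain ⟨α, σ, h1, h2, h3, h4, h5, h6, h7⟩ := h
  rw [abs_of_pos (sub_pos.mpr h12)] at k12
  rw [abs_of_pos (sub_pos.mpr h23)] at k23
  have := cone_prod L0 L1 (sub_pos.mpr h12) k12 (sub_pos.mpr h23) k23
  rw [h6, h7] at this
  have h8 : 0 ≤ α * ((x t2 - x t1) ^ 2 + (y t2 - y t1) ^ 2) := by positivity
  nlinarith

theorem no_left (L0 : 0 ≤ L) (L1 : L < 1) {x y : ℝ → ℝ} {t0 t1 t2 t3 : ℝ}
    (h : Spec x y t0 t1 t2 t3) (h01 : x t1 < x t0) (h12 : x t2 < x t1)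
    (k01 : |y t0 - y t1| ≤ L * |x t0 - x t1|) (k12 : |y t1 - y t2| ≤ L * |x t1 - x t2|) :
    False := by
  obtain ⟨α, σ, h1, h2, h3, h4, h5, h6, h7⟩ := h
  rw [abs_of_pos (sub_pos.mpr h12)] at k12
  rw [abs_of_pos (sub_pos.mpr h01)] at k01
  have := cone_prod L0 L1 (sub_pos.mpr h01) k01 (sub_pos.mpr h12) k12
  rw [h4, h5] at this
  have h8 : 0 ≤ α * ((x t2 - x t1) ^ 2 + (y t2 - y t1) ^ 2) := by positivity
  nlinarith

/-- the final inequality -/
theorem cone_ineq (L0 : 0 ≤ L) (L1 : L < 1) {α σ w h : ℝ} (hα : 0 ≤ α) (hσ : 0 < σ)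
    (h1 : α ^ 2 + σ ^ 2 = 1) (hh : 0 < h) (hw : |w| ≤ L * h)
    (hc : -((L * σ - α) * h) ≤ w * (σ + L * α)) :
    L * |(1 - σ) * h - α * w| ≤ α * h + (1 - σ) * w := by
  have hσ1 : σ ≤ 1 := by nlinarith
  obtain ⟨τ, hτ⟩ : ∃ τ, τ = α / (1 + σ) := ⟨_, rfl⟩
  have s1 : 0 < 1 + σ := by linarith
  have e1 : τ * (1 + σ) = α := by rw [hτ]; field_simp
  have τ0 : 0 ≤ τ := by rw [hτ]; positivity
  have e2 : 1 - σ = τ * α := by
    have : (1 - σ) * (1 + σ) = τ * α * (1 + σ) := by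
      have : τ * α * (1 + σ) = α * α := by rw [mul_right_comm, e1]
      rw [this]; nlinarith
    exact mul_right_cancel₀ s1.ne' this
  have hα1 : α ≤ 1 := by nlinarith
  have τ1 : τ ≤ 1 := by
    have : τ * 1 ≤ τ * (1 + σ) := mul_le_mul_of_nonneg_left (by linarith) τ0
    linarith
  -- `2 σ τ ≤ α`
  have e3 : 2 * (σ * τ) ≤ α := by
    have : τ * (2 * σ) ≤ τ * (1 + σ) := mul_le_mul_of_nonneg_left (by linarith) τ0
    linarith
  have D0 : 0 < σ + L * α := by
    have := mul_nonneg L0 hα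
    linarith
  have hL2 : 0 ≤ 1 - L ^ 2 := by nlinarith
  have key : (L * σ - α) * (τ + L) ≤ (1 - L * τ) * (σ + L * α) := by
    have i1 : (1 - L * τ) * (σ + L * α) - (L * σ - α) * (τ + L) =
      σ * (1 - L ^ 2) + 2 * L * α - 2 * L * (σ * τ) + α * τ * (1 - L ^ 2) := by ring
    have i2 : 0 ≤ σ * (1 - L ^ 2) := mul_nonneg hσ.le hL2
    have i3 : 0 ≤ α * τ * (1 - L ^ 2) := mul_nonneg (mul_nonneg hα τ0) hL2
    have i4 := mul_le_mul_of_nonneg_left e3 L0
    have i5 := mul_nonneg L0 hα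
    linarith
  have w' := abs_le.1 hw
  -- first half
  have F1 : L * (τ * h - w) ≤ h + τ * w := by
    have j1 : 0 ≤ (h + τ * w - L * (τ * h - w)) * (σ + L * α) := by
      have j2 : (h + τ * w - L * (τ * h - w)) * (σ + L * α) =
        h * ((1 - L * τ) * (σ + L * α)) + (τ + L) * (w * (σ + L * α)) := by ring
      rw [j2]
      have j3 := mul_le_mul_of_nonneg_left hc (by linarith : 0 ≤ τ + L)
      have j4 := mul_le_mul_of_nonneg_left key hh.le
      linarith
    have := nonneg_of_mul_nonneg_left j1 D0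
    linarith
  have F2 : L * (w - τ * h) ≤ h + τ * w := by
    have Lh : L * h ≤ h := by
      have := mul_le_mul_of_nonneg_right L1.le hh.le
      linarith
    have j1 : -(1 * (L * h)) ≤ w * (τ - L) := by
      have : |w * (τ - L)| ≤ (L * h) * 1 := by
        rw [abs_mul]
        refine mul_le_mul hw ?_ (abs_nonneg _) (mul_nonneg L0 hh.le)
        rw [abs_le]
        constructor <;> linarith
      have := (abs_le.1 this).1
      linarith
    have j2 : 0 ≤ L * τ * h := mul_nonneg (mul_nonneg L0 τ0) hh.le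
    nlinarith
  have G1 := mul_le_mul_of_nonneg_left F1 hα
  have G2 := mul_le_mul_of_nonneg_left F2 hα
  rw [e2]
  rcases le_total 0 (τ * α * h - α * w) with hc | hc
  · rw [abs_of_nonneg hc]
    linarith
  · rw [abs_of_nonpos hc]
    linarith

/-- A special trapezoid straddling the tip. -/
theorem trap_clean (hT : Lip L T) (hB : Lip L B) (L0 : 0 ≤ L) (L1 : L < 1)
    {a b x1 x4 α σ : ℝ} (h1 : α ^ 2 + σ ^ 2 = 1) (h2 : 0 ≤ α)
    (ha : B a < T a) (hx1 : a < x1) (hx4 : b < x4)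
    (e1 : x1 - a = α * (b - a) - σ * (B b - T a)) (e2 : T x1 - T a = α * (B b - T a) + σ * (b - a))
    (e3 : x4 - b = -(α * (b - a)) - σ * (B b - T a))
    (e4 : B x4 - B b = -(α * (B b - T a)) + σ * (b - a)) :
    0 ≤ f1 T B a b ∧ f2 T B a b ≤ 0 := by
  obtain ⟨w, hw⟩ : ∃ w, w = b - a := ⟨_, rfl⟩
  obtain ⟨h, hh⟩ : ∃ h, h = T a - B b := ⟨_, rfl⟩
  have eh : B b - T a = -h := by rw [hh]; ring
  rw [← hw, eh] at e1 e2 e3 e4
  have k1 := hT x1 a
  have k4 := hB x4 b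
  rw [abs_of_pos (by linarith : 0 < x1 - a), e2, e1] at k1
  rw [abs_of_pos (by linarith : 0 < x4 - b), e4, e3] at k4
  have k1 := abs_le.1 k1
  have k4 := abs_le.1 k4
  have s1 : 0 < σ * h := by linarith
  have s2 : |σ * w| ≤ L * (σ * h) := by
    rw [abs_le]
    constructor <;> linarith [k1.1, k1.2, k4.1, k4.2]
  rcases lt_trichotomy σ 0 with hσ | hσ | hσ
  · exfalso
    have hneg : h < 0 := by
      by_contra hcon
      push Not at hcon
      have := mul_nonpos_of_nonpos_of_nonneg hσ.le hcon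
      linarith
    rw [abs_mul, abs_of_neg hσ] at s2
    have s3 : |w| ≤ -(L * h) := by
      have : (-σ) * |w| ≤ (-σ) * (-(L * h)) := by linarith
      exact le_of_mul_le_mul_left this (by linarith)
    have k5 := hB b a
    rw [← hw] at k5
    have k6 := mul_le_mul_of_nonneg_left s3 L0
    have k7 := (abs_le.1 (k5.trans k6)).2
    have k8 : L * (-(L * h)) ≤ 1 * (-h) := by
      have : L * L ≤ 1 := by nlinarith
      have := mul_le_mul_of_nonneg_right this (by linarith : 0 ≤ -h)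
      linarith
    linarith
  · rw [hσ] at s1
    linarith
  · have hpos : 0 < h := by
      by_contra hcon
      push Not at hcon
      have := mul_nonpos_of_nonneg_of_nonpos hσ.le hcon
      linarith
    rw [abs_mul, abs_of_pos hσ] at s2
    have s3 : |w| ≤ L * h := by
      have : σ * |w| ≤ σ * (L * h) := by linarith
      exact le_of_mul_le_mul_left this hσ
    have q1 := hT (a + h) x1
    have q4 := hB (b + h) x4
    have c1 := cone_ineq L0 L1 h2 hσ h1 hpos s3 (by linarith [k1.1])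
    have c2 := cone_ineq (w := -w) L0 L1 h2 hσ h1 hpos (by rw [abs_neg]; exact s3)
      (by linarith [k4.2])
    have d1 : a + h - x1 = (1 - σ) * h - α * w := by linarith
    have d4 : b + h - x4 = (1 - σ) * h - α * (-w) := by linarith
    rw [d1] at q1
    rw [d4] at q4
    have q1 := abs_le.1 q1
    have q4 := abs_le.1 q4
    unfold f1 f2
    rw [show a + T a - B b = a + h by rw [hh]; ring, show b + T a - B b = b + h by rw [hh]; ring]
    constructor
    · linarith [q1.2]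
    · linarith [q4.1]

/-- The arm as a graph. -/
theorem arm (L0 : 0 ≤ L) {x y : ℝ → ℝ} {S : Set ℝ} (hinj : InjOn x S)
    (hs : ∀ s ∈ S, ∀ t ∈ S, |y s - y t| ≤ L * |x s - x t|) :
    ∃ u : ℝ → ℝ, Lip L u ∧ ∀ t ∈ S, u (x t) = y t := by
  have hinv : ∀ t ∈ S, Function.invFunOn x S (x t) = t := by
    intro t ht
    have h1 : ∃ a ∈ S, x a = x t := ⟨t, ht, rfl⟩
    exact hinj (Function.invFunOn_mem h1) ht (Function.invFunOn_eq h1)
  have hlip : LipschitzOnWith ⟨L, L0⟩ (fun v => y (Function.invFunOn x S v)) (x '' S) := by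
    apply LipschitzOnWith.of_dist_le_mul
    rintro _ ⟨s, hs', rfl⟩ _ ⟨t, ht', rfl⟩
    simp only [hinv s hs', hinv t ht', Real.dist_eq]
    exact hs s hs' t ht'
  obtain ⟨g, hg, he⟩ := hlip.extend_real
  refine ⟨g, ?_, ?_⟩
  · intro a b
    have := hg.dist_le_mul a b
    rw [Real.dist_eq, Real.dist_eq] at this
    exact this
  · intro t ht
    rw [← he (mem_image_of_mem x ht)]
    simp only [hinv t ht]

/-- **Clean rectangles**: arbitrarily small cuts without special trapezoids. -/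
theorem horn_clean (L0 : 0 ≤ L) (L1 : L < 1) {x y : ℝ → ℝ} (hx : Continuous x) {τ ε : ℝ}
    (hε : 0 < ε) (x0 : x τ = 0) (y0 : y τ = 0) (ha : StrictAntiOn x (Icc (τ - ε) τ))
    (hm : StrictMonoOn x (Icc τ (τ + ε)))
    (sl : ∀ s ∈ Icc (τ - ε) τ, ∀ t ∈ Icc (τ - ε) τ, |y s - y t| ≤ L * |x s - x t|)
    (sr : ∀ s ∈ Icc τ (τ + ε), ∀ t ∈ Icc τ (τ + ε), |y s - y t| ≤ L * |x s - x t|)
    (hne : ∀ s ∈ Ico (τ - ε) τ, ∀ t ∈ Ioc τ (τ + ε), x s = x t → y s ≠ y t) {s₀ : ℝ}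
    (hs₀ : s₀ < τ) :
    ∃ s t, s₀ < s ∧ τ - ε < s ∧ s < τ ∧ τ < t ∧ t < τ + ε ∧
      (∀ t0 t2 t3, τ - ε ≤ t0 → t0 < s → τ < t2 → t2 ≤ t → t2 < t3 → t3 ≤ τ + ε →
        ¬ Spec x y t0 s t2 t3) ∧
      (∀ t0 t1 t3, τ - ε ≤ t0 → t0 < t1 → s ≤ t1 → t1 < τ → t < t3 → t3 ≤ τ + ε →
        ¬ Spec x y t0 t1 t t3) := by
  obtain ⟨u, hu, hux⟩ := arm L0 ha.injOn sl
  obtain ⟨l, hl, hlx⟩ := arm L0 hm.injOn sr
  have mτl : τ ∈ Icc (τ - ε) τ := ⟨by linarith, le_rfl⟩
  have mτr : τ ∈ Icc τ (τ + ε) := ⟨le_rfl, by linarith⟩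
  have u0 : u 0 = 0 := by
    have := hux τ mτl
    rwa [x0, y0] at this
  have l0 : l 0 = 0 := by
    have := hlx τ mτr
    rwa [x0, y0] at this
  have mL : τ - ε ∈ Icc (τ - ε) τ := ⟨le_rfl, by linarith⟩
  have mR : τ + ε ∈ Icc τ (τ + ε) := ⟨by linarith, le_rfl⟩
  have xL : 0 < x (τ - ε) := by
    rw [← x0]; exact ha mL mτl (by linarith)
  have xR : 0 < x (τ + ε) := by
    rw [← x0]; exact hm mτr mR (by linarith)
  -- the two graphs do not meet
  have hXne : ∀ v, 0 < v → v ≤ x (τ - ε) → v ≤ x (τ + ε) → u v ≠ l v := by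
    intro v hv h1 h2 he
    obtain ⟨s, hs, hsv⟩ : ∃ s ∈ Icc (τ - ε) τ, x s = v := by
      have := intermediate_value_Icc' (by linarith : τ - ε ≤ τ) hx.continuousOn
      exact this ⟨by rw [x0]; exact hv.le, h1⟩
    obtain ⟨t, ht, htv⟩ : ∃ t ∈ Icc τ (τ + ε), x t = v := by
      have := intermediate_value_Icc (by linarith : τ ≤ τ + ε) hx.continuousOn
      exact this ⟨by rw [x0]; exact hv.le, h2⟩
    have hs1 : s < τ := by
      rcases hs.2.lt_or_eq with h | h
      · exact h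
      · rw [h, x0] at hsv; linarith
    have ht1 : τ < t := by
      rcases ht.1.lt_or_eq with h | h
      · exact h
      · rw [← h, x0] at htv; linarith
    apply hne s ⟨hs.1, hs1⟩ t ⟨ht1, ht.2⟩ (by rw [hsv, htv])
    rw [← hux s hs, ← hlx t ht, hsv, htv, he]
  -- reduction to `l < u`
  obtain ⟨X, hX, hXL, hXR⟩ : ∃ X, 0 < X ∧ X ≤ x (τ - ε) ∧ X ≤ x (τ + ε) :=
    ⟨min (x (τ - ε)) (x (τ + ε)), lt_min xL xR, min_le_left _ _, min_le_right _ _⟩
  have hq : 0 < 1 - L ^ 2 := by nlinarith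
  have main : ∀ (y' u' l' : ℝ → ℝ), Lip L u' → Lip L l' → u' 0 = 0 → l' 0 = 0 →
      (∀ v, 0 < v → v < X → l' v < u' v) → (∀ t ∈ Icc (τ - ε) τ, u' (x t) = y' t) →
      (∀ t ∈ Icc τ (τ + ε), l' (x t) = y' t) →
      ∃ s t, s₀ < s ∧ τ - ε < s ∧ s < τ ∧ τ < t ∧ t < τ + ε ∧
      (∀ t0 t2 t3, τ - ε ≤ t0 → t0 < s → τ < t2 → t2 ≤ t → t2 < t3 → t3 ≤ τ + ε →
        ¬ Spec x y' t0 s t2 t3) ∧
      (∀ t0 t1 t3, τ - ε ≤ t0 → t0 < t1 → s ≤ t1 → t1 < τ → t < t3 → t3 ≤ τ + ε →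
        ¬ Spec x y' t0 t1 t t3) := by
    intro y' u' l' hu' hl' u0' l0' hlt hux' hlx'
    set s₁ := max s₀ (τ - ε) with hs₁
    have hs₁' : s₁ < τ := max_lt hs₀ (by linarith)
    have hs₁m : s₁ ∈ Icc (τ - ε) τ := ⟨le_max_right _ _, hs₁'.le⟩
    have hxs₁ : 0 < x s₁ := by rw [← x0]; exact ha hs₁m mτl hs₁'
    set η := min X (x s₁) with hη
    have hη0 : 0 < η := lt_min hX hxs₁
    obtain ⟨a, b, ha0, haη, hb0, hbη, hf1, hf2⟩ := tip hu' hl' L0 L1 u0' l0' hη0
      (fun v h1 h2 => hlt v h1 (lt_of_lt_of_le h2 (min_le_left _ _)))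
    obtain ⟨s, hs, hsa⟩ : ∃ s ∈ Icc s₁ τ, x s = a := by
      have := intermediate_value_Icc' hs₁'.le hx.continuousOn
      exact this ⟨by rw [x0]; exact ha0.le, (haη.trans_le (min_le_right _ _)).le⟩
    obtain ⟨t, ht, htb⟩ : ∃ t ∈ Icc τ (τ + ε), x t = b := by
      have := intermediate_value_Icc (by linarith : τ ≤ τ + ε) hx.continuousOn
      exact this ⟨by rw [x0]; exact hb0.le, ((hbη.trans_le (min_le_left _ _)).trans_le hXR).le⟩
    have hs2 : s₁ < s := by
      rcases hs.1.lt_or_eq with h | h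
      · exact h
      · rw [← h] at hsa
        have := haη.trans_le (min_le_right X (x s₁))
        linarith
    have hs3 : s < τ := by
      rcases hs.2.lt_or_eq with h | h
      · exact h
      · rw [h, x0] at hsa; linarith
    have ht2 : τ < t := by
      rcases ht.1.lt_or_eq with h | h
      · exact h
      · rw [← h, x0] at htb; linarith
    have ht3 : t < τ + ε := by
      rcases ht.2.lt_or_eq with h | h
      · exact h
      · rw [h] at htb
        have := hbη.trans_le (min_le_left X (x s₁))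
        linarith
    have hsm : s ∈ Icc (τ - ε) τ := ⟨(le_max_right _ _).trans hs2.le, hs3.le⟩
    refine ⟨s, t, (le_max_left _ _).trans_lt hs2, (le_max_right _ _).trans_lt hs2, hs3, ht2, ht3,
      ?_, ?_⟩
    · rintro t0 t2 t3 h0 h0s h2 h2t h23 h3 ⟨α, σ, q1, q2, q3, q4, q5, q6, q7⟩
      have m0 : t0 ∈ Icc (τ - ε) τ := ⟨h0, by linarith⟩
      have m2 : t2 ∈ Icc τ (τ + ε) := ⟨h2.le, by linarith⟩
      have m3 : t3 ∈ Icc τ (τ + ε) := ⟨by linarith, h3⟩
      rw [← hux' t0 m0, ← hux' s hsm, ← hlx' t2 m2] at q5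
      rw [← hux' s hsm, ← hlx' t2 m2] at q4 q6 q7
      rw [← hlx' t3 m3] at q7
      have c := trap_clean hu' hl' L0 L1 (a := x s) (b := x t2) (x1 := x t0) (x4 := x t3) q1 q2
        (by rw [hsa]; exact hlt a ha0 (haη.trans_le (min_le_left _ _)))
        (ha m0 hsm h0s) (hm m2 m3 h23) q4 q5 q6 q7
      rw [hsa] at c
      have hle : x t2 ≤ b := by rw [← htb]; exact hm.monotoneOn m2 ht h2t
      have := f1_mono hu' hl' L0 (a := a) hle
      have h9 := mul_nonneg hq.le (sub_nonneg.2 hle)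
      linarith [c.1]
    · rintro t0 t1 t3 h0 h01 h1 h1τ h3 h3' ⟨α, σ, q1, q2, q3, q4, q5, q6, q7⟩
      have m0 : t0 ∈ Icc (τ - ε) τ := ⟨h0, by linarith⟩
      have m1 : t1 ∈ Icc (τ - ε) τ := ⟨by linarith, h1τ.le⟩
      have m3 : t3 ∈ Icc τ (τ + ε) := ⟨by linarith, h3'⟩
      rw [← hux' t0 m0, ← hux' t1 m1, ← hlx' t ht] at q5
      rw [← hux' t1 m1, ← hlx' t ht] at q4 q6 q7
      rw [← hlx' t3 m3] at q7
      have x1a : x t1 ≤ a := by rw [← hsa]; exact ha.antitoneOn hsm m1 h1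
      have x10 : 0 < x t1 := by rw [← x0]; exact ha m1 mτl h1τ
      have c := trap_clean hu' hl' L0 L1 (a := x t1) (b := x t) (x1 := x t0) (x4 := x t3) q1 q2
        (hlt _ x10 (x1a.trans_lt (haη.trans_le (min_le_left _ _))))
        (ha m0 m1 h01) (hm ht m3 h3) q4 q5 q6 q7
      rw [htb] at c
      have := f2_anti hu' hl' L0 (b := b) x1a
      have h9 := mul_nonneg hq.le (sub_nonneg.2 x1a)
      linarith [c.2]
  have hcu := hu.cont
  have hcl := hl.cont
  by_cases hsg : l (X / 2) < u (X / 2)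
  · apply main y u l hu hl u0 l0 _ hux hlx
    intro v hv hvX
    by_contra hcon
    push Not at hcon
    have hpc : IsPreconnected (Ioo 0 X) := isPreconnected_Ioo
    obtain ⟨z, hz, hze⟩ := hpc.intermediate_value (a := v) (b := X / 2) ⟨hv, hvX⟩
      ⟨by linarith, by linarith⟩ (f := fun v => u v - l v) (by fun_prop)
      (show (0:ℝ) ∈ Icc _ _ from ⟨by linarith, by linarith⟩)
    exact hXne z hz.1 (hz.2.le.trans hXL) (hz.2.le.trans hXR) (by simp only at hze; linarith)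
  · have hsg' : u (X / 2) < l (X / 2) := lt_of_le_of_ne (not_lt.mp hsg)
      (hXne (X / 2) (by linarith) (by linarith) (by linarith))
    have hnegLip : ∀ {g : ℝ → ℝ}, Lip L g → Lip L (fun v => -g v) := by
      intro g hg a b
      have := hg a b
      show |-g a - -g b| ≤ _
      rw [show -g a - -g b = -(g a - g b) by ring, abs_neg]
      exact this
    obtain ⟨s, t, h1, h2, h3, h4, h5, h6, h7⟩ := main (fun t => -y t) (fun v => -u v)
      (fun v => -l v) (hnegLip hu) (hnegLip hl) (by simp [u0]) (by simp [l0])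
      (by
        intro v hv hvX
        by_contra hcon
        push Not at hcon
        have hpc : IsPreconnected (Ioo 0 X) := isPreconnected_Ioo
        obtain ⟨z, hz, hze⟩ := hpc.intermediate_value (a := X / 2) (b := v)
          ⟨by linarith, by linarith⟩ ⟨hv, hvX⟩ (f := fun v => u v - l v) (by fun_prop)
          (show (0:ℝ) ∈ Icc _ _ from ⟨by linarith, by linarith⟩)
        exact hXne z hz.1 (hz.2.le.trans hXL) (hz.2.le.trans hXR) (by simp only at hze; linarith))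
      (by intro t ht; rw [hux t ht]) (by intro t ht; rw [hlx t ht])
    exact ⟨s, t, h1, h2, h3, h4, h5, fun t0 t2 t3 k1 k2 k3 k4 k5 k6 k =>
      h6 t0 t2 t3 k1 k2 k3 k4 k5 k6 k.neg, fun t0 t1 t3 k1 k2 k3 k4 k5 k6 k =>
      h7 t0 t1 t3 k1 k2 k3 k4 k5 k6 k.neg⟩

end Pool.Agent.Y450.Horn
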