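import Pool.Agent.Y450.Horn.Sep

/-! Junctions of two Lipschitz arcs in different coordinates. -/

set_option autoImplicit false

namespace Pool.Agent.Y450.Horn

open H145R2.SqComb H145R2.TSq Set Filter Topology Complex
open Pool.Agent.TH587 (Spec Sep NoTrap MonoAt sep_noTrap noTrap_mono)

variable {γ : ℝ → ℂ} {δ L : ℝ}

/-- In coordinates with first axis in the direction `e` the curve, followed from `a` to `b`, is the
graph of a function with Lipschitz constant `L`, run through from left to right. -/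
def Arc (γ : ℝ → ℂ) (L : ℝ) (e : ℂ) (a b : ℝ) : Prop := ∀ s t, a ≤ s → s < t → t ≤ b →
  0 < ((starRingEnd ℂ) e * (γ t - γ s)).re ∧
  |((starRingEnd ℂ) e * (γ t - γ s)).im| ≤ L * ((starRingEnd ℂ) e * (γ t - γ s)).re

theorem Arc.mono {L' : ℝ} {e : ℂ} {a b : ℝ} (h : Arc γ L e a b) (hL : L ≤ L') :
    Arc γ L' e a b := fun s t h1 h2 h3 =>
  ⟨(h s t h1 h2 h3).1, (h s t h1 h2 h3).2.trans
    (mul_le_mul_of_nonneg_right hL (h s t h1 h2 h3).1.le)⟩

/-- turning the coordinates -/
theorem Arc.turn {L' : ℝ} {e f : ℂ} {a b c d : ℝ} (h : Arc γ L e a b) (hf : (starRingEnd ℂ) f =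
      (⟨c, d⟩ : ℂ) * (starRingEnd ℂ) e) (h1 : |d| * L < c)
    (h2 : c * L + |d| ≤ L' * (c - |d| * L)) : Arc γ L' f a b := by
  intro s t i1 i2 i3
  obtain ⟨k1, k2⟩ := h s t i1 i2 i3
  rw [hf, mul_assoc]
  set v := (starRingEnd ℂ) e * (γ t - γ s) with hv
  have e1 : ((⟨c, d⟩ : ℂ) * v).re = c * v.re - d * v.im := by simp [mul_re]
  have e2 : ((⟨c, d⟩ : ℂ) * v).im = c * v.im + d * v.re := by simp [mul_im]
  rw [e1, e2]
  have c0 : 0 ≤ c ∨ c < 0 := le_or_gt 0 c
  have m1 : |d * v.im| ≤ |d| * (L * v.re) := by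
    rw [abs_mul]
    exact mul_le_mul_of_nonneg_left k2 (abs_nonneg d)
  have m1' := abs_le.1 m1
  have m4 : (c - |d| * L) * v.re ≤ c * v.re - d * v.im := by
    nlinarith [m1'.2]
  have L0 : 0 ≤ L := by
    have := (abs_nonneg _).trans k2
    by_contra hneg
    push Not at hneg
    have := mul_neg_of_neg_of_pos hneg k1
    linarith
  have cp : 0 < c := by
    have := mul_nonneg (abs_nonneg d) L0
    linarith
  have m2 : |c * v.im| ≤ c * (L * v.re) := by
    rw [abs_mul, abs_of_pos cp]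
    exact mul_le_mul_of_nonneg_left k2 cp.le
  have m3 : |d * v.re| ≤ |d| * v.re := by
    rw [abs_mul, abs_of_pos k1]
  have p1 : 0 < (c - |d| * L) * v.re := mul_pos (by linarith) k1
  refine ⟨by linarith, ?_⟩
  have m5 : |c * v.im + d * v.re| ≤ (c * L + |d|) * v.re := by
    refine (abs_add_le _ _).trans ?_
    linarith
  have m6 := mul_le_mul_of_nonneg_right h2 k1.le
  have L0' : 0 ≤ L' := by
    by_contra hneg
    push Not at hneg
    have h3 : L' * (c - |d| * L) < 0 := mul_neg_of_neg_of_pos hneg (by linarith)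
    have h4 : 0 ≤ c * L := mul_nonneg cp.le L0
    linarith [abs_nonneg d]
  have m7 := mul_le_mul_of_nonneg_left m4 L0'
  linarith

theorem Arc.horn {e : ℂ} {τ ε : ℝ} (hε : 0 < ε) (h1 : Arc γ L (-e) (τ - ε) τ)
    (h2 : Arc γ L e τ (τ + ε)) : HornAt L γ τ e ε := by
  have n1 : ∀ s t, ((starRingEnd ℂ) (-e) * (γ t - γ s)).re =
      ((starRingEnd ℂ) e * γ s).re - ((starRingEnd ℂ) e * γ t).re := by
    intro s t
    rw [← sub_re]; congr 1; rw [map_neg]; ring
  have n2 : ∀ s t, ((starRingEnd ℂ) e * (γ t - γ s)).re =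
      ((starRingEnd ℂ) e * γ t).re - ((starRingEnd ℂ) e * γ s).re := by
    intro s t
    rw [← sub_re]; congr 1; ring
  have neg1 : ∀ s t, (starRingEnd ℂ) e * (γ s - γ t) = (starRingEnd ℂ) (-e) * (γ t - γ s) := by
    intro s t
    rw [map_neg]; ring
  have neg2 : ∀ s t, (starRingEnd ℂ) e * (γ s - γ t) = -((starRingEnd ℂ) e * (γ t - γ s)) := by
    intro s t
    ring
  refine ⟨hε, ?_, ?_, ?_, ?_⟩
  · intro s hs t ht hst
    have := (h1 s t hs.1 hst ht.2).1
    rw [n1] at this
    show ((starRingEnd ℂ) e * γ t).re < ((starRingEnd ℂ) e * γ s).re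
    linarith
  · intro s hs t ht hst
    have := (h2 s t hs.1 hst ht.2).1
    rw [n2] at this
    show ((starRingEnd ℂ) e * γ s).re < ((starRingEnd ℂ) e * γ t).re
    linarith
  · intro s hs t ht
    rcases lt_trichotomy s t with h | h | h
    · obtain ⟨k1, k2⟩ := h1 s t hs.1 h ht.2
      rw [neg1, abs_of_pos k1]
      exact k2
    · rw [h]; simp
    · obtain ⟨k1, k2⟩ := h1 t s ht.1 h hs.2
      rw [← neg1, neg2, neg_re] at k1
      rw [← neg1, neg2, neg_re, neg_im, abs_neg] at k2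
      rw [abs_of_neg (by linarith : ((starRingEnd ℂ) e * (γ s - γ t)).re < 0)]
      exact k2
  · intro s hs t ht
    rcases lt_trichotomy s t with h | h | h
    · obtain ⟨k1, k2⟩ := h2 s t hs.1 h ht.2
      rw [neg2, neg_im, neg_re, abs_neg, abs_neg, abs_of_pos k1]
      exact k2
    · rw [h]; simp
    · obtain ⟨k1, k2⟩ := h2 t s ht.1 h hs.2
      rw [abs_of_pos k1]
      exact k2

theorem Arc.monoAt {e : ℂ} {κ τ ε : ℝ} (hε : 0 < ε) (h1 : Arc γ κ e (τ - ε) τ)
    (h2 : Arc γ κ e τ (τ + ε)) : MonoAt γ τ e ε := by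
  have n2 : ∀ s t, ((starRingEnd ℂ) e * (γ t - γ s)).re =
      ((starRingEnd ℂ) e * γ t).re - ((starRingEnd ℂ) e * γ s).re := by
    intro s t
    rw [← sub_re]; congr 1; ring
  refine ⟨hε, ?_⟩
  intro s hs t ht hst
  show ((starRingEnd ℂ) e * γ s).re < ((starRingEnd ℂ) e * γ t).re
  rcases le_total t τ with h | h
  · have := (h1 s t hs.1.le hst h).1
    rw [n2] at this
    linarith
  · rcases le_total τ s with h' | h'
    · have := (h2 s t h' hst ht.2.le).1
      rw [n2] at this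
      linarith
    · have k1 : ((starRingEnd ℂ) e * γ s).re ≤ ((starRingEnd ℂ) e * γ τ).re := by
        rcases h'.eq_or_lt with h3 | h3
        · rw [h3]
        · have := (h1 s τ hs.1.le h3 le_rfl).1
          rw [n2] at this
          linarith
      have k2 : ((starRingEnd ℂ) e * γ τ).re ≤ ((starRingEnd ℂ) e * γ t).re := by
        rcases h.eq_or_lt with h3 | h3
        · rw [h3]
        · have := (h2 τ t le_rfl h3 ht.2.le).1
          rw [n2] at this
          linarith
      rcases h'.eq_or_lt with h3 | h3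
      · have h4 : τ < t := by linarith
        have := (h2 τ t le_rfl h4 ht.2.le).1
        rw [n2] at this
        linarith
      · have := (h1 s τ hs.1.le h3 le_rfl).1
        rw [n2] at this
        linarith

/-- Junctions of two arcs with Lipschitz constant less than `√2 - 1`. -/
theorem two (hγ : Jor γ) (hδ0 : 0 < δ) (hδ2 : δ < 1/2) {e₁ e₂ : ℂ} {τ ε : ℝ}
    (hL : L < Real.sqrt 2 - 1) (hε : 0 < ε) (h1 : Arc γ L e₁ (τ - ε) τ)
    (h2 : Arc γ L e₂ τ (τ + ε)) : Sep γ δ τ := by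
  have L0 : 0 ≤ L := by
    obtain ⟨k1, k2⟩ := h2 τ (τ + ε) le_rfl (by linarith) le_rfl
    by_contra hneg
    push Not at hneg
    have := mul_neg_of_neg_of_pos hneg k1
    have := (abs_nonneg _).trans k2
    linarith
  have hs2 : Real.sqrt 2 ^ 2 = 2 := Real.sq_sqrt (by norm_num)
  have hLq : L ^ 2 + 2 * L < 1 := by
    have h3 : L + 1 < Real.sqrt 2 := by linarith
    have h4 : (L + 1) ^ 2 < Real.sqrt 2 ^ 2 := pow_lt_pow_left₀ h3 (by linarith) (by norm_num)
    rw [hs2] at h4
    linarith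
  have ne1 : e₁ ≠ 0 := by
    rintro rfl
    have := (h1 (τ - ε) τ le_rfl (by linarith) le_rfl).1
    simp at this
  have ne2 : e₂ ≠ 0 := by
    rintro rfl
    have := (h2 τ (τ + ε) le_rfl (by linarith) le_rfl).1
    simp at this
  have n1 : 0 < ‖e₁‖ := norm_pos_iff.2 ne1
  have n2 : 0 < ‖e₂‖ := norm_pos_iff.2 ne2
  -- the scaled product
  set z : ℂ := -((starRingEnd ℂ) e₁ * e₂) with hz
  set N : ℝ := ‖e₁‖ * ‖e₂‖ with hN
  have N0 : 0 < N := mul_pos n1 n2
  have hzn : z.re ^ 2 + z.im ^ 2 = N ^ 2 := by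
    have : ‖z‖ = N := by rw [hz, norm_neg, norm_mul, RCLike.norm_conj]
    rw [← this, ← Complex.normSq_eq_norm_sq, Complex.normSq_apply]; ring
  have hcc1 : (starRingEnd ℂ) e₁ * e₁ = ((‖e₁‖ ^ 2 : ℝ) : ℂ) := by
    rw [mul_comm, Complex.mul_conj, Complex.normSq_eq_norm_sq]
  have hcc2 : (starRingEnd ℂ) e₂ * e₂ = ((‖e₂‖ ^ 2 : ℝ) : ℂ) := by
    rw [mul_comm, Complex.mul_conj, Complex.normSq_eq_norm_sq]
  by_cases hcase : 0 < N + z.re ∧ |z.im| ≤ L * (N + z.re)
  · -- a horn in the direction `-‖e₂‖ e₁ + ‖e₁‖ e₂`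
    obtain ⟨c1, c2⟩ := hcase
    set f : ℂ := (‖e₁‖ : ℂ) * e₂ - (‖e₂‖ : ℂ) * e₁ with hf
    obtain ⟨L', hL'⟩ : ∃ L', L' = 2 * L / (1 - L ^ 2) := ⟨_, rfl⟩
    have q0 : 0 < 1 - L ^ 2 := by nlinarith
    have L0' : 0 ≤ L' := by rw [hL']; positivity
    have L1' : L' < 1 := by rw [hL', div_lt_one q0]; linarith
    have eL' : L' * (1 - L ^ 2) = 2 * L := by rw [hL']; field_simp
    -- conditions
    have hcd : ∀ n : ℝ, 0 < n → ∀ t : ℝ, |t| = |z.im| →
        |t / n| * L < (N + z.re) / n ∧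
        (N + z.re) / n * L + |t / n| ≤ L' * ((N + z.re) / n - |t / n| * L) := by
      intro n hn t ht
      rw [abs_div, abs_of_pos hn, ht]
      have k1 : |z.im| * L < N + z.re := by
        have := mul_le_mul_of_nonneg_right c2 L0
        have h9 : L * (N + z.re) * L < 1 * (N + z.re) := by
          have : L * L < 1 := by nlinarith
          have := mul_lt_mul_of_pos_right this c1
          linarith
        linarith
      have k2 : (N + z.re) * L + |z.im| ≤ L' * ((N + z.re) - |z.im| * L) := by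
        have h9 := mul_le_mul_of_nonneg_right c2 L0
        have h8 := mul_le_mul_of_nonneg_left h9 L0'
        have h7 : L' * ((N + z.re) - L * (N + z.re) * L) = 2 * L * (N + z.re) := by
          rw [← eL']; ring
        linarith
      constructor
      · rw [div_mul_eq_mul_div]
        exact div_lt_div_of_pos_right k1 hn
      · have e1 : (N + z.re) / n * L + |z.im| / n = ((N + z.re) * L + |z.im|) / n := by
          field_simp
        have e2 : L' * ((N + z.re) / n - |z.im| / n * L) =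
            (L' * ((N + z.re) - |z.im| * L)) / n := by
          field_simp
        rw [e1, e2]
        exact div_le_div_of_nonneg_right k2 hn.le
    -- right arc
    have g2 : Arc γ L' f τ (τ + ε) := by
      obtain ⟨k1, k2⟩ := hcd ‖e₂‖ n2 z.im rfl
      refine h2.turn (c := (N + z.re) / ‖e₂‖) (d := z.im / ‖e₂‖) ?_ k1 k2
      have e5 : (⟨(N + z.re) / ‖e₂‖, z.im / ‖e₂‖⟩ : ℂ) = ((N : ℂ) + z) / (‖e₂‖ : ℂ) := by
        apply Complex.ext <;> simp
      rw [e5, hf, hz, hN]
      have n2c : (‖e₂‖ : ℂ) ≠ 0 := by exact_mod_cast n2.ne'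
      rw [map_sub, map_mul, map_mul, Complex.conj_ofReal, Complex.conj_ofReal]
      push_cast
      push_cast at hcc2
      rw [div_mul_eq_mul_div, eq_div_iff n2c]
      linear_combination ((starRingEnd ℂ) e₁) * hcc2
    have g1 : Arc γ L' (-f) (τ - ε) τ := by
      obtain ⟨k1, k2⟩ := hcd ‖e₁‖ n1 (-z.im) (abs_neg _)
      refine h1.turn (c := (N + z.re) / ‖e₁‖) (d := -z.im / ‖e₁‖) ?_ k1 k2
      have e5 : (⟨(N + z.re) / ‖e₁‖, -z.im / ‖e₁‖⟩ : ℂ) =
          ((N : ℂ) + (starRingEnd ℂ) z) / (‖e₁‖ : ℂ) := by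
        apply Complex.ext <;> simp
      rw [e5, hf, hz, hN]
      have n1c : (‖e₁‖ : ℂ) ≠ 0 := by exact_mod_cast n1.ne'
      rw [map_neg, map_sub, map_mul, map_mul, Complex.conj_ofReal, Complex.conj_ofReal, map_neg,
        map_mul, Complex.conj_conj]
      push_cast
      push_cast at hcc1
      rw [div_mul_eq_mul_div, eq_div_iff n1c]
      linear_combination ((starRingEnd ℂ) e₂) * hcc1
    exact sep_horn L0' L1' hγ hδ0 hδ2 (Arc.horn hε g1 g2)
  · -- monotone in the direction `‖e₂‖ e₁ + ‖e₁‖ e₂`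
    have hzre : -N ≤ z.re := by
      have : z.re ^ 2 ≤ N ^ 2 := by nlinarith [sq_nonneg z.im]
      exact (abs_le.1 (abs_le_of_sq_le_sq this N0.le)).1
    have k1 : |z.im| * L < N - z.re := by
      by_cases hc1 : 0 < N + z.re
      · have hc2 : L * (N + z.re) < |z.im| := by
          by_contra hcon
          push Not at hcon
          exact hcase ⟨hc1, hcon⟩
        by_contra hcon
        push Not at hcon
        have hp : 0 < |z.im| := lt_of_le_of_lt (mul_nonneg L0 hc1.le) hc2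
        have h3 := mul_le_mul_of_nonneg_right hcon hc1.le
        have h4 := mul_lt_mul_of_pos_left hc2 hp
        have h5 : |z.im| * |z.im| = z.im ^ 2 := by rw [← sq, sq_abs]
        nlinarith
      · have h3 : z.re = -N := by linarith
        rw [h3] at hzn
        have h4 : z.im ^ 2 = 0 := by nlinarith
        have h5 : z.im = 0 := by simpa using h4
        rw [h3, h5, abs_zero, zero_mul]
        linarith
    obtain ⟨K, hK⟩ : ∃ K, K = ((N - z.re) * L + |z.im|) / (N - z.re - |z.im| * L) := ⟨_, rfl⟩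
    have eK : K * (N - z.re - |z.im| * L) = (N - z.re) * L + |z.im| := by
      have : N - z.re - |z.im| * L ≠ 0 := (by linarith : 0 < N - z.re - |z.im| * L).ne'
      rw [hK, div_mul_cancel₀ _ this]
    set f : ℂ := (‖e₁‖ : ℂ) * e₂ + (‖e₂‖ : ℂ) * e₁ with hf
    have hcd : ∀ n : ℝ, 0 < n → ∀ t : ℝ, |t| = |z.im| →
        |t / n| * L < (N - z.re) / n ∧
        (N - z.re) / n * L + |t / n| ≤ K * ((N - z.re) / n - |t / n| * L) := by
      intro n hn t ht
      rw [abs_div, abs_of_pos hn, ht]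
      constructor
      · rw [div_mul_eq_mul_div]
        exact div_lt_div_of_pos_right k1 hn
      · have e1 : (N - z.re) / n * L + |z.im| / n = ((N - z.re) * L + |z.im|) / n := by
          field_simp
        have e2 : K * ((N - z.re) / n - |z.im| / n * L) =
            (K * (N - z.re - |z.im| * L)) / n := by
          field_simp
        rw [e1, e2, eK]
    have g2 : Arc γ K f τ (τ + ε) := by
      obtain ⟨k1, k2⟩ := hcd ‖e₂‖ n2 (-z.im) (abs_neg _)
      refine h2.turn (c := (N - z.re) / ‖e₂‖) (d := -z.im / ‖e₂‖) ?_ k1 k2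
      have e5 : (⟨(N - z.re) / ‖e₂‖, -z.im / ‖e₂‖⟩ : ℂ) = ((N : ℂ) - z) / (‖e₂‖ : ℂ) := by
        apply Complex.ext <;> simp
      rw [e5, hf, hz, hN]
      have n2c : (‖e₂‖ : ℂ) ≠ 0 := by exact_mod_cast n2.ne'
      rw [map_add, map_mul, map_mul, Complex.conj_ofReal, Complex.conj_ofReal]
      push_cast
      push_cast at hcc2
      rw [div_mul_eq_mul_div, eq_div_iff n2c]
      linear_combination (-(starRingEnd ℂ) e₁) * hcc2
    have g1 : Arc γ K f (τ - ε) τ := by
      obtain ⟨k1, k2⟩ := hcd ‖e₁‖ n1 z.im rfl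
      refine h1.turn (c := (N - z.re) / ‖e₁‖) (d := z.im / ‖e₁‖) ?_ k1 k2
      have e5 : (⟨(N - z.re) / ‖e₁‖, z.im / ‖e₁‖⟩ : ℂ) =
          ((N : ℂ) - (starRingEnd ℂ) z) / (‖e₁‖ : ℂ) := by
        apply Complex.ext <;> simp
      rw [e5, hf, hz, hN]
      have n1c : (‖e₁‖ : ℂ) ≠ 0 := by exact_mod_cast n1.ne'
      rw [map_add, map_mul, map_mul, Complex.conj_ofReal, Complex.conj_ofReal, map_neg,
        map_mul, Complex.conj_conj]
      push_cast
      push_cast at hcc1
      rw [div_mul_eq_mul_div, eq_div_iff n1c]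
      linear_combination (-(starRingEnd ℂ) e₂) * hcc1
    exact sep_noTrap hγ hδ0 (noTrap_mono hγ (by linarith) (Arc.monoAt hε g1 g2))

end Pool.Agent.Y450.Horn
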