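import Pool.Agent.Y450.Stab.AreaMain

/-! The last vertex cannot stay below the lower graph. -/

set_option autoImplicit false
open MeasureTheory intervalIntegral Set

namespace Pool.Agent.Y450.Horn

open Pool.Agent.Y450.Stab

variable {T B Bs : ℝ → ℝ} {L L' : ℝ}

/-- a step of the potential -/
theorem pot_step_up (hT : Lip L T) (hB : Lip L B) (L1 : L < 1) {x d l r d' l' : ℝ}
    (S : ESq T B x d l) (S' : ESq T B (x + r) d' l') :
    Pot T B (x + r) d' l' - Pot T B x d l ≤
    (T x + d - l + (T (x + r) + d' - l')) / 2 * (x + r + d' + l' - (x + d + l)) -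
      (Prim B (x + r + d' + l') - Prim B (x + d + l)) +
      (r ^ 2 + (r + (d' - d)) ^ 2 + (r + (l' - l)) ^ 2) / 4 := by
  have k1 := (abs_le.1 (hT.trap' x (x + r))).1
  have k2 := (abs_le.1 (hB.trap' (x + d) (x + r + d'))).2
  have k3 := (abs_le.1 (hT.trap' (x + l) (x + r + l'))).2
  rw [S'.h3, S.h3] at k3
  rw [S'.h2, S.h2] at k2
  rw [show x + r - x = r by ring] at k1
  rw [show x + r + d' - (x + d) = r + (d' - d) by ring] at k2
  rw [show x + r + l' - (x + l) = r + (l' - l) by ring] at k3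
  have m1 := mul_le_mul_of_nonneg_right L1.le (sq_nonneg r)
  have m2 := mul_le_mul_of_nonneg_right L1.le (sq_nonneg (r + (d' - d)))
  have m3 := mul_le_mul_of_nonneg_right L1.le (sq_nonneg (r + (l' - l)))
  have id1 : (d' ^ 2 - l' ^ 2) / 2 - (d ^ 2 - l ^ 2) / 2 =
      r * (T x + T (x + r)) / 2 - (r + (d' - d)) * ((T x - l) + (T (x + r) - l')) / 2 +
      (T x + d - l + (T (x + r) + d' - l')) / 2 * (x + r + d' + l' - (x + d + l)) -
      (r + (l' - l)) * ((T x + d) + (T (x + r) + d')) / 2 := by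
    ring
  unfold Pot
  linarith

/-- one step, with a comparison function -/
theorem step_cmp_up (hT : Lip L T) (hB : Lip L B) (L1 : L < 1) (hBs : Lip L' Bs) (L1' : L' < 1)
    {x d l r d' l' : ℝ} (S : ESq T B x d l) (S' : ESq T B (x + r) d' l') :
    Pot T B (x + r) d' l' - Pot T B x d l ≤
    -(((Bs (x + d + l) - (T x + d - l)) + (Bs (x + r + d' + l') - (T (x + r) + d' - l'))) / 2 *
        ((x + r + d' + l') - (x + d + l))) +
      (Prim Bs (x + r + d' + l') - Prim Bs (x + d + l)) -
      (Prim B (x + r + d' + l') - Prim B (x + d + l)) +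
      (r ^ 2 + (r + (d' - d)) ^ 2 + (r + (l' - l)) ^ 2 + (r + (d' - d) + (l' - l)) ^ 2) / 4 := by
  have h := pot_step_up hT hB L1 S S'
  have k := (abs_le.1 (hBs.trap' (x + d + l) (x + r + d' + l'))).1
  have m := mul_le_mul_of_nonneg_right L1'.le (sq_nonneg (x + r + d' + l' - (x + d + l)))
  have e : (x + r + d' + l' - (x + d + l)) ^ 2 = (r + (d' - d) + (l' - l)) ^ 2 := by ring
  rw [e] at k m
  linarith

theorem path_area_up (hT : Lip L T) (hB : Lip L B) (L0 : 0 ≤ L) (L1 : L < 1) (hBs : Lip L' Bs)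
    (L0' : 0 ≤ L') (L1' : L' < 1) {xs xe : ℝ} (hx : xs ≤ xe) {dd ll : ℝ → ℝ}
    (hS : ∀ x ∈ Icc xs xe, ESq T B x (dd x) (ll x))
    (hH : ∀ x ∈ Icc xs xe, YY T dd ll x ≤ Bs (XX dd ll x)) :
    Pot T B xe (dd xe) (ll xe) - Pot T B xs (dd xs) (ll xs) ≤
    (Prim Bs (XX dd ll xe) - Prim Bs (XX dd ll xs)) - (Prim B (XX dd ll xe) - Prim B (XX dd ll xs))
      + ((Bs (XX dd ll xs) - YY T dd ll xs) ^ 2 + (Bs (XX dd ll xe) - YY T dd ll xe) ^ 2) /
        (1 - L') := by
  set K : ℝ := 1 + 4 / (1 - L) with hK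
  have q0 : 0 < 1 - L := by linarith
  have q0' : 0 < 1 - L' := by linarith
  have K1 : 1 ≤ K := by rw [hK]; have := div_nonneg (by norm_num : (0:ℝ) ≤ 4) q0.le; linarith
  set C : ℝ := 1 / (1 - L') with hC
  have C0 : 0 ≤ C := by rw [hC]; positivity
  -- error
  have main : ∀ n : ℕ, 0 < n →
      Pot T B xe (dd xe) (ll xe) - Pot T B xs (dd xs) (ll xs) ≤
      (Prim Bs (XX dd ll xe) - Prim Bs (XX dd ll xs)) -
        (Prim B (XX dd ll xe) - Prim B (XX dd ll xs))
      + C * ((Bs (XX dd ll xs) - YY T dd ll xs) ^ 2 + (Bs (XX dd ll xe) - YY T dd ll xe) ^ 2)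
      + (C * (2 * K) ^ 2 / 2 + K ^ 2) * (xe - xs) ^ 2 * (1 / n) := by
    intro n hn
    have hn' : (0:ℝ) < n := by exact_mod_cast hn
    set r : ℝ := (xe - xs) / n with hr
    have r0 : 0 ≤ r := div_nonneg (by linarith) hn'.le
    set g : ℕ → ℝ := fun k => xs + k * r with hg
    have gn : g n = xe := by
      simp only [hg, hr]
      field_simp
      ring
    have g0 : g 0 = xs := by simp [hg]
    have gs : ∀ k, g (k + 1) = g k + r := fun k => by simp only [hg]; push_cast; ring
    have gm : ∀ k ≤ n, g k ∈ Icc xs xe := by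
      intro k hk
      have hk' : (k:ℝ) ≤ n := by exact_mod_cast hk
      have hk0 : (0:ℝ) ≤ k := Nat.cast_nonneg k
      constructor
      · have := mul_nonneg hk0 r0
        simp only [hg]; linarith
      · have := mul_le_mul_of_nonneg_right hk' r0
        rw [← gn]; simp only [hg]; linarith
    set X : ℕ → ℝ := fun k => XX dd ll (g k) with hX
    set H : ℕ → ℝ := fun k => Bs (XX dd ll (g k)) - YY T dd ll (g k) with hHd
    have H0 : ∀ k ≤ n, 0 ≤ H k := fun k hk => by
      have := hH (g k) (gm k hk)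
      simp only [hHd]; linarith
    have hcone : ∀ j k, j ≤ k → k ≤ n → X j - C * |H k - H j| ≤ X k := by
      intro j k hjk hk
      by_cases hXX : X j ≤ X k
      · have := mul_nonneg C0 (abs_nonneg (H k - H j))
        linarith
      push Not at hXX
      have e : g k = g j + (k - j) * r := by simp only [hg]; ring
      have hjk' : (0:ℝ) ≤ k - j := by
        have : (j:ℝ) ≤ k := by exact_mod_cast hjk
        linarith
      have rp : 0 < ((k:ℝ) - j) * r := by
        refine lt_of_le_of_ne (mul_nonneg hjk' r0) fun h => ?_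
        rw [← h, add_zero] at e
        simp only [hX, e] at hXX
        exact lt_irrefl _ hXX
      have Sj := hS (g j) (gm j (hjk.trans hk))
      have Sk := hS (g k) (gm k hk)
      rw [e] at Sk
      have hc := Sj.cone hT hB L1 Sk rp
      rw [← e] at hc
      have hc' : X j - X k ≤ |YY T dd ll (g k) - YY T dd ll (g j)| := hc
      have hb := hBs (X k) (X j)
      rw [abs_of_neg (by linarith : X k - X j < 0)] at hb
      have hh : |YY T dd ll (g k) - YY T dd ll (g j)| ≤ |H k - H j| + |Bs (X k) - Bs (X j)| := by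
        have : YY T dd ll (g k) - YY T dd ll (g j) = -(H k - H j) + (Bs (X k) - Bs (X j)) := by
          simp only [hHd, hX]; ring
        rw [this]
        refine (abs_add_le _ _).trans ?_
        rw [abs_neg]
      have : (1 - L') * (X j - X k) ≤ |H k - H j| := by linarith
      have := mul_le_mul_of_nonneg_left this C0
      rw [← mul_assoc, show C * (1 - L') = 1 by rw [hC]; field_simp, one_mul] at this
      linarith
    have hlay := layer (X := X) (H := H) (C := C) C0 H0 hcone
    -- bounds of the steps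
    have hKr : r ≤ K * r := by
      have := mul_le_mul_of_nonneg_right K1 r0
      linarith
    have hst : ∀ k < n, |dd (g (k + 1)) - dd (g k)| + |ll (g (k + 1)) - ll (g k)| ≤ K * r - r := by
      intro k hk
      have S1 := hS (g k) (gm k hk.le)
      have S2 := hS (g (k + 1)) (gm (k + 1) hk)
      rw [gs k] at S2
      have := S1.steps hT hB L0 L1 S2 r0
      rw [← gs k] at this
      have e : K - 1 = 4 / (1 - L) := by rw [hK]; ring
      rw [show K * r - r = (K - 1) * r by ring, e, div_mul_eq_mul_div, le_div_iff₀ q0]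
      linarith
    have hstep : ∀ k < n, Pot T B (g (k + 1)) (dd (g (k + 1))) (ll (g (k + 1))) -
          Pot T B (g k) (dd (g k)) (ll (g k)) ≤ -((H k + H (k + 1)) / 2 * (X (k + 1) - X k)) +
        (Prim Bs (X (k + 1)) - Prim Bs (X k)) - (Prim B (X (k + 1)) - Prim B (X k)) +
        K ^ 2 * r ^ 2 := by
      intro k hk
      have S1 := hS (g k) (gm k hk.le)
      have S2 := hS (g (k + 1)) (gm (k + 1) hk)
      rw [gs k] at S2
      have hcmp := step_cmp_up hT hB L1 hBs L1' S1 S2
      rw [← gs k] at hcmp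
      have hs := hst k hk
      have b1 := abs_le.1 (le_refl |dd (g (k + 1)) - dd (g k)|)
      have b2 := abs_le.1 (le_refl |ll (g (k + 1)) - ll (g k)|)
      have n1 := abs_nonneg (dd (g (k + 1)) - dd (g k))
      have n2 := abs_nonneg (ll (g (k + 1)) - ll (g k))
      have sq1 : ∀ z : ℝ, |z| ≤ K * r → z ^ 2 ≤ K ^ 2 * r ^ 2 := by
        intro z hz
        rw [← mul_pow, ← sq_abs z]
        exact pow_le_pow_left₀ (abs_nonneg _) hz 2
      have f1 : r ^ 2 ≤ K ^ 2 * r ^ 2 := sq1 r (by rw [abs_of_nonneg r0]; exact hKr)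
      have f2 := sq1 (r + (dd (g (k + 1)) - dd (g k))) (by
        rw [abs_le]; constructor <;> linarith [b1.1, b1.2])
      have f3 := sq1 (r + (ll (g (k + 1)) - ll (g k))) (by
        rw [abs_le]; constructor <;> linarith [b2.1, b2.2])
      have f4 := sq1 (r + (dd (g (k + 1)) - dd (g k)) + (ll (g (k + 1)) - ll (g k))) (by
        rw [abs_le]; constructor <;> linarith [b1.1, b1.2, b2.1, b2.2])
      have : Pot T B (g (k + 1)) (dd (g (k + 1))) (ll (g (k + 1))) -
            Pot T B (g k) (dd (g k)) (ll (g k)) ≤ -((H k + H (k + 1)) / 2 * (X (k + 1) - X k)) +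
          (Prim Bs (X (k + 1)) - Prim Bs (X k)) - (Prim B (X (k + 1)) - Prim B (X k)) +
          (r ^ 2 + (r + (dd (g (k + 1)) - dd (g k))) ^ 2 + (r + (ll (g (k + 1)) - ll (g k))) ^ 2 +
            (r + (dd (g (k + 1)) - dd (g k)) + (ll (g (k + 1)) - ll (g k))) ^ 2) / 4 := hcmp
      linarith
    have hH2 : ∀ k < n, (H (k + 1) - H k) ^ 2 ≤ (2 * K) ^ 2 * r ^ 2 := by
      intro k hk
      have hs := hst k hk
      have t1 := hT (g (k + 1)) (g k)
      have t2 := hBs (XX dd ll (g (k + 1))) (XX dd ll (g k))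
      rw [show g (k + 1) - g k = r by rw [gs k]; ring, abs_of_nonneg r0] at t1
      have eX : |XX dd ll (g (k + 1)) - XX dd ll (g k)| ≤ K * r := by
        have : XX dd ll (g (k + 1)) - XX dd ll (g k) =
            r + (dd (g (k + 1)) - dd (g k)) + (ll (g (k + 1)) - ll (g k)) := by
          unfold XX
          rw [show g (k + 1) = g k + r from gs k]; ring
        rw [this]
        have b1 := abs_le.1 (le_refl |dd (g (k + 1)) - dd (g k)|)
        have b2 := abs_le.1 (le_refl |ll (g (k + 1)) - ll (g k)|)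
        have n1 := abs_nonneg (dd (g (k + 1)) - dd (g k))
        have n2 := abs_nonneg (ll (g (k + 1)) - ll (g k))
        rw [abs_le]; constructor <;> linarith [b1.1, b1.2, b2.1, b2.2]
      have hz : |H (k + 1) - H k| ≤ 2 * K * r := by
        have b1 := abs_le.1 (le_refl |dd (g (k + 1)) - dd (g k)|)
        have b2 := abs_le.1 (le_refl |ll (g (k + 1)) - ll (g k)|)
        have t1 := abs_le.1 t1
        have t2 := abs_le.1 (t2.trans (mul_le_mul_of_nonneg_left eX L0'))
        have u1 : L * r ≤ r := by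
          have := mul_le_mul_of_nonneg_right L1.le r0
          linarith
        have u2 : L' * (K * r) ≤ K * r := by
          have := mul_le_mul_of_nonneg_right L1'.le (mul_nonneg (by linarith : (0:ℝ) ≤ K) r0)
          linarith
        simp only [hHd, YY]
        rw [abs_le]
        constructor <;> linarith [b1.1, b1.2, b2.1, b2.2, t1.1, t1.2, t2.1, t2.2]
      rw [← mul_pow, ← sq_abs (H (k + 1) - H k)]
      exact pow_le_pow_left₀ (abs_nonneg _) hz 2
    have hsumH : ∑ k ∈ Finset.range n, (H (k + 1) - H k) ^ 2 ≤ n * ((2 * K) ^ 2 * r ^ 2) := by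
      refine (Finset.sum_le_sum fun k hk => hH2 k (Finset.mem_range.1 hk)).trans ?_
      rw [Finset.sum_const, Finset.card_range, nsmul_eq_mul]
    have hsumP := Finset.sum_le_sum fun k hk => hstep k (Finset.mem_range.1 hk)
    rw [Finset.sum_range_sub (fun k => Pot T B (g k) (dd (g k)) (ll (g k))),
      Finset.sum_add_distrib, Finset.sum_sub_distrib, Finset.sum_add_distrib,
      Finset.sum_neg_distrib,
      Finset.sum_range_sub (fun k => Prim Bs (X k)), Finset.sum_range_sub (fun k => Prim B (X k)),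
      Finset.sum_const,
      Finset.card_range, nsmul_eq_mul, gn, g0] at hsumP
    have eX0 : X 0 = XX dd ll xs := by simp only [hX, g0]
    have eXn : X n = XX dd ll xe := by simp only [hX, gn]
    have eH0 : H 0 = Bs (XX dd ll xs) - YY T dd ll xs := by simp only [hHd, g0]
    have eHn : H n = Bs (XX dd ll xe) - YY T dd ll xe := by simp only [hHd, gn]
    rw [eX0, eXn] at hsumP
    rw [eH0, eHn] at hlay
    have er : (n:ℝ) * r ^ 2 = (xe - xs) ^ 2 * (1 / n) := by
      rw [hr]; field_simp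
    have hl2 : C / 2 * ∑ k ∈ Finset.range n, (H (k + 1) - H k) ^ 2 ≤
        C / 2 * (n * ((2 * K) ^ 2 * r ^ 2)) :=
      mul_le_mul_of_nonneg_left hsumH (by positivity)
    have e3 : C / 2 * (n * ((2 * K) ^ 2 * r ^ 2)) + n * (K ^ 2 * r ^ 2) =
        (C * (2 * K) ^ 2 / 2 + K ^ 2) * (xe - xs) ^ 2 * (1 / n) := by
      rw [mul_assoc (C * (2 * K) ^ 2 / 2 + K ^ 2), ← er]; ring
    unfold Sm at hlay
    linarith
  -- the limit
  have hlim : Filter.Tendsto (fun n : ℕ => (Prim Bs (XX dd ll xe) - Prim Bs (XX dd ll xs)) -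
        (Prim B (XX dd ll xe) - Prim B (XX dd ll xs))
      + C * ((Bs (XX dd ll xs) - YY T dd ll xs) ^ 2 + (Bs (XX dd ll xe) - YY T dd ll xe) ^ 2)
      + (C * (2 * K) ^ 2 / 2 + K ^ 2) * (xe - xs) ^ 2 * (1 / (n:ℝ))) Filter.atTop
      (nhds ((Prim Bs (XX dd ll xe) - Prim Bs (XX dd ll xs)) -
        (Prim B (XX dd ll xe) - Prim B (XX dd ll xs))
      + C * ((Bs (XX dd ll xs) - YY T dd ll xs) ^ 2 + (Bs (XX dd ll xe) - YY T dd ll xe) ^ 2)
      + (C * (2 * K) ^ 2 / 2 + K ^ 2) * (xe - xs) ^ 2 * 0)) :=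
    tendsto_const_nhds.add (tendsto_one_div_atTop_nhds_zero_nat.const_mul _)
  have := ge_of_tendsto hlim (Filter.eventually_atTop.2 ⟨1, fun n hn => main n hn⟩)
  rw [mul_zero, add_zero] at this
  have e : ((Bs (XX dd ll xs) - YY T dd ll xs) ^ 2 + (Bs (XX dd ll xe) - YY T dd ll xe) ^ 2) /
      (1 - L') = C * ((Bs (XX dd ll xs) - YY T dd ll xs) ^ 2 +
        (Bs (XX dd ll xe) - YY T dd ll xe) ^ 2) := by
    rw [hC]; ring
  rw [e]
  exact this

theorem area_up (hT : Lip L T) (hB : Lip L B) (L0 : 0 ≤ L) (L1 : L < 1) {a b : ℝ} (hab : a < b)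
    (ha : T a = B a) (hb : T b = B b) (hBT : ∀ x, B x ≤ T x) {x0 : ℝ} (hx0 : x0 ∈ Icc a b)
    (hg : B x0 < T x0)
    (hup : ∀ x ∈ Icc a b, ∀ d l, ESq T B x d l → T x + d - l ≤ B (x + d + l)) : False := by
  obtain ⟨M, hMd⟩ : ∃ M, M = T x0 - B x0 := ⟨_, rfl⟩
  have hM : 0 < M := by linarith
  choose dd ll hS using fun x => ESq.ex hT hB L0 L1 (hBT x)
  have q0 : 0 < 1 - L := by linarith
  obtain ⟨da, la⟩ := (hS a).degen hT hB L0 L1 ha
  obtain ⟨db, lb⟩ := (hS b).degen hT hB L0 L1 hb
  have Xa : XX dd ll a = a := by unfold XX; rw [da, la]; ring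
  have Xb : XX dd ll b = b := by unfold XX; rw [db, lb]; ring
  have Ya : YY T dd ll a = B a := by unfold YY; rw [da, la, ha]; ring
  have Yb : YY T dd ll b = B b := by unfold YY; rw [db, lb, hb]; ring
  have Pa : Pot T B a (dd a) (ll a) = 0 := by rw [da, la]; exact Pot_zero a
  have Pb : Pot T B b (dd b) (ll b) = 0 := by rw [db, lb]; exact Pot_zero b
  have hgap : ∀ x y, T x - B x - 2 * |x - y| ≤ T y - B y := by
    intro x y
    have h1 := (abs_le.1 (hT x y)).2
    have h2 := (abs_le.1 (hB x y)).1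
    have h3 : L * |x - y| ≤ |x - y| := by
      have := mul_le_mul_of_nonneg_right L1.le (abs_nonneg (x - y))
      linarith
    linarith
  have ga := hgap x0 a
  have gb := hgap x0 b
  rw [ha, sub_self, abs_of_nonneg (by linarith [hx0.1] : 0 ≤ x0 - a)] at ga
  rw [hb, sub_self, abs_of_nonpos (by linarith [hx0.2] : x0 - b ≤ 0)] at gb
  have hup' : ∀ x ∈ Icc a b, YY T dd ll x ≤ B (XX dd ll x) :=
    fun x hx => hup x hx _ _ (hS x)
  have cB := hB.cont
  by_cases hcase : ∃ x ∈ Icc a b, M / 8 ≤ ll x ∧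
      B (XX dd ll x) - YY T dd ll x ≤ (1 - L) / 4 * ll x
  · obtain ⟨x, hx, hl, hh⟩ := hcase
    have hA := path_area_up hT hB L0 L1 hB L0 L1 hx.1 (dd := dd) (ll := ll)
      (fun y _ => hS y) (fun y hy => hup' y ⟨hy.1, hy.2.trans hx.2⟩)
    rw [Xa, Ya, Pa] at hA
    have hP := (hS x).pot_lower hT hB
    have hh2 := hup' x hx
    set l := ll x with hld
    set h := B (XX dd ll x) - YY T dd ll x with hhd
    have e1 : T x + dd x - l - B (x + dd x + l) = -h := by
      rw [hhd]; unfold XX YY; ring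
    rw [e1] at hP
    have l0 : 0 ≤ l := (hS x).l0
    have h0 : 0 ≤ h := by rw [hhd]; linarith
    have s1 : h ^ 2 ≤ ((1 - L) / 4 * l) ^ 2 := pow_le_pow_left₀ h0 hh 2
    have s4 : h ^ 2 / (1 - L) ≤ (1 - L) * l ^ 2 / 16 := by
      rw [div_le_iff₀ q0]
      have : ((1 - L) / 4 * l) ^ 2 = (1 - L) * l ^ 2 / 16 * (1 - L) := by ring
      linarith
    have s5 : l * h ≤ l * ((1 - L) / 4 * l) := mul_le_mul_of_nonneg_left hh l0
    have lp : 0 < l := by linarith
    have s7 : 0 < (1 - L) * l ^ 2 := mul_pos q0 (pow_pos lp 2)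
    have e2 : (B a - B a) ^ 2 + h ^ 2 = h ^ 2 := by ring
    rw [e2] at hA
    linarith
  · push Not at hcase
    have c0 : 0 ≤ (1 - L) / 8 := by linarith
    have hBsL : Lip (L + (1 - L) / 8) (fun t => B t + -(Tent ((1 - L) / 8) (M / 4) x0 t)) := by
      refine hB.add ?_
      intro s t
      have := Tent.lip c0 (M / 4) x0 s t
      show |-Tent ((1 - L) / 8) (M / 4) x0 s - -Tent ((1 - L) / 8) (M / 4) x0 t| ≤ _
      rw [show -Tent ((1 - L) / 8) (M / 4) x0 s - -Tent ((1 - L) / 8) (M / 4) x0 t =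
        -(Tent ((1 - L) / 8) (M / 4) x0 s - Tent ((1 - L) / 8) (M / 4) x0 t) by ring, abs_neg]
      exact this
    have hA := path_area_up (L' := L + (1 - L) / 8) hT hB L0 L1
      hBsL (by linarith) (by linarith) hab.le
      (dd := dd) (ll := ll) (fun y _ => hS y) (fun y hy => by
        have h1 := hup' y hy
        show _ ≤ B (XX dd ll y) + -(Tent ((1 - L) / 8) (M / 4) x0 (XX dd ll y))
        unfold Tent
        by_cases hXy : |XX dd ll y - x0| < M / 4
        · have g1 := hgap x0 (XX dd ll y)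
          rw [abs_sub_comm] at g1
          have g2 := (hS y).gap_le hT hB L0 L1
          have g3 : T (XX dd ll y) - B (XX dd ll y) ≤ 4 * ll y := g2
          have hly : M / 8 ≤ ll y := by linarith
          have h2 := hcase y hy hly
          have h3 : (1 - L) / 4 * (M / 8) ≤ (1 - L) / 4 * ll y :=
            mul_le_mul_of_nonneg_left hly (by linarith)
          have h4 : (1 - L) / 8 * max 0 (M / 4 - |XX dd ll y - x0|) ≤ (1 - L) / 8 * (M / 4) :=
            mul_le_mul_of_nonneg_left
              (max_le (by linarith) (by linarith [abs_nonneg (XX dd ll y - x0)])) c0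
          linarith
        · push Not at hXy
          rw [max_eq_left (by linarith), mul_zero]
          linarith)
    have haM : a ≤ x0 - M / 4 / 2 := by linarith
    have hbM : x0 + M / 4 / 2 ≤ b := by linarith
    have hTa := Tent.area c0 (by linarith : (0:ℝ) ≤ M / 4) haM hbM
    have cT := (Tent.lip c0 (M / 4) x0).cont
    have cT' : Continuous fun t => -(Tent ((1 - L) / 8) (M / 4) x0 t) := cT.neg
    have eneg : Prim (fun t => -(Tent ((1 - L) / 8) (M / 4) x0 t)) b -
        Prim (fun t => -(Tent ((1 - L) / 8) (M / 4) x0 t)) a =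
        -(Prim (Tent ((1 - L) / 8) (M / 4) x0) b - Prim (Tent ((1 - L) / 8) (M / 4) x0) a) := by
      rw [Prim_sub cT', Prim_sub cT, intervalIntegral.integral_neg]
    rw [Xa, Xb, Ya, Yb, Pa, Pb, Prim_add cB cT', eneg] at hA
    have ta : Tent ((1 - L) / 8) (M / 4) x0 a = 0 := by
      unfold Tent
      rw [max_eq_left, mul_zero]
      rw [abs_sub_comm, abs_of_nonneg (by linarith [hx0.1])]
      linarith
    have tb : Tent ((1 - L) / 8) (M / 4) x0 b = 0 := by
      unfold Tent
      rw [max_eq_left, mul_zero]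
      rw [abs_of_nonneg (by linarith [hx0.2])]
      linarith
    rw [ta, tb, show B a + -0 - B a = 0 by ring, show B b + -0 - B b = 0 by ring] at hA
    have s7 : 0 < (1 - L) / 8 * (M / 4) ^ 2 / 2 := by positivity
    have e2 : (0:ℝ) ^ 2 + 0 ^ 2 = 0 := by norm_num
    rw [e2, zero_div] at hA
    linarith

end Pool.Agent.Y450.Horn
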