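import Pool.Agent.Y450.Horn.Guard

/-! Arcs of any shape behind a gate, in terms of `Arc`. -/

set_option autoImplicit false

namespace Pool.Agent.Y450.Horn

open H145R2.SqComb H145R2.TSq Set Filter Topology Complex
open Pool.Agent.TH587 (Spec Sep)

variable {γ : ℝ → ℂ} {δ L : ℝ}

theorem sep_gate (hγ : Jor γ) (hδ2 : δ < 1/2) {e : ℂ} {X Y : ℝ → ℝ}
    (hX : ∀ r, X r = ((starRingEnd ℂ) e * γ r).re)
    (hY : (∀ r, Y r = ((starRingEnd ℂ) e * γ r).im) ∨ (∀ r, Y r = -((starRingEnd ℂ) e * γ r).im))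
    (L1 : L < 1) {s₀ s s₁ t₁ t t₀ τ : ℝ}
    (o1 : s₀ < s) (o2 : s < s₁) (o3 : s₁ ≤ t₁) (o4 : t₁ < t) (o5 : t < t₀) (hst : t₀ - s₀ < δ)
    (hτ1 : s < τ) (hτ2 : τ < t) (ha : Arc γ L (-e) s₀ s₁) (hb : Arc γ L e t₁ t₀)
    (hx : X s₁ = X t₁) (hord : Y t < Y s)
    (hU : ∃ s' ∈ Icc s₀ s₁, X s' = X s + (Y s - Y t) ∧ Y s + (X t - X s) < Y s')
    (hD : ∃ t' ∈ Icc t₁ t₀, X t' = X t + (Y s - Y t) ∧ Y t' < Y t + (X t - X s))
    (hW : ∀ r ∈ Icc s₁ t₁, L * |Y r - Y s| < X s - X r ∧ L * |Y r - Y t| < X t - X r)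
    (hfar : ∀ r ∈ Icc s t, ∀ r' ∈ Icc s t,
      ‖γ r - γ r'‖ < ‖γ s₀ - γ r‖ ∧ ‖γ r - γ r'‖ < ‖γ t₀ - γ r‖) : Sep γ δ τ := by
  have L0 : 0 ≤ L := by
    obtain ⟨k1, k2⟩ := hb t₁ t₀ le_rfl (by linarith) le_rfl
    by_contra hneg
    push Not at hneg
    have := mul_neg_of_neg_of_pos hneg k1
    have := (abs_nonneg _).trans k2
    linarith
  have eX : ∀ r r', X r - X r' = ((starRingEnd ℂ) e * (γ r - γ r')).re := by
    intro r r'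
    rw [hX, hX, ← sub_re]; congr 1; ring
  have eY : ∀ r r', |Y r - Y r'| = |((starRingEnd ℂ) e * (γ r - γ r')).im| := by
    intro r r'
    have e1 : ((starRingEnd ℂ) e * (γ r - γ r')).im = ((starRingEnd ℂ) e * γ r).im -
        ((starRingEnd ℂ) e * γ r').im := by
      rw [← sub_im]; congr 1; ring
    rcases hY with h | h
    · rw [h, h, e1]
    · rw [h, h, e1, show -((starRingEnd ℂ) e * γ r).im - -((starRingEnd ℂ) e * γ r').im =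
        -(((starRingEnd ℂ) e * γ r).im - ((starRingEnd ℂ) e * γ r').im) by ring, abs_neg]
  refine sep_gate_aux hγ hδ2 X Y hX hY L0 L1 o1 o2 o3 o4 o5 hst hτ1 hτ2 ?_ ?_ hx hord hU hD hW
    hfar
  · intro r r' h1 h2 h3
    obtain ⟨k1, k2⟩ := ha r r' h1 h2 h3
    have e1 : (starRingEnd ℂ) (-e) * (γ r' - γ r) = (starRingEnd ℂ) e * (γ r - γ r') := by
      rw [map_neg]; ring
    rw [e1] at k1 k2
    rw [eX, eY]
    exact ⟨k1, k2⟩
  · intro r r' h1 h2 h3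
    obtain ⟨k1, k2⟩ := hb r r' h1 h2 h3
    rw [eX, eY]
    exact ⟨k1, k2⟩

end Pool.Agent.Y450.Horn
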