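import Pool.Agent.Y450.Horn.TipW
import Pool.Agent.Y450.Horn.Wild

/-! Wild tips of horns which are wide somewhere. -/

set_option autoImplicit false

namespace Pool.Agent.Y450.Horn

open H145R2.SqComb H145R2.TSq Set Filter Topology Complex
open Pool.Agent.TH587 (Spec Sep)
open Pool.Agent.Y450.Stab (Lip Lip.cont)

variable {γ : ℝ → ℂ} {δ L : ℝ}

/-- the cone condition -/
theorem cone_ok (L0 : 0 ≤ L) (L1 : L < 1) {H a x y y' : ℝ} (ha : H < (1 - L) * a)
    (hx : x ≤ H) (hy : |y| ≤ H) (hy' : |y'| ≤ L * a) : L * |y - y'| < a - x := by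
  have h1 : |y - y'| ≤ H + L * a := (abs_sub _ _).trans (add_le_add hy hy')
  have h2 := mul_le_mul_of_nonneg_left h1 L0
  have h3 : (1 + L) * H < (1 + L) * ((1 - L) * a) :=
    mul_lt_mul_of_pos_left ha (by linarith)
  have e : (1 + L) * ((1 - L) * a) = a - L * (L * a) := by ring
  linarith

/-- the side of the square is positive -/
theorem side_pos {T B : ℝ → ℝ} (hT : Lip L T) (hB : Lip L B) (L0 : 0 ≤ L) (L1 : L < 1) {a b : ℝ}
    (hab : B a ≤ T a) (h1 : f1 T B a b < 0) (h2 : 0 < f2 T B a b) : 0 < T a - B b := by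
  by_contra hneg
  push Not at hneg
  unfold f1 at h1
  unfold f2 at h2
  have k1 := (abs_le.1 (hT (a + T a - B b) a)).2
  have k2 := (abs_le.1 (hB (b + T a - B b) b)).1
  rw [show a + T a - B b - a = T a - B b by ring, abs_of_nonpos hneg] at k1
  rw [show b + T a - B b - b = T a - B b by ring, abs_of_nonpos hneg] at k2
  have k3 : |b - a| ≤ -(L * (T a - B b)) := abs_le.2 ⟨by linarith, by linarith⟩
  have k4 := (abs_le.1 (hB b a)).2
  have k5 := mul_le_mul_of_nonneg_left k3 L0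
  have q : 0 < 1 - L ^ 2 := by nlinarith
  have k6 : 0 ≤ (1 - L ^ 2) * (T a - B b) := by
    have : L * -(L * (T a - B b)) = -(L ^ 2 * (T a - B b)) := by ring
    linarith
  have k7 : 0 ≤ T a - B b := by
    by_contra hh
    push Not at hh
    have := mul_neg_of_pos_of_neg q hh
    linarith
  have k8 : T a - B b = 0 := le_antisymm hneg k7
  rw [k8, mul_zero, neg_zero] at k3
  have k9 := abs_eq_zero.1 (le_antisymm k3 (abs_nonneg _))
  rw [show a + T a - B b = a by linarith] at h1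
  linarith

theorem sep_wide_aux (hγ : Jor γ) (hδ2 : δ < 1/2) {e : ℂ} {X Y : ℝ → ℝ}
    (hX : ∀ r, X r = ((starRingEnd ℂ) e * γ r).re)
    (hY : (∀ r, Y r = ((starRingEnd ℂ) e * γ r).im) ∨ (∀ r, Y r = -((starRingEnd ℂ) e * γ r).im))
    (L1 : L < 1) {s₀ s s₁ t₁ t t₀ τ : ℝ}
    (o1 : s₀ < s) (o2 : s < s₁) (o3 : s₁ ≤ t₁) (o4 : t₁ < t) (o5 : t < t₀) (hst : t₀ - s₀ < δ)
    (hτ1 : s₁ ≤ τ) (hτ2 : τ ≤ t₁) (ha : Arc γ L (-e) s₀ s₁) (hb : Arc γ L e t₁ t₀)
    (hx : X s₁ = X t₁) (hxst : X s = X t) (hord : Y t < Y s) {H : ℝ} (hH : 0 ≤ H)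
    (hW : ∀ r ∈ Icc s₁ t₁, |X r - X s₁| ≤ H ∧ |Y r - Y s₁| ≤ H ∧ |Y r - Y t₁| ≤ H)
    (hMH : 2000 * H ≤ (1 - L) ^ 4 * (Y s - Y t))
    (hf1 : 5 * (X s - X s₁) ≤ X s₀ - X s₁ + H) (hf2 : 5 * (X s - X s₁) ≤ X t₀ - X s₁ + H) :
    Sep γ δ τ := by
  have L0 : 0 ≤ L := by
    obtain ⟨k1, k2⟩ := hb t₁ t₀ le_rfl (by linarith) le_rfl
    by_contra hneg
    push Not at hneg
    have := mul_neg_of_neg_of_pos hneg k1
    have := (abs_nonneg _).trans k2
    linarith
  have he : e ≠ 0 := by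
    rintro rfl
    have := (hb t₁ t₀ le_rfl (by linarith) le_rfl).1
    simp at this
  have hn : 0 < ‖e‖ := norm_pos_iff.2 he
  have eX : ∀ r r', X r - X r' = ((starRingEnd ℂ) e * (γ r - γ r')).re := by
    intro r r'
    rw [hX, hX, ← sub_re]; congr 1; ring
  have eY : ∀ r r', |Y r - Y r'| = |((starRingEnd ℂ) e * (γ r - γ r')).im| := by
    intro r r'
    have e1 : ((starRingEnd ℂ) e * (γ r - γ r')).im = ((starRingEnd ℂ) e * γ r).im -
        ((starRingEnd ℂ) e * γ r').im := by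
      rw [← sub_im]; congr 1; ring
    rcases hY with h | h
    · rw [h, h, e1]
    · rw [h, h, e1, show -((starRingEnd ℂ) e * γ r).im - -((starRingEnd ℂ) e * γ r').im =
        -(((starRingEnd ℂ) e * γ r).im - ((starRingEnd ℂ) e * γ r').im) by ring, abs_neg]
  have ga : ∀ r r', s₀ ≤ r → r < r' → r' ≤ s₁ → 0 < X r - X r' ∧ |Y r - Y r'| ≤ L * (X r - X r') := by
    intro r r' h1 h2 h3
    obtain ⟨k1, k2⟩ := ha r r' h1 h2 h3
    have e1 : (starRingEnd ℂ) (-e) * (γ r' - γ r) = (starRingEnd ℂ) e * (γ r - γ r') := by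
      rw [map_neg]; ring
    rw [e1] at k1 k2
    rw [eX, eY]
    exact ⟨k1, k2⟩
  have gb : ∀ r r', t₁ ≤ r → r < r' → r' ≤ t₀ → 0 < X r' - X r ∧ |Y r' - Y r| ≤ L * (X r' - X r) := by
    intro r r' h1 h2 h3
    obtain ⟨k1, k2⟩ := hb r r' h1 h2 h3
    rw [eX, eY]
    exact ⟨k1, k2⟩
  have cX : Continuous X := by
    have : X = fun r => ((starRingEnd ℂ) e * γ r).re := funext hX
    rw [this]
    exact Complex.continuous_re.comp (continuous_const.mul hγ.cont)
  have mono_a : ∀ r ∈ Icc s₀ s₁, ∀ r' ∈ Icc s₀ s₁, |Y r - Y r'| ≤ L * |X r - X r'| := by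
    intro r hr r' hr'
    rcases lt_trichotomy r r' with h | h | h
    · obtain ⟨k1, k2⟩ := ga r r' hr.1 h hr'.2
      rwa [abs_of_pos k1]
    · rw [h]; simp
    · obtain ⟨k1, k2⟩ := ga r' r hr'.1 h hr.2
      rw [abs_sub_comm, abs_sub_comm (X r), abs_of_pos k1]
      exact k2
  have mono_b : ∀ r ∈ Icc t₁ t₀, ∀ r' ∈ Icc t₁ t₀, |Y r - Y r'| ≤ L * |X r - X r'| := by
    intro r hr r' hr'
    rcases lt_trichotomy r r' with h | h | h
    · obtain ⟨k1, k2⟩ := gb r r' hr.1 h hr'.2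
      rw [abs_sub_comm, abs_sub_comm (X r), abs_of_pos k1]
      exact k2
    · rw [h]; simp
    · obtain ⟨k1, k2⟩ := gb r' r hr'.1 h hr.2
      rwa [abs_of_pos k1]
  obtain ⟨T, hT, hTx⟩ := arm (x := fun r => X r - X s₁) (y := Y) (S := Icc s₀ s₁) L0 (by
    intro r hr r' hr' h
    simp only at h
    rcases lt_trichotomy r r' with h' | h' | h'
    · linarith [(ga r r' hr.1 h' hr'.2).1]
    · exact h'
    · linarith [(ga r' r hr'.1 h' hr.2).1]) (by
    intro r hr r' hr'
    rw [show X r - X s₁ - (X r' - X s₁) = X r - X r' by ring]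
    exact mono_a r hr r' hr')
  obtain ⟨B, hB, hBx⟩ := arm (x := fun r => X r - X s₁) (y := Y) (S := Icc t₁ t₀) L0 (by
    intro r hr r' hr' h
    simp only at h
    rcases lt_trichotomy r r' with h' | h' | h'
    · linarith [(gb r r' hr.1 h' hr'.2).1]
    · exact h'
    · linarith [(gb r' r hr'.1 h' hr.2).1]) (by
    intro r hr r' hr'
    rw [show X r - X s₁ - (X r' - X s₁) = X r - X r' by ring]
    exact mono_b r hr r' hr')
  have ms1 : s₁ ∈ Icc s₀ s₁ := ⟨by linarith, le_rfl⟩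
  have mt1 : t₁ ∈ Icc t₁ t₀ := ⟨le_rfl, by linarith⟩
  have ms : s ∈ Icc s₀ s₁ := ⟨o1.le, o2.le⟩
  have mt : t ∈ Icc t₁ t₀ := ⟨o4.le, o5.le⟩
  have ms0 : s₀ ∈ Icc s₀ s₁ := ⟨le_rfl, by linarith⟩
  have mt0 : t₀ ∈ Icc t₁ t₀ := ⟨by linarith, le_rfl⟩
  have T0 : T 0 = Y s₁ := by
    have := hTx s₁ ms1
    rwa [sub_self] at this
  have B0 : B 0 = Y t₁ := by
    have := hBx t₁ mt1
    rwa [← hx, sub_self] at this
  obtain ⟨x0, hx0⟩ : ∃ x0, x0 = X s - X s₁ := ⟨_, rfl⟩
  have x0p : 0 < x0 := by rw [hx0]; exact (ga s s₁ o1.le o2 le_rfl).1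
  have Tx0 : T x0 = Y s := by rw [hx0]; exact hTx s ms
  have Bx0 : B x0 = Y t := by rw [hx0, hxst]; exact hBx t mt
  have Xs0 : x0 < X s₀ - X s₁ := by
    have := (ga s₀ s le_rfl o1 o2.le).1
    linarith
  have Xt0 : x0 < X t₀ - X s₁ := by
    have := (gb t t₀ o4.le o5 le_rfl).1
    linarith
  have hg0 : T 0 - B 0 ≤ H := by
    rw [T0, B0]
    exact (le_abs_self _).trans (hW s₁ ⟨le_rfl, o3⟩).2.2
  -- parameters of the points over an abscissa
  have getS : ∀ v, 0 ≤ v → v ≤ X s₀ - X s₁ → ∃ r ∈ Icc s₀ s₁, X r - X s₁ = v ∧ Y r = T v := by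
    intro v h1 h2
    obtain ⟨r, hr, hrv⟩ := intermediate_value_Icc' (by linarith : s₀ ≤ s₁)
      (cX.sub continuous_const).continuousOn (f := fun r => X r - X s₁)
      ⟨by rw [sub_self]; exact h1, h2⟩
    refine ⟨r, hr, hrv, ?_⟩
    rw [← hrv]
    exact (hTx r hr).symm
  have getT : ∀ v, 0 ≤ v → v ≤ X t₀ - X s₁ → ∃ r ∈ Icc t₁ t₀, X r - X s₁ = v ∧ Y r = B v := by
    intro v h1 h2
    obtain ⟨r, hr, hrv⟩ := intermediate_value_Icc (by linarith : t₁ ≤ t₀)
      (cX.sub continuous_const).continuousOn (f := fun r => X r - X s₁)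
      ⟨by rw [← hx, sub_self]; exact h1, h2⟩
    refine ⟨r, hr, hrv, ?_⟩
    rw [← hrv]
    exact (hBx r hr).symm
  have hlt : ∀ x, 0 ≤ x → x ≤ x0 → B x ≤ T x := by
    intro x h1 h2
    by_contra hneg
    push Not at hneg
    obtain ⟨z, hz, hz0⟩ := intermediate_value_Icc h2
      ((hT.cont.sub hB.cont).continuousOn (s := Icc x x0)) (f := fun v => T v - B v)
      (show (0:ℝ) ∈ Icc (T x - B x) (T x0 - B x0) from
        ⟨by linarith, by rw [Tx0, Bx0]; linarith⟩)
    simp only at hz0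
    have hzp : 0 < z := by
      rcases (h1.trans hz.1).eq_or_lt with h | h
      · rw [← h] at hz0
        have : x = 0 := le_antisymm (by rw [h]; exact hz.1) h1
        rw [this] at hneg
        linarith
      · exact h
    obtain ⟨r, hr, k1, k2⟩ := getS z hzp.le (by linarith [hz.2])
    obtain ⟨r', hr', k3, k4⟩ := getT z hzp.le (by linarith [hz.2])
    have hre : ((starRingEnd ℂ) e * (γ r - γ r')).re = 0 := by
      rw [← eX]; linarith
    have him : ((starRingEnd ℂ) e * (γ r - γ r')).im = 0 := by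
      rw [← abs_eq_zero, ← eY, abs_eq_zero]; linarith
    have h0 : (starRingEnd ℂ) e * (γ r - γ r') = 0 := Complex.ext hre him
    rcases mul_eq_zero.1 h0 with h | h
    · exact he ((map_eq_zero _).1 h)
    · obtain ⟨n, hn'⟩ := hγ.inj r r' (sub_eq_zero.1 h)
      have hrs : r < s₁ := by
        rcases hr.2.lt_or_eq with h | h
        · exact h
        · rw [h, sub_self] at k1; linarith
      have c1 : (n:ℝ) < 0 := by linarith [hr'.1]
      have c2 : (-1:ℝ) < n := by linarith [hr'.2, hr.1]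
      have c3 : n < 0 := by exact_mod_cast c1
      have c4 : -1 < n := by exact_mod_cast c2
      omega
  have hMp : 0 < T x0 - B x0 := by rw [Tx0, Bx0]; linarith
  obtain ⟨a, b, ha1, ha2, hb1, hb2, hf, hg⟩ := tip_wild hT hB L0 L1 hH x0p hg0 hlt hMp
    (by rw [Tx0, Bx0]; exact hMH)
  have q0 : 0 < 1 - L := by linarith
  have ap : 0 < a := by
    by_contra hneg
    push Not at hneg
    have := mul_nonpos_of_nonneg_of_nonpos q0.le hneg
    linarith
  have bp : 0 < b := by
    by_contra hneg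
    push Not at hneg
    have := mul_nonpos_of_nonneg_of_nonpos q0.le hneg
    linarith
  have hl := side_pos hT hB L0 L1 (hlt a ap.le ha2) hf hg
  -- the size of `x0`
  have q4 : (1 - L) ^ 4 ≤ 1 := pow_le_one₀ q0.le (by linarith)
  have hMle : ∀ u v, 0 ≤ u → 0 ≤ v → T u - B v ≤ H + (u + v) := by
    intro u v hu hv
    have h1 := (abs_le.1 (hT u 0)).2
    have h2 := (abs_le.1 (hB v 0)).1
    rw [sub_zero, abs_of_nonneg hu] at h1
    rw [sub_zero, abs_of_nonneg hv] at h2
    have h3 := mul_le_mul_of_nonneg_right L1.le hu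
    have h4 := mul_le_mul_of_nonneg_right L1.le hv
    linarith
  have hx0H : 900 * H ≤ x0 := by
    have h1 := hMle x0 x0 x0p.le x0p.le
    have h2 := mul_le_mul_of_nonneg_right q4 hMp.le
    rw [Tx0, Bx0] at h1 h2
    linarith
  have hlle := hMle a b ap.le bp.le
  rw [← hx0] at hf1 hf2
  obtain ⟨s', hs', es', es''⟩ := getS a ap.le (by linarith)
  obtain ⟨t', ht', et', et''⟩ := getT b bp.le (by linarith)
  obtain ⟨u, hu, eu, eu'⟩ := getS (a + T a - B b) (by linarith) (by linarith)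
  obtain ⟨w, hw, ew, ew'⟩ := getT (b + T a - B b) (by linarith) (by linarith)
  have hs1' : s' < s₁ := by
    rcases hs'.2.lt_or_eq with h | h
    · exact h
    · rw [h, sub_self] at es'; linarith
  have ht1' : t₁ < t' := by
    rcases ht'.1.lt_or_eq with h | h
    · exact h
    · rw [← h, ← hx, sub_self] at et'; linarith
  have hs0' : s₀ < s' := by
    rcases hs'.1.lt_or_eq with h | h
    · exact h
    · rw [← h] at es'; linarith
  have ht0' : t' < t₀ := by
    rcases ht'.2.lt_or_eq with h | h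
    · exact h
    · rw [h] at et'; linarith
  have ys : |Y s' - Y s₁| ≤ L * a := by
    have := mono_a s' hs' s₁ ms1
    rwa [es', abs_of_pos ap] at this
  have yt : |Y t' - Y t₁| ≤ L * b := by
    have := mono_b t' ht' t₁ mt1
    rwa [← hx, et', abs_of_pos bp] at this
  refine sep_gate hγ hδ2 hX hY L1 (s := s') (t := t') hs0' hs1' o3 ht1' ht0' hst (by linarith)
    (by linarith) ha hb hx ?_ ?_ ?_ ?_ ?_
  · rw [es'', et'']; linarith
  · refine ⟨u, hu, ?_, ?_⟩
    · rw [es'', et'']; linarith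
    · rw [eu', es'']
      unfold f1 at hf
      linarith
  · refine ⟨w, hw, ?_, ?_⟩
    · rw [es'', et'']; linarith
    · rw [ew', et'']
      unfold f2 at hg
      linarith
  · intro r hr
    obtain ⟨w1, w2, w3⟩ := hW r hr
    have w1' := (abs_le.1 w1).2
    constructor
    · have := cone_ok L0 L1 ha1 w1' w2 ys
      rw [show Y r - Y s₁ - (Y s' - Y s₁) = Y r - Y s' by ring] at this
      linarith
    · have := cone_ok L0 L1 hb1 w1' w3 yt
      rw [show Y r - Y t₁ - (Y t' - Y t₁) = Y r - Y t' by ring] at this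
      linarith
  · -- distances
    have hpt : ∀ r ∈ Icc s' t', -H ≤ X r - X s₁ ∧ X r - X s₁ ≤ x0 ∧ |Y r - Y s₁| ≤ x0 + H := by
      intro r hr
      rcases le_total r s₁ with h1 | h1
      · have mr : r ∈ Icc s₀ s₁ := ⟨by linarith [hr.1], h1⟩
        have h2 : 0 ≤ X r - X s₁ := by
          rcases h1.lt_or_eq with h | h
          · exact (ga r s₁ mr.1 h le_rfl).1.le
          · rw [h, sub_self]
        have h3 : X r - X s₁ ≤ a := by
          rcases hr.1.lt_or_eq with h | h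
          · have := (ga s' r hs'.1 h h1).1
            linarith
          · rw [← h, es']
        have h4 := mono_a r mr s₁ ms1
        rw [abs_of_nonneg h2] at h4
        have h5 := mul_le_mul_of_nonneg_right L1.le h2
        refine ⟨by linarith, by linarith, by linarith⟩
      · rcases le_total r t₁ with h2 | h2
        · obtain ⟨w1, w2, w3⟩ := hW r ⟨h1, h2⟩
          have w1' := abs_le.1 w1
          exact ⟨by linarith [w1'.1], by linarith [w1'.2], by linarith⟩
        · have mr : r ∈ Icc t₁ t₀ := ⟨h2, by linarith [hr.2]⟩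
          have h3 : 0 ≤ X r - X s₁ := by
            rcases h2.lt_or_eq with h | h
            · have := (gb t₁ r le_rfl h mr.2).1
              linarith
            · rw [← h, ← hx, sub_self]
          have h4 : X r - X s₁ ≤ b := by
            rcases hr.2.lt_or_eq with h | h
            · have := (gb r t' h2 h ht'.2).1
              linarith
            · rw [h, et']
          have h5 := mono_b r mr t₁ mt1
          rw [← hx, abs_of_nonneg h3] at h5
          have h6 := mul_le_mul_of_nonneg_right L1.le h3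
          have h7 := (hW t₁ ⟨o3, le_rfl⟩).2.1
          have h8 : |Y r - Y s₁| ≤ |Y r - Y t₁| + |Y t₁ - Y s₁| := abs_sub_le _ _ _
          exact ⟨by linarith, by linarith, by linarith⟩
    intro r hr r' hr'
    obtain ⟨a1, a2, a3⟩ := hpt r hr
    obtain ⟨b1, b2, b3⟩ := hpt r' hr'
    have n1 : ‖e‖ * ‖γ r - γ r'‖ ≤ |X r - X r'| + |Y r - Y r'| := by
      rw [eX, eY, ← norm_conj e, ← norm_mul]
      exact Complex.norm_le_abs_re_add_abs_im _
    have n2 : |X r - X r'| ≤ x0 + H := abs_le.2 ⟨by linarith, by linarith⟩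
    have n3 : |Y r - Y r'| ≤ 2 * (x0 + H) := by
      have := abs_sub_le (Y r) (Y s₁) (Y r')
      rw [abs_sub_comm (Y s₁)] at this
      linarith
    have n4 : ∀ v, X v - X r ≤ ‖e‖ * ‖γ v - γ r‖ := by
      intro v
      rw [eX, ← norm_conj e, ← norm_mul]
      exact Complex.re_le_norm _
    constructor
    · refine lt_of_mul_lt_mul_left ?_ hn.le
      have := n4 s₀
      linarith
    · refine lt_of_mul_lt_mul_left ?_ hn.le
      have := n4 t₀
      linarith

end Pool.Agent.Y450.Horn
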