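import Pool.Agent.Y450.Horn.Wide

/-! Wild tips of horns which are wide somewhere, in terms of `Arc` and distances. -/

set_option autoImplicit false

namespace Pool.Agent.Y450.Horn

open H145R2.SqComb H145R2.TSq Set Filter Topology Complex
open Pool.Agent.TH587 (Spec Sep)

variable {γ : ℝ → ℂ} {δ L : ℝ}

theorem Arc.sub {e : ℂ} {a b a' b' : ℝ} (h : Arc γ L e a b) (h1 : a ≤ a') (h2 : b' ≤ b) :
    Arc γ L e a' b' := fun s t k1 k2 k3 => h s t (h1.trans k1) k2 (k3.trans h2)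

theorem sep_wide_pos (hγ : Jor γ) (hδ2 : δ < 1/2) {e : ℂ} {X Y : ℝ → ℝ}
    (hX : ∀ r, X r = ((starRingEnd ℂ) e * γ r).re)
    (hY : (∀ r, Y r = ((starRingEnd ℂ) e * γ r).im) ∨ (∀ r, Y r = -((starRingEnd ℂ) e * γ r).im))
    (L1 : L < 1) {s₀ s s₁ t₁ t t₀ τ η : ℝ}
    (o1 : s₀ < s) (o2 : s < s₁) (o3 : s₁ ≤ τ) (o4 : τ ≤ t₁) (o5 : t₁ < t) (o6 : t < t₀)
    (hst : t₀ - s₀ < δ) (ha : Arc γ L (-e) s₀ s₁) (hb : Arc γ L e t₁ t₀)
    (hxst : X s = X t) (hord : Y t < Y s)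
    (hW : ∀ r ∈ Icc s₁ t₁, |X r - X τ| ≤ η ∧ |Y r - Y τ| ≤ η)
    (hMH : 8000 * η ≤ (1 - L) ^ 4 * (Y s - Y t))
    (hf1 : 5 * (X s - X τ) ≤ X s₀ - X τ) (hf2 : 5 * (X s - X τ) ≤ X t₀ - X τ) :
    Sep γ δ τ := by
  have L0 : 0 ≤ L := by
    obtain ⟨k1, k2⟩ := hb t₁ t₀ le_rfl (by linarith) le_rfl
    by_contra hneg
    push Not at hneg
    have := mul_neg_of_neg_of_pos hneg k1
    have := (abs_nonneg _).trans k2
    linarith
  have eX : ∀ r r', X r - X r' = ((starRingEnd ℂ) e * (γ r - γ r')).re := by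
    intro r r'
    rw [hX, hX, ← sub_re]; congr 1; ring
  have eY : ∀ r r', |Y r - Y r'| = |((starRingEnd ℂ) e * (γ r - γ r')).im| := by
    intro r r'
    have e1 : ((starRingEnd ℂ) e * (γ r - γ r')).im = ((starRingEnd ℂ) e * γ r).im -
        ((starRingEnd ℂ) e * γ r').im := by
      rw [← sub_im]; congr 1; ring
    rcases hY with h | h
    · rw [h, h, e1]
    · rw [h, h, e1, show -((starRingEnd ℂ) e * γ r).im - -((starRingEnd ℂ) e * γ r').im =
        -(((starRingEnd ℂ) e * γ r).im - ((starRingEnd ℂ) e * γ r').im) by ring, abs_neg]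
  have ga : ∀ r r', s₀ ≤ r → r < r' → r' ≤ s₁ → 0 < X r - X r' ∧ |Y r - Y r'| ≤ L * (X r - X r') := by
    intro r r' h1 h2 h3
    obtain ⟨k1, k2⟩ := ha r r' h1 h2 h3
    have e1 : (starRingEnd ℂ) (-e) * (γ r' - γ r) = (starRingEnd ℂ) e * (γ r - γ r') := by
      rw [map_neg]; ring
    rw [e1] at k1 k2
    rw [eX, eY]
    exact ⟨k1, k2⟩
  have gb : ∀ r r', t₁ ≤ r → r < r' → r' ≤ t₀ → 0 < X r' - X r ∧ |Y r' - Y r| ≤ L * (X r' - X r) := by
    intro r r' h1 h2 h3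
    obtain ⟨k1, k2⟩ := hb r r' h1 h2 h3
    rw [eX, eY]
    exact ⟨k1, k2⟩
  have cX : Continuous X := by
    have : X = fun r => ((starRingEnd ℂ) e * γ r).re := funext hX
    rw [this]
    exact Complex.continuous_re.comp (continuous_const.mul hγ.cont)
  have η0 : 0 ≤ η := (abs_nonneg _).trans (hW s₁ ⟨le_rfl, by linarith⟩).1
  obtain ⟨ws1, ws2⟩ := hW s₁ ⟨le_rfl, by linarith⟩
  obtain ⟨wt1, wt2⟩ := hW t₁ ⟨by linarith, le_rfl⟩
  have ws1 := abs_le.1 ws1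
  have ws2 := abs_le.1 ws2
  have wt1 := abs_le.1 wt1
  have wt2 := abs_le.1 wt2
  rcases le_total (X s₁) (X t₁) with hc | hc
  · -- cut the first guard
    have h1 : X t₁ < X s := by
      have := (gb t₁ t le_rfl o5 o6.le).1
      linarith
    obtain ⟨s', hs', es'⟩ := intermediate_value_Icc' o2.le cX.continuousOn (f := X)
      (show X t₁ ∈ Icc (X s₁) (X s) from ⟨hc, h1.le⟩)
    have hs1 : s < s' := by
      rcases hs'.1.lt_or_eq with h | h
      · exact h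
      · rw [← h] at es'; linarith
    have key : ∀ r, s' ≤ r → r ≤ s₁ → X s₁ ≤ X r ∧ X r ≤ X s' ∧ |Y r - Y s₁| ≤ X r - X s₁ ∧
        |Y r - Y s'| ≤ X s' - X r := by
      intro r h2 h3
      have k1 : X s₁ ≤ X r ∧ |Y r - Y s₁| ≤ X r - X s₁ := by
        rcases h3.lt_or_eq with h | h
        · obtain ⟨k1, k2⟩ := ga r s₁ (by linarith) h le_rfl
          have := mul_le_mul_of_nonneg_right L1.le k1.le
          exact ⟨by linarith, by linarith⟩
        · rw [h]; simp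
      have k2 : X r ≤ X s' ∧ |Y r - Y s'| ≤ X s' - X r := by
        rcases h2.lt_or_eq with h | h
        · obtain ⟨k1, k2⟩ := ga s' r (by linarith) h h3
          have := mul_le_mul_of_nonneg_right L1.le k1.le
          rw [abs_sub_comm]
          exact ⟨by linarith, by linarith⟩
        · rw [h]; simp
      exact ⟨k1.1, k2.1, k1.2, k2.2⟩
    obtain ⟨j1, j2, j3, j4⟩ := key s₁ hs'.2 le_rfl
    have j4' := abs_le.1 j4
    refine sep_wide_aux hγ hδ2 hX hY L1 o1 hs1 (by linarith [hs'.2]) o5 o6 hst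
      (by linarith [hs'.2]) o4 (ha.sub le_rfl hs'.2) hb es' hxst hord (H := 4 * η) (by linarith) ?_
      (by linarith) (by linarith) (by linarith)
    intro r hr
    rcases le_total r s₁ with h2 | h2
    · obtain ⟨k1, k2, k3, k4⟩ := key r hr.1 h2
      have k3' := abs_le.1 k3
      have k4' := abs_le.1 k4
      refine ⟨abs_le.2 ⟨by linarith, by linarith⟩, abs_le.2 ⟨by linarith, by linarith⟩,
        abs_le.2 ⟨by linarith, by linarith⟩⟩
    · obtain ⟨w1, w2⟩ := hW r ⟨h2, hr.2⟩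
      have w1 := abs_le.1 w1
      have w2 := abs_le.1 w2
      refine ⟨abs_le.2 ⟨by linarith, by linarith⟩, abs_le.2 ⟨by linarith, by linarith⟩,
        abs_le.2 ⟨by linarith, by linarith⟩⟩
  · -- cut the second guard
    have h1 : X s₁ < X t := by
      have := (ga s s₁ o1.le o2 le_rfl).1
      linarith
    obtain ⟨t', ht', et'⟩ := intermediate_value_Icc o5.le cX.continuousOn (f := X)
      (show X s₁ ∈ Icc (X t₁) (X t) from ⟨hc, h1.le⟩)
    have ht1 : t' < t := by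
      rcases ht'.2.lt_or_eq with h | h
      · exact h
      · rw [h] at et'; linarith
    have key : ∀ r, t₁ ≤ r → r ≤ t' → X t₁ ≤ X r ∧ X r ≤ X t' ∧ |Y r - Y t₁| ≤ X r - X t₁ ∧
        |Y r - Y t'| ≤ X t' - X r := by
      intro r h2 h3
      have k1 : X t₁ ≤ X r ∧ |Y r - Y t₁| ≤ X r - X t₁ := by
        rcases h2.lt_or_eq with h | h
        · obtain ⟨k1, k2⟩ := gb t₁ r le_rfl h (by linarith)
          have := mul_le_mul_of_nonneg_right L1.le k1.le
          exact ⟨by linarith, by linarith⟩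
        · rw [h]; simp
      have k2 : X r ≤ X t' ∧ |Y r - Y t'| ≤ X t' - X r := by
        rcases h3.lt_or_eq with h | h
        · obtain ⟨k1, k2⟩ := gb r t' h2 h (by linarith)
          have := mul_le_mul_of_nonneg_right L1.le k1.le
          rw [abs_sub_comm]
          exact ⟨by linarith, by linarith⟩
        · rw [h]; simp
      exact ⟨k1.1, k2.1, k1.2, k2.2⟩
    obtain ⟨j1, j2, j3, j4⟩ := key t₁ le_rfl ht'.1
    have j4' := abs_le.1 j4
    refine sep_wide_aux hγ hδ2 hX hY L1 o1 o2 (by linarith [ht'.1]) ht1 o6 hst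
      o3 (by linarith [ht'.1]) ha (hb.sub ht'.1 le_rfl) et'.symm hxst hord (H := 4 * η)
      (by linarith) ?_ (by linarith) (by linarith) (by linarith)
    intro r hr
    rcases le_total t₁ r with h2 | h2
    · obtain ⟨k1, k2, k3, k4⟩ := key r h2 hr.2
      have k3' := abs_le.1 k3
      have k4' := abs_le.1 k4
      refine ⟨abs_le.2 ⟨by linarith, by linarith⟩, abs_le.2 ⟨by linarith, by linarith⟩,
        abs_le.2 ⟨by linarith, by linarith⟩⟩
    · obtain ⟨w1, w2⟩ := hW r ⟨hr.1, h2⟩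
      have w1 := abs_le.1 w1
      have w2 := abs_le.1 w2
      refine ⟨abs_le.2 ⟨by linarith, by linarith⟩, abs_le.2 ⟨by linarith, by linarith⟩,
        abs_le.2 ⟨by linarith, by linarith⟩⟩

/-- **Wild tips.** -/
theorem sep_wide (hγ : Jor γ) (hδ2 : δ < 1/2) {e : ℂ} (L1 : L < 1) {h s₀ s s₁ t₁ t t₀ τ : ℝ}
    (o1 : s₀ < s) (o2 : s < s₁) (o3 : s₁ ≤ τ) (o4 : τ ≤ t₁) (o5 : t₁ < t) (o6 : t < t₀)
    (hst : t₀ - s₀ < δ) (ha : Arc γ L (-e) s₀ s₁) (hb : Arc γ L e t₁ t₀)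
    (hW : ∀ r ∈ Icc s₁ t₁, ‖γ r - γ τ‖ ≤ h)
    (hv : ((starRingEnd ℂ) e * (γ s - γ t)).re = 0)
    (hM : 8000 * h ≤ (1 - L) ^ 4 * ‖γ s - γ t‖)
    (hf1 : 5 * ((starRingEnd ℂ) e * (γ s - γ τ)).re ≤ ((starRingEnd ℂ) e * (γ s₀ - γ τ)).re)
    (hf2 : 5 * ((starRingEnd ℂ) e * (γ s - γ τ)).re ≤ ((starRingEnd ℂ) e * (γ t₀ - γ τ)).re) :
    Sep γ δ τ := by
  have he : e ≠ 0 := by
    rintro rfl
    have := (hb t₁ t₀ le_rfl (by linarith) le_rfl).1
    simp at this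
  have hn : 0 < ‖e‖ := norm_pos_iff.2 he
  have q0 : 0 < 1 - L := by linarith
  obtain ⟨X, hX⟩ : ∃ X : ℝ → ℝ, ∀ r, X r = ((starRingEnd ℂ) e * γ r).re := ⟨_, fun _ => rfl⟩
  obtain ⟨Z, hZ⟩ : ∃ Z : ℝ → ℝ, ∀ r, Z r = ((starRingEnd ℂ) e * γ r).im := ⟨_, fun _ => rfl⟩
  have eX : ∀ r r', X r - X r' = ((starRingEnd ℂ) e * (γ r - γ r')).re := by
    intro r r'
    rw [hX, hX, ← sub_re]; congr 1; ring
  have eZ : ∀ r r', Z r - Z r' = ((starRingEnd ℂ) e * (γ r - γ r')).im := by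
    intro r r'
    rw [hZ, hZ, ← sub_im]; congr 1; ring
  have nrm : ∀ r r', ‖(starRingEnd ℂ) e * (γ r - γ r')‖ = ‖e‖ * ‖γ r - γ r'‖ := by
    intro r r'
    rw [norm_mul, norm_conj]
  rw [← eX] at hv
  rw [← eX, ← eX] at hf1 hf2
  have hWX : ∀ r ∈ Icc s₁ t₁, |X r - X τ| ≤ ‖e‖ * h := by
    intro r hr
    rw [eX]
    refine (Complex.abs_re_le_norm _).trans ?_
    rw [nrm]
    exact mul_le_mul_of_nonneg_left (hW r hr) hn.le
  have hWZ : ∀ r ∈ Icc s₁ t₁, |Z r - Z τ| ≤ ‖e‖ * h := by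
    intro r hr
    rw [eZ]
    refine (Complex.abs_im_le_norm _).trans ?_
    rw [nrm]
    exact mul_le_mul_of_nonneg_left (hW r hr) hn.le
  have hlen : ‖e‖ * ‖γ s - γ t‖ = |Z s - Z t| := by
    rw [← nrm, eZ]
    rw [eX] at hv
    have : (starRingEnd ℂ) e * (γ s - γ t) =
        ((((starRingEnd ℂ) e * (γ s - γ t)).im : ℝ) : ℂ) * I := by
      apply Complex.ext
      · simp [hv]
      · simp
    rw [this, norm_mul, Complex.norm_real, Complex.norm_I, mul_one, Real.norm_eq_abs]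
    simp
  have hne : γ s ≠ γ t := by
    intro h0
    obtain ⟨n, hn'⟩ := hγ.inj s t h0
    have c1 : (n:ℝ) < 0 := by linarith
    have c2 : (-1:ℝ) < n := by linarith
    have c3 : n < 0 := by exact_mod_cast c1
    have c4 : -1 < n := by exact_mod_cast c2
    omega
  have hpos : 0 < |Z s - Z t| := by
    rw [← hlen]
    exact mul_pos hn (norm_pos_iff.2 (sub_ne_zero.2 hne))
  have hM' : 8000 * (‖e‖ * h) ≤ (1 - L) ^ 4 * |Z s - Z t| := by
    rw [← hlen]
    have := mul_le_mul_of_nonneg_left hM hn.le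
    linarith
  rcases lt_or_gt_of_ne (show Z s ≠ Z t from fun h0 => by rw [h0, sub_self, abs_zero] at hpos; exact lt_irrefl _ hpos) with hlt | hgt
  · refine sep_wide_pos hγ hδ2 (e := e) (X := X) (Y := fun r => -Z r) (η := ‖e‖ * h) hX
      (Or.inr fun r => by rw [hZ]) L1 o1 o2 o3 o4 o5 o6 hst ha hb (by linarith) (by linarith)
      (fun r hr => ⟨hWX r hr, ?_⟩) ?_ hf1 hf2
    · have := hWZ r hr
      rwa [show -Z r - -Z τ = -(Z r - Z τ) by ring, abs_neg]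
    · rw [abs_of_neg (by linarith)] at hM'
      rwa [show -Z s - -Z t = -(Z s - Z t) by ring]
  · refine sep_wide_pos hγ hδ2 (e := e) (X := X) (Y := Z) (η := ‖e‖ * h) hX
      (Or.inl hZ) L1 o1 o2 o3 o4 o5 o6 hst ha hb (by linarith) hgt
      (fun r hr => ⟨hWX r hr, hWZ r hr⟩) ?_ hf1 hf2
    rwa [abs_of_pos (by linarith)] at hM'

end Pool.Agent.Y450.Horn
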